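import Pool.Agent.Lib_helper82.BR.Mt
import Pool.Agent.Lib_helper64.SS.B.LMB

/-! Rigidity of immersed Brody curves, block LIM: limits along an ultrafilter of maps with bounded
derivative (adapted from Lib_helper64/SS/B/LMB). -/

set_option autoImplicit false
set_option linter.unusedSectionVars false

open Filter Topology Metric Set
open scoped Manifold ContDiff

namespace Pool.Agent.BR

section lim

variable {E X : Type} [NormedAddCommGroup E] [NormedSpace ℂ E] [FiniteDimensional ℂ E]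
  [MetricSpace X] [CompactSpace X] (A : Cha E X)

/-- change of charts for the expression of a map -/
theorem lim_loc_trans {F : ℂ → X} {t : ℂ} (hc : ContinuousAt F t) {y y' : A.ι}
    (hy : F t ∈ (A.ch y).source) :
    A.loc y' F =ᶠ[𝓝 t] fun s => A.ch y' ((A.ch y).symm (A.loc y F s)) := by
  filter_upwards [hc.eventually ((A.ch y).open_source.mem_nhds hy)] with s hs
  rw [Cha.loc, Cha.loc, (A.ch y).left_inv hs]

theorem lim_holAt_of_chart {F : ℂ → X} {t : ℂ} (hc : ContinuousAt F t) {y : A.ι}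
    (hy : F t ∈ (A.ch y).source) (ha : AnalyticAt ℂ (A.loc y F) t) : A.HolAt F t := by
  refine ⟨hc, fun y' hy' => ?_⟩
  refine AnalyticAt.congr ?_ (lim_loc_trans A hc hy).symm
  have h1 : AnalyticAt ℂ (fun ξ => A.ch y' ((A.ch y).symm ξ)) (A.loc y F t) :=
    A.trans y y' (F t) hy hy'
  exact h1.comp ha

/-- chain rule for a change of charts -/
theorem lim_deriv_loc {F : ℂ → X} {t : ℂ} (h : A.HolAt F t) {y y' : A.ι}
    (hy : F t ∈ (A.ch y).source) (hy' : F t ∈ (A.ch y').source) :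
    deriv (A.loc y' F) t =
      fderiv ℂ (fun ξ => A.ch y' ((A.ch y).symm ξ)) (A.ch y (F t)) (deriv (A.loc y F) t) := by
  rw [(lim_loc_trans A h.1 hy).deriv_eq]
  have h1 : HasFDerivAt (fun ξ => A.ch y' ((A.ch y).symm ξ))
      (fderiv ℂ (fun ξ => A.ch y' ((A.ch y).symm ξ)) (A.ch y (F t))) (A.loc y F t) :=
    (A.trans y y' (F t) hy hy').differentiableAt.hasFDerivAt
  have h2 := h1.comp_hasDerivAt t (h.2 y hy).differentiableAt.hasDerivAt
  have h3 : deriv (fun s => A.ch y' ((A.ch y).symm (A.loc y F s))) t = _ := h2.deriv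
  rw [h3]

/-- local control of the maps -/
theorem lim_local {κ : Type} (U : Filter κ) (f : κ → ℂ → X) (M : ℝ) (hM : 0 ≤ M)
    (hf : ∀ R : ℝ, ∀ᶠ n in U, ∀ t ∈ ball (0 : ℂ) R, A.HolAt (f n) t ∧
      ∀ i, f n t ∈ A.W i → ‖deriv (A.loc i (f n)) t‖ ≤ M)
    (t₀ : ℂ) (y : A.ι) (x₀ : X) (hx₀ : x₀ ∈ A.W y)
    (hlim : Tendsto (fun n => f n t₀) U (𝓝 x₀)) :
    ∃ δ > 0, ∃ ρ > 0, closedBall (A.ch y x₀) ρ ⊆ (A.ch y).target ∧
      ∀ᶠ n in U, ∀ t ∈ ball t₀ δ, f n t ∈ (A.ch y).source ∧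
        A.loc y (f n) t ∈ closedBall (A.ch y x₀) ρ ∧ AnalyticAt ℂ (A.loc y (f n)) t ∧
        ‖deriv (A.loc y (f n)) t‖ ≤ M := by
  have hx₀s : x₀ ∈ (A.ch y).source := A.W_sub y (subset_closure hx₀)
  obtain ⟨ξ₀, hξ₀⟩ : ∃ ξ₀, ξ₀ = A.ch y x₀ := ⟨_, rfl⟩
  have hξt : ξ₀ ∈ (A.ch y).target := by rw [hξ₀]; exact (A.ch y).map_source hx₀s
  have hsymm : (A.ch y).symm ξ₀ = x₀ := by rw [hξ₀]; exact (A.ch y).left_inv hx₀s
  have h2 : ∀ᶠ ξ in 𝓝 ξ₀, ξ ∈ (A.ch y).target ∧ (A.ch y).symm ξ ∈ A.W y := by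
    have h3 : ContinuousAt (A.ch y).symm ξ₀ := (A.ch y).continuousAt_symm hξt
    have h4 : A.W y ∈ 𝓝 ((A.ch y).symm ξ₀) := by
      rw [hsymm]; exact (A.W_open y).mem_nhds hx₀
    have h5 : ∀ᶠ ξ in 𝓝 ξ₀, ξ ∈ (A.ch y).target := (A.ch y).open_target.mem_nhds hξt
    exact h5.and (h3.eventually h4)
  obtain ⟨ρ, hρ, hρ2⟩ := Metric.nhds_basis_closedBall.mem_iff.mp h2
  obtain ⟨δ, hδ⟩ : ∃ δ : ℝ, δ = min 1 (ρ / (4 * (M + 1))) := ⟨_, rfl⟩
  have hδ0 : 0 < δ := by rw [hδ]; exact lt_min one_pos (by positivity)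
  have hδ1 : δ ≤ 1 := by rw [hδ]; exact min_le_left _ _
  have hδ2 : δ ≤ ρ / (4 * (M + 1)) := by rw [hδ]; exact min_le_right _ _
  have hL : M * δ ≤ ρ / 4 := by
    have h3 : (M + 1) * δ ≤ ρ / 4 := by
      calc (M + 1) * δ ≤ (M + 1) * (ρ / (4 * (M + 1))) :=
            mul_le_mul_of_nonneg_left hδ2 (by positivity)
        _ = ρ / 4 := by field_simp
    nlinarith
  rw [← hξ₀]
  refine ⟨δ, hδ0, ρ, hρ, fun ξ hξ => (hρ2 hξ).1, ?_⟩
  have hsrc : ∀ᶠ n in U, f n t₀ ∈ (A.ch y).source :=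
    hlim.eventually ((A.ch y).open_source.mem_nhds hx₀s)
  have hch : Tendsto (fun n => A.ch y (f n t₀)) U (𝓝 ξ₀) := by
    rw [hξ₀]
    exact ((A.ch y).continuousAt hx₀s).tendsto.comp hlim
  have hnear : ∀ᶠ n in U, ‖A.ch y (f n t₀) - ξ₀‖ < ρ / 2 := by
    have h3 := hch.eventually (ball_mem_nhds ξ₀ (half_pos hρ))
    filter_upwards [h3] with n h4
    rwa [dist_eq_norm] at h4
  filter_upwards [hf (‖t₀‖ + 2), hsrc, hnear] with n hn1 hn2 hn3 t ht
  have hdist : ‖t - t₀‖ < δ := by rwa [mem_ball_iff_norm] at ht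
  have hp : ∀ τ ∈ Icc (0 : ℝ) 1, t₀ + (τ : ℂ) * (t - t₀) ∈ ball (0 : ℂ) (‖t₀‖ + 2) := by
    intro τ hτ
    rw [mem_ball_zero_iff]
    calc ‖t₀ + (τ : ℂ) * (t - t₀)‖ ≤ ‖t₀‖ + ‖(τ : ℂ) * (t - t₀)‖ := norm_add_le _ _
      _ = ‖t₀‖ + |τ| * ‖t - t₀‖ := by rw [norm_mul, Complex.norm_real, Real.norm_eq_abs]
      _ ≤ ‖t₀‖ + 1 * ‖t - t₀‖ := by
          have h4 : |τ| ≤ 1 := by rw [abs_le]; constructor <;> linarith [hτ.1, hτ.2]
          have := mul_le_mul_of_nonneg_right h4 (norm_nonneg (t - t₀))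
          linarith
      _ < ‖t₀‖ + 2 := by linarith
  have haff : ∀ τ : ℝ, HasDerivAt (fun σ : ℝ => t₀ + (σ : ℂ) * (t - t₀)) (t - t₀) τ := by
    intro τ
    have h4 : HasDerivAt (fun σ : ℝ => (σ : ℂ)) 1 τ := Complex.ofRealCLM.hasDerivAt
    have h5 := (h4.mul_const (t - t₀)).const_add t₀
    rwa [one_mul] at h5
  have hbound : ∀ s ∈ ball (0 : ℂ) (‖t₀‖ + 2), f n s ∈ (A.ch y).source →
      ‖A.ch y (f n s) - ξ₀‖ ≤ ρ → ‖deriv (A.loc y (f n)) s‖ ≤ M := by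
    intro s hs hs1 hs2
    have h4 : A.ch y (f n s) ∈ closedBall ξ₀ ρ := by rwa [mem_closedBall_iff_norm]
    have h5 := (hρ2 h4).2
    rw [(A.ch y).left_inv hs1] at h5
    exact (hn1 s hs).2 y h5
  have hcurve := Pool.Agent.SS.lmb_curve (A.ch y) (fun τ : ℝ => f n (t₀ + (τ : ℂ) * (t - t₀)))
    (ξ₀ := ξ₀) (ρ := ρ) (L := M * δ)
    (fun τ hτ => by
      have h4 : ContinuousAt (f n) ((fun σ : ℝ => t₀ + (σ : ℂ) * (t - t₀)) τ) :=
        (hn1 _ (hp τ hτ)).1.1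
      exact h4.comp (f := fun σ : ℝ => t₀ + (σ : ℂ) * (t - t₀)) (haff τ).continuousAt)
    (mul_nonneg hM hδ0.le) (fun ξ hξ => (hρ2 hξ).1)
    (by simpa using hn2)
    (by
      have h4 : (t₀ + ((0 : ℝ) : ℂ) * (t - t₀)) = t₀ := by simp
      rw [h4]
      linarith)
    (fun τ hτ hs1 hs2 => by
      refine ⟨(t - t₀) • deriv (A.loc y (f n)) (t₀ + (τ : ℂ) * (t - t₀)), ?_, ?_⟩
      · have h4 : HasDerivAt (A.loc y (f n))
            (deriv (A.loc y (f n)) (t₀ + (τ : ℂ) * (t - t₀))) (t₀ + (τ : ℂ) * (t - t₀)) :=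
          ((hn1 _ (hp τ hτ)).1.2 y hs1).differentiableAt.hasDerivAt
        exact h4.scomp τ (haff τ)
      · rw [norm_smul, mul_comm]
        exact mul_le_mul (hbound _ (hp τ hτ) hs1 hs2) hdist.le (norm_nonneg _) hM)
    1 ⟨zero_le_one, le_rfl⟩
  have e1 : t₀ + ((1 : ℝ) : ℂ) * (t - t₀) = t := by push_cast; ring
  have e0 : t₀ + ((0 : ℝ) : ℂ) * (t - t₀) = t₀ := by simp
  simp only [e1, e0] at hcurve
  have htR : t ∈ ball (0 : ℂ) (‖t₀‖ + 2) := by
    have := hp 1 ⟨zero_le_one, le_rfl⟩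
    rwa [e1] at this
  have hin : ‖A.ch y (f n t) - ξ₀‖ ≤ ρ := by
    calc ‖A.ch y (f n t) - ξ₀‖ =
        ‖(A.ch y (f n t) - A.ch y (f n t₀)) + (A.ch y (f n t₀) - ξ₀)‖ := by congr 1; abel
      _ ≤ ‖A.ch y (f n t) - A.ch y (f n t₀)‖ + ‖A.ch y (f n t₀) - ξ₀‖ := norm_add_le _ _
      _ ≤ M * δ * 1 + ρ / 2 := add_le_add hcurve.2 hn3.le
      _ ≤ ρ := by linarith
  refine ⟨hcurve.1, ?_, (hn1 t htR).1.2 y hcurve.1, ?_⟩
  · rw [mem_closedBall_iff_norm]
    exact hin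
  · exact hbound t htR hcurve.1 hin

/-- LIM: limits along an ultrafilter of maps with bounded derivative -/
theorem ultra_lim {κ : Type} (U : Ultrafilter κ) (f : κ → ℂ → X) (M : ℝ)
    (hf : ∀ R : ℝ, ∀ᶠ n in (U : Filter κ), ∀ t ∈ ball (0 : ℂ) R, A.HolAt (f n) t ∧
      ∀ i, f n t ∈ A.W i → ‖deriv (A.loc i (f n)) t‖ ≤ M) :
    ∃ g : ℂ → X, ∀ t, A.HolAt g t ∧ Tendsto (fun n => f n t) U (𝓝 (g t)) ∧
      ∀ i, g t ∈ (A.ch i).source →
        Tendsto (fun n => deriv (A.loc i (f n)) t) U (𝓝 (deriv (A.loc i g) t)) := by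
  have : ProperSpace E := FiniteDimensional.proper ℂ E
  obtain ⟨B, hBdef⟩ : ∃ B : ℝ, B = max M 0 := ⟨_, rfl⟩
  have hB : 0 ≤ B := by rw [hBdef]; exact le_max_right _ _
  have hMB : M ≤ B := by rw [hBdef]; exact le_max_left _ _
  have hf' : ∀ R : ℝ, ∀ᶠ n in (U : Filter κ), ∀ t ∈ ball (0 : ℂ) R, A.HolAt (f n) t ∧
      ∀ i, f n t ∈ A.W i → ‖deriv (A.loc i (f n)) t‖ ≤ B := by
    intro R
    filter_upwards [hf R] with n hn t ht
    exact ⟨(hn t ht).1, fun i hi => ((hn t ht).2 i hi).trans hMB⟩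
  have hex : ∀ t : ℂ, ∃ x, Tendsto (fun n => f n t) U (𝓝 x) := by
    intro t
    obtain ⟨x, -, hx⟩ := isCompact_univ.ultrafilter_le_nhds (U.map fun n => f n t)
      (by rw [principal_univ]; exact le_top)
    exact ⟨x, hx⟩
  choose g hg using hex
  refine ⟨g, fun t₀ => ?_⟩
  obtain ⟨y, hyW⟩ := A.cover (g t₀)
  have hys : g t₀ ∈ (A.ch y).source := A.W_sub y (subset_closure hyW)
  obtain ⟨δ, hδ, ρ, hρ, hρt, hloc⟩ := lim_local A (U : Filter κ) f B hB hf' t₀ y (g t₀) hyW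
    (hg t₀)
  -- pointwise convergence in the chart
  have hpt : ∀ t ∈ ball t₀ δ, g t ∈ (A.ch y).source ∧
      A.loc y g t ∈ closedBall (A.ch y (g t₀)) ρ ∧
      Tendsto (fun n => A.loc y (f n) t) U (𝓝 (A.loc y g t)) := by
    intro t ht
    have h1 : ∀ᶠ n in (U : Filter κ), A.loc y (f n) t ∈ closedBall (A.ch y (g t₀)) ρ := by
      filter_upwards [hloc] with n hn
      exact (hn t ht).2.1
    obtain ⟨z, hz, hz2⟩ := (isCompact_closedBall (A.ch y (g t₀)) ρ).ultrafilter_le_nhds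
      (U.map fun n => A.loc y (f n) t) (by
        rw [Ultrafilter.coe_map, le_principal_iff, mem_map]
        exact h1)
    have hz3 : Tendsto (fun n => A.loc y (f n) t) U (𝓝 z) := hz2
    have h2 : Tendsto (fun n => (A.ch y).symm (A.loc y (f n) t)) U (𝓝 ((A.ch y).symm z)) :=
      ((A.ch y).continuousAt_symm (hρt hz)).tendsto.comp hz3
    have h3 : Tendsto (fun n => f n t) U (𝓝 ((A.ch y).symm z)) := by
      refine h2.congr' ?_
      filter_upwards [hloc] with n hn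
      exact (A.ch y).left_inv (hn t ht).1
    have h4 : g t = (A.ch y).symm z := tendsto_nhds_unique (hg t) h3
    have h5 : A.loc y g t = z := by
      rw [Cha.loc, h4, (A.ch y).right_inv (hρt hz)]
    refine ⟨?_, ?_, ?_⟩
    · rw [h4]
      exact (A.ch y).map_target (hρt hz)
    · rw [h5]
      exact hz
    · rw [h5]
      exact hz3
  -- Lipschitz bounds
  have hlip : ∀ᶠ n in (U : Filter κ), ∀ s ∈ ball t₀ δ, ∀ t ∈ ball t₀ δ,
      ‖A.loc y (f n) t - A.loc y (f n) s‖ ≤ B * ‖t - s‖ := by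
    filter_upwards [hloc] with n hn s hs t ht
    exact Convex.norm_image_sub_le_of_norm_deriv_le
      (fun x hx => (hn x hx).2.2.1.differentiableAt) (fun x hx => (hn x hx).2.2.2)
      (convex_ball t₀ δ) hs ht
  have hlip' : ∀ s ∈ ball t₀ δ, ∀ t ∈ ball t₀ δ,
      ‖A.loc y g t - A.loc y g s‖ ≤ B * ‖t - s‖ := by
    intro s hs t ht
    have h1 : Tendsto (fun n => ‖A.loc y (f n) t - A.loc y (f n) s‖) U
        (𝓝 ‖A.loc y g t - A.loc y g s‖) := ((hpt t ht).2.2.sub (hpt s hs).2.2).norm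
    exact le_of_tendsto h1 (hlip.mono fun n hn => hn s hs t ht)
  have hunif : TendstoLocallyUniformlyOn (fun n => A.loc y (f n)) (A.loc y g) U (ball t₀ δ) := by
    rw [Metric.tendstoLocallyUniformlyOn_iff]
    intro ε hε x hx
    refine ⟨ball x (ε / (3 * (B + 1))) ∩ ball t₀ δ, ?_, ?_⟩
    · rw [inter_comm]
      exact inter_mem_nhdsWithin _ (ball_mem_nhds x (by positivity))
    · have h1 : ∀ᶠ n in (U : Filter κ), ‖A.loc y g x - A.loc y (f n) x‖ < ε / 3 := by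
        have h2 : Tendsto (fun n => ‖A.loc y g x - A.loc y (f n) x‖) U (𝓝 0) := by
          have h3 := ((hpt x hx).2.2.const_sub (A.loc y g x)).norm
          rwa [sub_self, norm_zero] at h3
        exact h2.eventually (gt_mem_nhds (by positivity))
      filter_upwards [h1, hlip] with n h2 h3 t ht
      have h4 : ‖t - x‖ < ε / (3 * (B + 1)) := by
        have := ht.1
        rwa [mem_ball_iff_norm] at this
      have h5 : B * ‖t - x‖ ≤ ε / 3 := by
        calc B * ‖t - x‖ ≤ (B + 1) * ‖t - x‖ := by nlinarith [norm_nonneg (t - x)]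
          _ ≤ (B + 1) * (ε / (3 * (B + 1))) := mul_le_mul_of_nonneg_left h4.le (by positivity)
          _ = ε / 3 := by field_simp
      have h6 := hlip' x hx t ht.2
      have h7 := h3 x hx t ht.2
      rw [dist_eq_norm]
      calc ‖A.loc y g t - A.loc y (f n) t‖ =
          ‖(A.loc y g t - A.loc y g x) + (A.loc y g x - A.loc y (f n) x) -
            (A.loc y (f n) t - A.loc y (f n) x)‖ := by congr 1; abel
        _ ≤ ‖(A.loc y g t - A.loc y g x) + (A.loc y g x - A.loc y (f n) x)‖ +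
            ‖A.loc y (f n) t - A.loc y (f n) x‖ := norm_sub_le _ _
        _ ≤ ‖A.loc y g t - A.loc y g x‖ + ‖A.loc y g x - A.loc y (f n) x‖ +
            ‖A.loc y (f n) t - A.loc y (f n) x‖ := by
            have := norm_add_le (A.loc y g t - A.loc y g x) (A.loc y g x - A.loc y (f n) x)
            linarith
        _ < ε := by linarith
  have hdiffn : ∀ᶠ n in (U : Filter κ), DifferentiableOn ℂ (A.loc y (f n)) (ball t₀ δ) := by
    filter_upwards [hloc] with n hn t ht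
    exact (hn t ht).2.2.1.differentiableAt.differentiableWithinAt
  have hdiff : DifferentiableOn ℂ (A.loc y g) (ball t₀ δ) :=
    hunif.differentiableOn hdiffn isOpen_ball
  have hderiv := hunif.deriv hdiffn isOpen_ball
  have hda := hderiv.tendsto_at (mem_ball_self hδ)
  have han : AnalyticAt ℂ (A.loc y g) t₀ := hdiff.analyticAt (ball_mem_nhds t₀ hδ)
  have hcont : ContinuousAt g t₀ := by
    have h1 : ContinuousAt (fun t => (A.ch y).symm (A.loc y g t)) t₀ := by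
      have h2 : ContinuousAt (A.ch y).symm (A.loc y g t₀) :=
        (A.ch y).continuousAt_symm ((A.ch y).map_source hys)
      exact h2.comp (f := A.loc y g) han.continuousAt
    refine h1.congr ?_
    filter_upwards [ball_mem_nhds t₀ hδ] with t ht
    exact (A.ch y).left_inv (hpt t ht).1
  have hHol : A.HolAt g t₀ := lim_holAt_of_chart A hcont hys han
  refine ⟨hHol, hg t₀, fun y' hy' => ?_⟩
  have hθ : AnalyticAt ℂ (fun ξ => A.ch y' ((A.ch y).symm ξ)) (A.ch y (g t₀)) :=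
    A.trans y y' (g t₀) hys hy'
  have hθ2 : ContinuousAt (fderiv ℂ (fun ξ => A.ch y' ((A.ch y).symm ξ))) (A.ch y (g t₀)) :=
    hθ.fderiv.continuousAt
  have hch : Tendsto (fun n => A.ch y (f n t₀)) U (𝓝 (A.ch y (g t₀))) :=
    (hpt t₀ (mem_ball_self hδ)).2.2
  have h1 : Tendsto (fun n => fderiv ℂ (fun ξ => A.ch y' ((A.ch y).symm ξ)) (A.ch y (f n t₀))
      (deriv (A.loc y (f n)) t₀)) U
      (𝓝 (fderiv ℂ (fun ξ => A.ch y' ((A.ch y).symm ξ)) (A.ch y (g t₀))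
        (deriv (A.loc y g) t₀))) := by
    have h2 := (hθ2.tendsto.comp hch).prodMk_nhds hda
    have h3 := (isBoundedBilinearMap_apply (𝕜 := ℂ) (E := E) (F := E)).continuous.tendsto
      (fderiv ℂ (fun ξ => A.ch y' ((A.ch y).symm ξ)) (A.ch y (g t₀)),
        deriv (A.loc y g) t₀)
    exact h3.comp h2
  rw [lim_deriv_loc A hHol hys hy']
  refine h1.congr' ?_
  have hs' : ∀ᶠ n in (U : Filter κ), f n t₀ ∈ (A.ch y').source :=
    (hg t₀).eventually ((A.ch y').open_source.mem_nhds hy')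
  filter_upwards [hloc, hs', hf (‖t₀‖ + 1)] with n hn hn2 hn3
  have h2 : A.HolAt (f n) t₀ := (hn3 t₀ (by rw [mem_ball_zero_iff]; linarith)).1
  rw [lim_deriv_loc A h2 (hn t₀ (mem_ball_self hδ)).1 hn2]

end lim

end Pool.Agent.BR
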