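import Pool.Agent.Lib_helper82.BR.Mt

/-! # BR, block CHA: a finite atlas with cores (MP_45e720_ag) -/

set_option autoImplicit false
set_option linter.unusedSectionVars false

open Filter Topology Metric Set
open scoped Manifold ContDiff

namespace Pool.Agent.BR

section manifold

variable {E X : Type} [NormedAddCommGroup E] [NormedSpace ℂ E] [FiniteDimensional ℂ E]
  [MetricSpace X] [CompactSpace X] [ChartedSpace E X] [IsManifold 𝓘(ℂ, E) ω X]

theorem cha_trans {y y' x : X} (hx : x ∈ (chartAt E y).source)
    (hx' : x ∈ (chartAt E y').source) :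
    AnalyticAt ℂ (fun ξ => chartAt E y' ((chartAt E y).symm ξ)) (chartAt E y x) := by
  have : CompleteSpace E := FiniteDimensional.complete ℂ E
  have h1 := ModelWithCorners.contDiffWithinAt_extendCoordChange' (I := 𝓘(ℂ, E)) (n := ω)
    (M := X) (IsManifold.chart_mem_maximalAtlas y) (IsManifold.chart_mem_maximalAtlas y') hx hx'
  have h2 := contDiffWithinAt_omega_iff_analyticWithinAt.1 h1
  simp only [mfld_simps] at h2
  rw [analyticWithinAt_univ] at h2
  exact h2

/-- CHA: a finite atlas with cores -/
theorem exists_cha : ∃ A : Cha E X, ∀ i, ∃ y, A.ch i = chartAt E y := by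
  classical
  have h1 : ∀ x : X, ∃ V : Set X, IsOpen V ∧ x ∈ V ∧ closure V ⊆ (chartAt E x).source := by
    intro x
    have h2 : (chartAt E x).source ∈ 𝓝 x :=
      (chartAt E x).open_source.mem_nhds (mem_chart_source E x)
    obtain ⟨r, hr, h3⟩ := Metric.nhds_basis_closedBall.mem_iff.1 h2
    refine ⟨ball x r, isOpen_ball, mem_ball_self hr, ?_⟩
    exact (closure_ball_subset_closedBall).trans h3
  choose V hVo hVx hVc using h1
  obtain ⟨t, ht⟩ := isCompact_univ.elim_nhds_subcover V
    (fun x _ => (hVo x).mem_nhds (hVx x))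
  refine ⟨{ ι := {x // x ∈ t}
            fin := inferInstance
            ch := fun i => chartAt E i.1
            W := fun i => V i.1
            W_open := fun i => hVo i.1
            W_sub := fun i => hVc i.1
            cover := ?_
            trans := fun i j x hx hx' => cha_trans hx hx' }, fun i => ⟨i.1, rfl⟩⟩
  intro x
  obtain ⟨y, hy, hxy⟩ := mem_iUnion₂.1 (ht.2 (mem_univ x))
  exact ⟨⟨y, hy⟩, hxy⟩

end manifold

end Pool.Agent.BR
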