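import Pool.Agent.Lib_helper82.BR.Mt
import Pool.Agent.Lib_helper82.BR.B.LIM

-- NEEDS: LIM
/-! Block BRO (MP_45e720_ag), by helper14; `bro_point` is by helper69. -/

set_option autoImplicit false
set_option linter.unusedSectionVars false

open Filter Topology Metric Set
open scoped Manifold ContDiff

namespace Pool.Agent.BR

/-- the point lemma of Brody (as in Lib_helper64/SS/B/BRO.lean, by helper69) -/
theorem bro_point (g : ℂ → ℝ) (c : ℂ) (ρ R : ℝ) (hR : 0 < R) (hρ : 0 < ρ)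
    (hg : ContinuousOn g (closedBall c ρ)) (h0 : ∀ z ∈ closedBall c ρ, 0 ≤ g z)
    (hc : 2 * R ≤ ρ * g c) :
    ∃ a ∈ ball c ρ, 0 < g a ∧ ∀ z, ‖z - a‖ < R / g a → z ∈ ball c ρ ∧ g z ≤ 2 * g a := by
  have hcont : ContinuousOn (fun z => (ρ - ‖z - c‖) * g z) (closedBall c ρ) := by
    refine ContinuousOn.mul ?_ hg
    fun_prop
  obtain ⟨a, ha, hmax⟩ := (isCompact_closedBall c ρ).exists_isMaxOn
    ⟨c, mem_closedBall_self hρ.le⟩ hcont
  have h1 : ρ * g c ≤ (ρ - ‖a - c‖) * g a := by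
    have := hmax (mem_closedBall_self hρ.le : c ∈ closedBall c ρ)
    simpa using this
  have hac : ‖a - c‖ ≤ ρ := by
    rw [mem_closedBall, dist_eq_norm] at ha
    exact ha
  have hga := h0 a ha
  have hpos : 0 < (ρ - ‖a - c‖) * g a := by linarith
  have hga' : 0 < g a := by
    rcases hga.eq_or_lt with h | h
    · rw [← h, mul_zero] at hpos
      exact absurd hpos (lt_irrefl _)
    · exact h
  have hd : 0 < ρ - ‖a - c‖ := (pos_iff_pos_of_mul_pos hpos).2 hga'
  refine ⟨a, ?_, hga', fun z hz => ?_⟩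
  · rw [mem_ball, dist_eq_norm]
    linarith
  · have h2 : R / g a ≤ (ρ - ‖a - c‖) / 2 := by
      rw [div_le_div_iff₀ hga' two_pos]
      linarith
    have h3 : ‖z - c‖ ≤ ‖z - a‖ + ‖a - c‖ := by
      have := norm_add_le (z - a) (a - c)
      simpa using this
    have h4 : (ρ - ‖a - c‖) / 2 ≤ ρ - ‖z - c‖ := by linarith
    have hz1 : z ∈ ball c ρ := by
      rw [mem_ball, dist_eq_norm]
      linarith
    refine ⟨hz1, ?_⟩
    have h5 := hmax (ball_subset_closedBall hz1)
    simp only at h5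
    have h6 := h0 z (ball_subset_closedBall hz1)
    have h7 : (ρ - ‖a - c‖) / 2 * g z ≤ (ρ - ‖a - c‖) * g a :=
      (mul_le_mul_of_nonneg_right h4 h6).trans h5
    have h8 : (ρ - ‖a - c‖) * (g z) ≤ (ρ - ‖a - c‖) * (2 * g a) := by linarith
    exact le_of_mul_le_mul_left h8 hd

theorem bro_affine_an (a b t : ℂ) : AnalyticAt ℂ (fun z : ℂ => a + b * z) t :=
  analyticAt_const.add (analyticAt_const.mul analyticAt_id)

variable {E X : Type} [NormedAddCommGroup E] [NormedSpace ℂ E] [FiniteDimensional ℂ E]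
  [MetricSpace X] [CompactSpace X] (A : Cha E X)

variable {A} in
theorem bro_hol {F : ℂ → X} {a b t : ℂ} (h : A.HolAt F (a + b * t)) :
    A.HolAt (fun z => F (a + b * z)) t := by
  have h1 := bro_affine_an a b t
  have h2 : ContinuousAt F ((fun z : ℂ => a + b * z) t) := h.1
  refine ⟨h2.comp (f := fun z : ℂ => a + b * z) h1.continuousAt, fun y hy => ?_⟩
  have h3 : AnalyticAt ℂ (A.loc y F) ((fun z : ℂ => a + b * z) t) := h.2 y hy
  exact h3.comp (f := fun z : ℂ => a + b * z) h1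

variable {A} in
theorem bro_deriv {F : ℂ → X} {a b t : ℂ} (h : A.HolAt F (a + b * t)) {i : A.ι}
    (hy : F (a + b * t) ∈ (A.ch i).source) :
    deriv (A.loc i fun z => F (a + b * z)) t = b • deriv (A.loc i F) (a + b * t) := by
  have h1 : HasDerivAt (fun z : ℂ => a + b * z) b t := by
    simpa using ((hasDerivAt_id t).const_mul b).const_add a
  have h2 : HasDerivAt (A.loc i F) (deriv (A.loc i F) (a + b * t)) (a + b * t) :=
    (h.2 i hy).differentiableAt.hasDerivAt
  have h3 : HasDerivAt (fun z => A.loc i F (a + b * z)) (b • deriv (A.loc i F) (a + b * t)) t :=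
    HasDerivAt.scomp (h := fun z : ℂ => a + b * z) t h2 h1
  exact h3.deriv

/-- cut-off functions for the cores -/
def BroCut (φ : A.ι → X → ℝ) : Prop :=
  ∀ i, Continuous (φ i) ∧ (∀ x, 0 ≤ φ i x) ∧ (∀ x ∈ A.W i, φ i x = 1) ∧
    ∀ x, x ∉ (A.ch i).source → ∀ᶠ y in 𝓝 x, φ i y = 0

theorem bro_cut : ∃ φ, BroCut A φ := by
  have key : ∀ i : A.ι, ∃ φ : X → ℝ, Continuous φ ∧ (∀ x, 0 ≤ φ x) ∧ (∀ x ∈ A.W i, φ x = 1) ∧
      ∀ x, x ∉ (A.ch i).source → ∀ᶠ y in 𝓝 x, φ y = 0 := by
    intro i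
    obtain ⟨V, hV, h1, h2⟩ := normal_exists_closure_subset isClosed_closure (A.ch i).open_source
      (A.W_sub i)
    obtain ⟨φ, h3, h4, h5⟩ := exists_continuous_zero_one_of_isClosed hV.isClosed_compl
      (isClosed_closure (s := A.W i)) (disjoint_compl_left_iff_subset.2 h1)
    refine ⟨φ, φ.continuous, fun x => (h5 x).1, fun x hx => h4 (subset_closure hx), fun x hx => ?_⟩
    have h6 : (closure V)ᶜ ∈ 𝓝 x := isClosed_closure.isOpen_compl.mem_nhds fun h => hx (h2 h)
    filter_upwards [h6] with y hy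
    exact h3 fun h => hy (subset_closure h)
  choose φ hφ using key
  exact ⟨φ, hφ⟩

/-- the gauge of the velocity -/
noncomputable def broN [Fintype A.ι] (φ : A.ι → X → ℝ) (f : ℂ → X) (z : ℂ) : ℝ :=
  ∑ i, φ i (f z) * ‖deriv (A.loc i f) z‖

variable {A}

section

variable [Fintype A.ι] {φ : A.ι → X → ℝ} (hφ : BroCut A φ)
include hφ

theorem broN_nonneg (f : ℂ → X) (z : ℂ) : 0 ≤ broN A φ f z :=
  Finset.sum_nonneg fun i _ => mul_nonneg ((hφ i).2.1 _) (norm_nonneg _)

theorem broN_le (f : ℂ → X) (z : ℂ) (i : A.ι) (hi : f z ∈ A.W i) :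
    ‖deriv (A.loc i f) z‖ ≤ broN A φ f z := by
  have h1 := Finset.single_le_sum (f := fun i => φ i (f z) * ‖deriv (A.loc i f) z‖)
    (fun i _ => mul_nonneg ((hφ i).2.1 _) (norm_nonneg _)) (Finset.mem_univ i)
  have h2 : φ i (f z) = 1 := (hφ i).2.2.1 _ hi
  simp only [h2, one_mul] at h1
  exact h1

/-- convergence of the gauge -/
theorem broN_tendsto {κ : Type} (l : Filter κ) (F : κ → ℂ → X) (s : κ → ℂ) (g : ℂ → X) (t : ℂ)
    (h1 : Tendsto (fun n => F n (s n)) l (𝓝 (g t)))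
    (h2 : ∀ i, g t ∈ (A.ch i).source →
      Tendsto (fun n => deriv (A.loc i (F n)) (s n)) l (𝓝 (deriv (A.loc i g) t))) :
    Tendsto (fun n => broN A φ (F n) (s n)) l (𝓝 (broN A φ g t)) := by
  unfold broN
  refine tendsto_finsetSum _ fun i _ => ?_
  by_cases hi : g t ∈ (A.ch i).source
  · exact (((hφ i).1.tendsto _).comp h1).mul (h2 i hi).norm
  · have h3 := (hφ i).2.2.2 _ hi
    have h4 : φ i (g t) = 0 := h3.self_of_nhds
    rw [h4, zero_mul]
    refine tendsto_const_nhds.congr' ?_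
    filter_upwards [h1.eventually h3] with n hn
    rw [hn, zero_mul]

theorem broN_cont {f : ℂ → X} (hf : ∀ t, A.HolAt f t) : Continuous (broN A φ f) := by
  rw [continuous_iff_continuousAt]
  intro t
  refine broN_tendsto hφ (𝓝 t) (fun _ => f) (fun z => z) f t (hf t).1 fun i hi => ?_
  exact ((hf t).2 i hi).deriv.continuousAt

theorem broN_affine {f : ℂ → X} {a t : ℂ} {r : ℝ} (hr : 0 ≤ r)
    (h : A.HolAt f (a + (r : ℂ) * t)) :
    broN A φ (fun z => f (a + (r : ℂ) * z)) t = r * broN A φ f (a + (r : ℂ) * t) := by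
  unfold broN
  rw [Finset.mul_sum]
  refine Finset.sum_congr rfl fun i _ => ?_
  by_cases hi : f (a + (r : ℂ) * t) ∈ (A.ch i).source
  · rw [bro_deriv h hi, norm_smul, Complex.norm_real, Real.norm_of_nonneg hr]
    ring
  · have h4 : φ i (f (a + (r : ℂ) * t)) = 0 := ((hφ i).2.2.2 _ hi).self_of_nhds
    rw [h4, zero_mul, zero_mul, mul_zero]

/-- if the gauge vanishes identically, then the map is constant -/
theorem bro_const {f : ℂ → X} (hf : ∀ t, A.HolAt f t) (h : ∀ t, broN A φ f t = 0) (z z' : ℂ) :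
    f z = f z' := by
  have hloc : IsLocallyConstant f := by
    rw [IsLocallyConstant.iff_eventually_eq]
    intro t₀
    obtain ⟨i, hi⟩ := A.cover (f t₀)
    have hs : A.W i ⊆ (A.ch i).source := subset_closure.trans (A.W_sub i)
    have h2 : ∀ᶠ t in 𝓝 t₀, f t ∈ A.W i := (hf t₀).1.eventually ((A.W_open i).mem_nhds hi)
    obtain ⟨r, hr, hb⟩ := Metric.eventually_nhds_iff_ball.1 h2
    have hd : ∀ t ∈ ball t₀ r, HasFDerivWithinAt (A.loc i f) (0 : ℂ →L[ℂ] E) (ball t₀ r) t := by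
      intro t ht
      have h3 := ((hf t).2 i (hs (hb t ht))).differentiableAt.hasDerivAt
      have h4 : deriv (A.loc i f) t = 0 :=
        norm_le_zero_iff.1 ((broN_le hφ f t i (hb t ht)).trans (h t).le)
      rw [h4] at h3
      have h5 := h3.hasFDerivAt.hasFDerivWithinAt (s := ball t₀ r)
      have h6 : ContinuousLinearMap.toSpanSingleton ℂ (0 : E) = 0 := by
        ext
        simp
      rwa [h6] at h5
    filter_upwards [ball_mem_nhds t₀ hr] with t ht
    have h6 : A.loc i f t = A.loc i f t₀ := by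
      have h7 := (convex_ball t₀ r).norm_image_sub_le_of_norm_hasFDerivWithin_le (C := 0) hd
        (fun x _ => by simp) (mem_ball_self hr) ht
      rw [zero_mul] at h7
      exact sub_eq_zero.1 (norm_le_zero_iff.1 h7)
    exact (A.ch i).injOn (hs (hb t ht)) (hs hi) h6
  exact hloc.apply_eq_of_preconnectedSpace z z'

end

variable (A)

/-- BRO: Brody's reparametrisation -/
theorem brody_curve (f : ℂ → X) (hf : ∀ t, A.HolAt f t) (hne : ∃ z z', f z ≠ f z') :
    ∃ g : ℂ → X, (∀ t, A.HolAt g t) ∧ (∃ C, ∀ z i, g z ∈ A.W i → ‖deriv (A.loc i g) z‖ ≤ C) ∧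
      ∃ z z', g z ≠ g z' := by
  have := A.fin
  let _ : Fintype A.ι := Fintype.ofFinite A.ι
  obtain ⟨φ, hφ⟩ := bro_cut A
  obtain ⟨z, z', hzz⟩ := hne
  obtain ⟨c, hc⟩ : ∃ c, 0 < broN A φ f c := by
    by_contra hno
    push Not at hno
    exact hzz (bro_const hφ hf (fun t => le_antisymm (hno t) (broN_nonneg hφ f t)) z z')
  have key : ∀ n : ℕ, ∃ a : ℂ, 0 < broN A φ f a ∧ ∀ z, ‖z - a‖ < (n + 1 : ℝ) / broN A φ f a →
      broN A φ f z ≤ 2 * broN A φ f a := by
    intro n
    have hn : (0 : ℝ) < n + 1 := by positivity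
    obtain ⟨a, -, h1, h2⟩ := bro_point (broN A φ f) c (2 * (n + 1) / broN A φ f c) (n + 1) hn
      (by positivity) (broN_cont hφ hf).continuousOn (fun z _ => broN_nonneg hφ f z)
      (by rw [div_mul_cancel₀ _ hc.ne'])
    exact ⟨a, h1, fun z hz => (h2 z hz).2⟩
  choose a ha hmax using key
  set r : ℕ → ℝ := fun n => (broN A φ f (a n))⁻¹ with hr
  have hr0 : ∀ n, 0 < r n := fun n => inv_pos.2 (ha n)
  set F : ℕ → ℂ → X := fun n z => f (a n + (r n : ℂ) * z) with hF
  have hFh : ∀ n t, A.HolAt (F n) t := fun n t => bro_hol (hf _)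
  have hFG : ∀ n t, broN A φ (F n) t = r n * broN A φ f (a n + (r n : ℂ) * t) := fun n t =>
    broN_affine hφ (hr0 n).le (hf _)
  have hF0 : ∀ n, broN A φ (F n) 0 = 1 := by
    intro n
    rw [hFG, mul_zero, add_zero, hr]
    exact inv_mul_cancel₀ (ha n).ne'
  have hFle : ∀ (n : ℕ) (t : ℂ), ‖t‖ < (n : ℝ) + 1 → broN A φ (F n) t ≤ 2 := by
    intro n t ht
    rw [hFG]
    have h1 : broN A φ f (a n + (r n : ℂ) * t) ≤ 2 * broN A φ f (a n) := by
      refine hmax n _ ?_
      rw [add_sub_cancel_left, norm_mul, Complex.norm_real, Real.norm_of_nonneg (hr0 n).le,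
        div_eq_inv_mul]
      exact mul_lt_mul_of_pos_left ht (hr0 n)
    calc r n * broN A φ f (a n + (r n : ℂ) * t) ≤ r n * (2 * broN A φ f (a n)) :=
          mul_le_mul_of_nonneg_left h1 (hr0 n).le
      _ = 2 * (r n * broN A φ f (a n)) := by ring
      _ = 2 := by
          rw [hr]
          simp only
          rw [inv_mul_cancel₀ (ha n).ne', mul_one]
  let U : Ultrafilter ℕ := Ultrafilter.of atTop
  have hU : (U : Filter ℕ) ≤ atTop := Ultrafilter.of_le _
  obtain ⟨g, hg⟩ := ultra_lim A U F 2 (by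
    intro R
    have h1 : ∀ᶠ n : ℕ in atTop, R ≤ n := by
      obtain ⟨N, hN⟩ := exists_nat_ge R
      filter_upwards [eventually_ge_atTop N] with n hn
      exact hN.trans (by exact_mod_cast hn)
    filter_upwards [hU h1] with n hn t ht
    refine ⟨hFh n t, fun i hi => ?_⟩
    refine (broN_le hφ (F n) t i hi).trans (hFle n t ?_)
    have ht' : ‖t‖ < R := by simpa using ht
    have hn' : R ≤ (n : ℝ) := hn
    linarith)
  have hlim : ∀ t, Tendsto (fun n => broN A φ (F n) t) U (𝓝 (broN A φ g t)) := by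
    intro t
    exact broN_tendsto hφ (U : Filter ℕ) F (fun _ => t) g t (hg t).2.1 (hg t).2.2
  have hg0 : broN A φ g 0 = 1 := by
    have h1 := hlim 0
    simp only [hF0] at h1
    exact (tendsto_nhds_unique h1 tendsto_const_nhds)
  have hg2 : ∀ t, broN A φ g t ≤ 2 := by
    intro t
    refine le_of_tendsto (hlim t) ?_
    have h1 : ∀ᶠ n : ℕ in atTop, ‖t‖ < (n : ℝ) + 1 := by
      obtain ⟨N, hN⟩ := exists_nat_ge ‖t‖
      filter_upwards [eventually_ge_atTop N] with n hn
      have h2 : (N : ℝ) ≤ n := by exact_mod_cast hn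
      linarith
    filter_upwards [hU h1] with n hn
    exact hFle n t hn
  refine ⟨g, fun t => (hg t).1, ⟨2, fun t i hi => (broN_le hφ g t i hi).trans (hg2 t)⟩, ?_⟩
  by_contra hno
  push Not at hno
  have h1 : broN A φ g 0 = 0 := by
    unfold broN
    refine Finset.sum_eq_zero fun i _ => ?_
    have h2 : A.loc i g = fun _ => A.ch i (g 0) := by
      funext t
      rw [Cha.loc, hno t 0]
    rw [h2, deriv_const, norm_zero, mul_zero]
  rw [hg0] at h1
  exact one_ne_zero h1

end Pool.Agent.BR
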