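import Pool.Agent.Lib_helper82.BR.Mt

/-! # BR, block HOL: holomorphic maps in charts (MP_45e720_ag) -/

set_option autoImplicit false
set_option linter.unusedSectionVars false

open Filter Topology Metric Set
open scoped Manifold ContDiff

namespace Pool.Agent.BR

section manifold

variable {E X : Type} [NormedAddCommGroup E] [NormedSpace ℂ E] [FiniteDimensional ℂ E]
  [MetricSpace X] [CompactSpace X] [ChartedSpace E X] [IsManifold 𝓘(ℂ, E) ω X]

/-- HOL: holomorphic maps -/
theorem holAt_iff (A : Cha E X) (hA : ∀ i, ∃ y, A.ch i = chartAt E y) (f : ℂ → X) :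
    MDifferentiable 𝓘(ℂ, ℂ) 𝓘(ℂ, E) f ↔ ∀ t, A.HolAt f t := by
  have : IsManifold 𝓘(ℂ, E) 1 X := IsManifold.of_le (n := ω) le_top
  have : CompleteSpace E := FiniteDimensional.complete ℂ E
  constructor
  · intro h t
    refine ⟨(h t).continuousAt, fun i hi => ?_⟩
    obtain ⟨y, hy⟩ := hA i
    have hfc : Continuous f := h.continuous
    have hU : IsOpen (f ⁻¹' (A.ch i).source) := (A.ch i).open_source.preimage hfc
    have hd : DifferentiableOn ℂ (A.loc i f) (f ⁻¹' (A.ch i).source) := by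
      intro s hs
      have hs' : f s ∈ (chartAt E y).source := by rw [← hy]; exact hs
      have h1 : MDifferentiableAt 𝓘(ℂ, E) 𝓘(ℂ, E) (chartAt E y) (f s) :=
        mdifferentiableAt_atlas (I := 𝓘(ℂ, E)) (chart_mem_atlas E y) hs'
      have h2 : MDifferentiableAt 𝓘(ℂ, ℂ) 𝓘(ℂ, E) (chartAt E y ∘ f) s := h1.comp s (h s)
      rw [mdifferentiableAt_iff_differentiableAt] at h2
      have h3 : A.loc i f = chartAt E y ∘ f := by
        funext r
        rw [Cha.loc, hy]
        rfl
      rw [h3]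
      exact h2.differentiableWithinAt
    exact hd.analyticAt (hU.mem_nhds hi)
  · intro h t
    obtain ⟨i, hi⟩ := A.cover (f t)
    have hsrc : f t ∈ (A.ch i).source := A.W_sub i (subset_closure hi)
    obtain ⟨y, hy⟩ := hA i
    have h1 : MDifferentiableAt 𝓘(ℂ, ℂ) 𝓘(ℂ, E) (A.loc i f) t :=
      (((h t).2 i hsrc).differentiableAt).mdifferentiableAt
    have h2 : MDifferentiableAt 𝓘(ℂ, E) 𝓘(ℂ, E) (chartAt E y).symm (A.loc i f t) := by
      refine mdifferentiableAt_atlas_symm (I := 𝓘(ℂ, E)) (chart_mem_atlas E y) ?_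
      rw [← hy]
      exact (A.ch i).map_source hsrc
    have h3 : MDifferentiableAt 𝓘(ℂ, ℂ) 𝓘(ℂ, E) ((chartAt E y).symm ∘ A.loc i f) t :=
      h2.comp t h1
    refine h3.congr_of_eventuallyEq ?_
    have h4 : ∀ᶠ s in 𝓝 t, f s ∈ (A.ch i).source :=
      (h t).1.eventually ((A.ch i).open_source.mem_nhds hsrc)
    filter_upwards [h4] with s hs
    rw [← hy]
    exact ((A.ch i).left_inv hs).symm

end manifold

end Pool.Agent.BR
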