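import Pool.Agent.Lib_helper82.BR.Mt
import Pool.Agent.Lib_helper82.BR.B.HOL

-- NEEDS: HOL
/-! Block CPV (MP_45e720_ag), by helper14. -/

set_option autoImplicit false
set_option linter.unusedSectionVars false

open Filter Topology Metric Set
open scoped Manifold ContDiff

namespace Pool.Agent.BR

variable {E X : Type} [NormedAddCommGroup E] [NormedSpace ℂ E] [FiniteDimensional ℂ E]
  [MetricSpace X] [CompactSpace X] [ChartedSpace E X] [IsManifold 𝓘(ℂ, E) ω X]

/-- the fibre coordinate of the velocity in the trivialization over a chart -/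
theorem cpv_coord (f : ℂ → X) (hf : MDifferentiable 𝓘(ℂ, ℂ) 𝓘(ℂ, E) f) (y : X) (z : ℂ)
    (hz : f z ∈ (chartAt E y).source) :
    trivializationAt E (TangentSpace 𝓘(ℂ, E)) y (velocity (E := E) f z) =
      (f z, deriv (fun w => chartAt E y (f w)) z) := by
  have : IsManifold 𝓘(ℂ, E) 1 X := IsManifold.of_le (n := ω) le_top
  have hb : f z ∈ (trivializationAt E (TangentSpace 𝓘(ℂ, E)) y).baseSet := hz
  have h1 := TangentBundle.continuousLinearMapAt_trivializationAt (I := 𝓘(ℂ, E)) hz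
  have h2 : mfderiv 𝓘(ℂ, ℂ) 𝓘(ℂ, E) (extChartAt 𝓘(ℂ, E) y ∘ f) z =
      (mfderiv 𝓘(ℂ, E) 𝓘(ℂ, E) (extChartAt 𝓘(ℂ, E) y) (f z)).comp
        (mfderiv 𝓘(ℂ, ℂ) 𝓘(ℂ, E) f z) :=
    mfderiv_comp z (mdifferentiableAt_extChartAt hz) (hf z)
  have h3 : deriv (fun w => chartAt E y (f w)) z =
      mfderiv 𝓘(ℂ, ℂ) 𝓘(ℂ, E) (extChartAt 𝓘(ℂ, E) y ∘ f) z (1 : ℂ) := by
    rw [mfderiv_eq_fderiv]
    rfl
  have h4 := (trivializationAt E (TangentSpace 𝓘(ℂ, E)) y).continuousLinearMapAt_apply_of_mem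
    ℂ hb (mfderiv 𝓘(ℂ, ℂ) 𝓘(ℂ, E) f z (1 : ℂ))
  refine Prod.ext ((trivializationAt E (TangentSpace 𝓘(ℂ, E)) y).coe_fst' hb) ?_
  rw [h3, h2]
  rw [h1] at h4
  exact h4.symm

/-- CPV: a map with bounded derivative in the charts is a Brody curve -/
theorem brody_of_bound (A : Cha E X) (hA : ∀ i, ∃ y, A.ch i = chartAt E y) (f : ℂ → X)
    (hf : ∀ t, A.HolAt f t) (C : ℝ) (hC : ∀ z i, f z ∈ A.W i → ‖deriv (A.loc i f) z‖ ≤ C) :
    IsBrodyCurve (E := E) f := by
  have hm : MDifferentiable 𝓘(ℂ, ℂ) 𝓘(ℂ, E) f := (holAt_iff A hA f).2 hf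
  have hF : Finite A.ι := A.fin
  choose y hy using hA
  let e : A.ι → Bundle.Trivialization E
      (Bundle.TotalSpace.proj : TangentBundle 𝓘(ℂ, E) X → X) := fun i =>
    trivializationAt E (TangentSpace 𝓘(ℂ, E)) (y i)
  refine ⟨hm, ⋃ i, (e i).toOpenPartialHomeomorph.symm '' (closure (A.W i) ×ˢ closedBall 0 C),
    isCompact_iUnion fun i => ?_, fun z => ?_⟩
  · refine IsCompact.image_of_continuousOn
      (isClosed_closure.isCompact.prod (isCompact_closedBall (0 : E) C)) ?_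
    refine (e i).toOpenPartialHomeomorph.continuousOn_symm.mono ?_
    intro p hp
    have h1 : p.1 ∈ (A.ch i).source := A.W_sub i hp.1
    rw [hy i] at h1
    exact ((e i).mem_target).2 h1
  · obtain ⟨i, hi⟩ := A.cover (f z)
    refine mem_iUnion.2 ⟨i, (f z, deriv (A.loc i f) z),
      ⟨subset_closure hi, mem_closedBall_zero_iff.2 (hC z i hi)⟩, ?_⟩
    have h1 : f z ∈ (A.ch i).source := A.W_sub i (subset_closure hi)
    have h2 : f z ∈ (chartAt E (y i)).source := by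
      rw [← hy i]
      exact h1
    have h3 : A.loc i f = fun w => chartAt E (y i) (f w) := by
      funext w
      rw [Cha.loc, hy i]
    have h4 := cpv_coord f hm (y i) z h2
    rw [h3, ← h4]
    exact (e i).toOpenPartialHomeomorph.left_inv (((e i).mem_source).2 h2)

end Pool.Agent.BR
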