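import Pool.Agent.Lib_helper82.BR.Mt

/-! Block MCH (MP_45e720_ag). -/

set_option autoImplicit false
set_option linter.unusedSectionVars false

open Filter Topology Metric Set
open scoped Manifold ContDiff

namespace Pool.Agent.BR

section charts

variable {E X : Type} [NormedAddCommGroup E] [NormedSpace ℂ E] [FiniteDimensional ℂ E]
  [MetricSpace X] [CompactSpace X] (A : Cha E X)

/-- a property monotone in the radius holds for all indices with one radius -/
theorem mch_all {ι : Type} [Finite ι] (P : ι → ℝ → Prop)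
    (h : ∀ i, ∃ d > 0, ∀ e > 0, e ≤ d → P i e) : ∃ d > 0, ∀ i, P i d := by
  have h1 : ∀ i, ∀ᶠ e in 𝓝[>] (0 : ℝ), P i e := by
    intro i
    obtain ⟨d, hd, hP⟩ := h i
    filter_upwards [Ioc_mem_nhdsGT hd] with e he
    exact hP e he.1 he.2
  have h2 : ∀ᶠ e in 𝓝[>] (0 : ℝ), ∀ i, P i e := eventually_all.2 h1
  have h3 : ∀ᶠ e in 𝓝[>] (0 : ℝ), 0 < e := self_mem_nhdsWithin
  obtain ⟨e, he1, he2⟩ := (h2.and h3).exists
  exact ⟨e, he2, he1⟩

theorem near_chart (ε : ℝ) (hε : 0 < ε) : ∃ δ > 0, ∀ i, ∀ x ∈ closure (A.W i), ∀ y,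
    dist x y < δ → y ∈ (A.ch i).source ∧ ‖A.ch i y - A.ch i x‖ < ε := by
  have hfin : Finite A.ι := A.fin
  refine mch_all (fun i δ => ∀ x ∈ closure (A.W i), ∀ y,
    dist x y < δ → y ∈ (A.ch i).source ∧ ‖A.ch i y - A.ch i x‖ < ε) fun i => ?_
  have hK : IsCompact (closure (A.W i)) := isClosed_closure.isCompact
  obtain ⟨d1, hd1, hd1'⟩ := hK.exists_thickening_subset_open (A.ch i).open_source (A.W_sub i)
  have h1 := hK.uniformContinuousAt_of_continuousAt (A.ch i)
    (fun a ha => (A.ch i).continuousAt (A.W_sub i ha)) (Metric.dist_mem_uniformity hε)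
  obtain ⟨d2, hd2, hd2'⟩ := Metric.mem_uniformity_dist.1 h1
  refine ⟨min d1 d2, lt_min hd1 hd2, fun e he hle x hx y hxy => ⟨?_, ?_⟩⟩
  · apply hd1'
    rw [Metric.mem_thickening_iff]
    refine ⟨x, hx, ?_⟩
    rw [dist_comm]
    exact hxy.trans_le (hle.trans (min_le_left _ _))
  · have h2 := hd2' (hxy.trans_le (hle.trans (min_le_right _ _))) hx
    rw [← dist_eq_norm, dist_comm]
    exact h2

theorem near_metric (δ : ℝ) (hδ : 0 < δ) : ∃ ε > 0, ∀ i, ∀ x ∈ closure (A.W i), 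
    ∀ y ∈ closure (A.W i), ‖A.ch i y - A.ch i x‖ < ε → dist x y < δ := by
  have hfin : Finite A.ι := A.fin
  refine mch_all (fun i ε => ∀ x ∈ closure (A.W i), 
    ∀ y ∈ closure (A.W i), ‖A.ch i y - A.ch i x‖ < ε → dist x y < δ) fun i => ?_
  have hK : IsCompact (closure (A.W i)) := isClosed_closure.isCompact
  have hL : IsCompact (A.ch i '' closure (A.W i)) :=
    hK.image_of_continuousOn ((A.ch i).continuousOn.mono (A.W_sub i))
  have h1 := hL.uniformContinuousAt_of_continuousAt (A.ch i).symm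
    (fun a ha => by
      obtain ⟨x, hx, rfl⟩ := ha
      exact (A.ch i).symm.continuousAt ((A.ch i).map_source (A.W_sub i hx)))
    (Metric.dist_mem_uniformity hδ)
  obtain ⟨d2, hd2, hd2'⟩ := Metric.mem_uniformity_dist.1 h1
  refine ⟨d2, hd2, fun e he hle x hx y hy hxy => ?_⟩
  have h3 : dist (A.ch i x) (A.ch i y) < d2 := by
    rw [dist_comm, dist_eq_norm]
    exact hxy.trans_le hle
  have h2 := hd2' h3 ⟨x, hx, rfl⟩
  have h4 : dist ((A.ch i).symm (A.ch i x)) ((A.ch i).symm (A.ch i y)) < δ := h2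
  rwa [(A.ch i).left_inv (A.W_sub i hx), (A.ch i).left_inv (A.W_sub i hy)] at h4

end charts

end Pool.Agent.BR
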