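import Pool.Agent.Lib_helper82.BR.Mt
import Pool.Agent.Lib_helper82.BR.B.EQC

/-! Rigidity of immersed Brody curves, block UNI: uniform constants (cites `equicont`). -/

set_option autoImplicit false
set_option linter.unusedSectionVars false

open Filter Topology Metric Set
open scoped Manifold ContDiff

namespace Pool.Agent.BR

section uni

variable {E X : Type} [NormedAddCommGroup E] [NormedSpace ℂ E] [FiniteDimensional ℂ E]
  [MetricSpace X] [CompactSpace X] (A : Cha E X)

/-- UNI: uniform constants -/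
theorem exists_uni (c C : ℝ) (hc : 0 < c) (hC : 0 < C) :
    ∃ lam C₂ rb : ℝ, 0 < rb ∧ ∀ r₀ : ℝ, 0 < r₀ → r₀ ≤ rb → A.Uni c C lam r₀ C₂ := by
  have hcomplete : CompleteSpace E := FiniteDimensional.complete ℂ E
  obtain ⟨lam, hlam, hleb⟩ := lebesgue_number_lemma_of_metric (s := (univ : Set X))
    isCompact_univ A.W_open (fun x _ => by
      obtain ⟨i, hi⟩ := A.cover x
      exact mem_iUnion.2 ⟨i, hi⟩)
  obtain ⟨δ, hδ, heq⟩ := equicont A C (lam / 4) (by positivity)
  refine ⟨lam, C / (δ / 4), δ / 4, by positivity, ?_⟩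
  intro r₀ hr₀ hr
  have hstay : ∀ g ∈ A.KK c C, ∀ z z' : ℂ, ‖z - z'‖ < 2 * (δ / 4) →
      dist (g z) (g z') < lam / 4 := by
    intro g hg z z' h
    exact heq g hg.1 (fun z i hi => (hg.2 z i hi).2) z z' (h.trans (by linarith))
  refine ⟨hc, hC, hlam, hr₀, fun x => hleb x (mem_univ x), ?_, ?_⟩
  · intro g hg z z' h
    exact hstay g hg z z' (h.trans_le (by linarith))
  · intro g hg i z₀ hball
    have hW : ∀ w : ℂ, ‖w - z₀‖ < 2 * (δ / 4) → g w ∈ A.W i := by
      intro w hw
      apply hball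
      rw [mem_ball]
      exact (hstay g hg w z₀ hw).trans (by linarith)
    have hsrc : ∀ w : ℂ, ‖w - z₀‖ < 2 * (δ / 4) → AnalyticAt ℂ (A.loc i g) w := by
      intro w hw
      exact (hg.1 w).2 i (A.W_sub i (subset_closure (hW w hw)))
    have hin : ∀ z ∈ ball z₀ r₀, ‖z - z₀‖ < 2 * (δ / 4) := by
      intro z hz
      rw [mem_ball_iff_norm] at hz
      linarith
    refine ⟨fun z hz => hsrc z (hin z hz), fun z hz => (hg.2 z i (hW z (hin z hz))).1,
      fun z hz => (hg.2 z i (hW z (hin z hz))).2, ?_⟩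
    intro z hz
    have hz' : ‖z - z₀‖ < δ / 4 := by
      rw [mem_ball_iff_norm] at hz
      linarith
    have hcl : ∀ w ∈ closedBall z (δ / 4), ‖w - z₀‖ < 2 * (δ / 4) := by
      intro w hw
      rw [mem_closedBall_iff_norm] at hw
      calc ‖w - z₀‖ = ‖(w - z) + (z - z₀)‖ := by congr 1; ring
        _ ≤ ‖w - z‖ + ‖z - z₀‖ := norm_add_le _ _
        _ < 2 * (δ / 4) := by linarith
    apply Complex.norm_deriv_le_of_forall_mem_sphere_norm_le (by positivity)
    · apply DifferentiableOn.diffContOnCl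
      intro w hw
      have hw' : w ∈ closedBall z (δ / 4) := closure_ball_subset_closedBall hw
      exact (hsrc w (hcl w hw')).deriv.differentiableAt.differentiableWithinAt
    · intro w hw
      exact (hg.2 w i (hW w (hcl w (sphere_subset_closedBall hw)))).2

end uni

end Pool.Agent.BR
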