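import Pool.Agent.Lib_helper82.BR.Mt
import Pool.Agent.Lib_helper82.BR.B.EQC
import Pool.Agent.Lib_helper82.BR.B.LIM
import Pool.Agent.Lib_helper82.BR.B.MCH
import Pool.Agent.Lib_helper82.BR.B.UNI

/-! Block DYN (MP_45e720_ag). -/

set_option autoImplicit false
set_option linter.unusedSectionVars false

open Filter Topology Metric Set
open scoped Manifold ContDiff

namespace Pool.Agent.BR

/-- a holomorphic curve with large derivative and bounded acceleration is locally injective -/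
theorem dyn_lower {E : Type} [NormedAddCommGroup E] [NormedSpace ℂ E] [CompleteSpace E]
    {c C C₂ r₀ : ℝ}
    (hr : r₀ * (|C₂| + 1) ≤ c / 2) {G : ℂ → E} {w : ℂ}
    (hG : GC c C C₂ G w r₀) {w' : ℂ} (hw : ‖w' - w‖ < r₀) :
    c / 2 * ‖w' - w‖ ≤ ‖G w' - G w‖ := by
  have hr0 : 0 < r₀ := (norm_nonneg _).trans_lt hw
  have hd : ∀ z ∈ ball w r₀, DifferentiableAt ℂ G z := fun z hz => (hG.an z hz).differentiableAt
  have hd2 : ∀ z ∈ ball w r₀, DifferentiableAt ℂ (deriv G) z :=
    fun z hz => (hG.an z hz).deriv.differentiableAt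
  have hw0 : w ∈ ball w r₀ := mem_ball_self hr0
  -- the derivative is nearly constant
  have h1 : ∀ z ∈ ball w r₀, ‖deriv G z - deriv G w‖ ≤ c / 2 := by
    intro z hz
    have h2 := (convex_ball w r₀).norm_image_sub_le_of_norm_deriv_le (f := deriv G) (C := |C₂|)
      (fun x hx => hd2 x hx) (fun x hx => (hG.acc x hx).trans (le_abs_self _)) hw0 hz
    refine h2.trans ?_
    have h3 : ‖z - w‖ ≤ r₀ := by
      rw [← dist_eq_norm]
      exact (mem_ball.1 hz).le
    have h4 : |C₂| * ‖z - w‖ ≤ |C₂| * r₀ := mul_le_mul_of_nonneg_left h3 (abs_nonneg _)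
    nlinarith [abs_nonneg C₂]
  have h5 : ‖(G w' - w' • deriv G w) - (G w - w • deriv G w)‖ ≤ c / 2 * ‖w' - w‖ := by
    refine (convex_ball w r₀).norm_image_sub_le_of_norm_deriv_le
      (f := fun z => G z - z • deriv G w) (fun x hx => ?_) (fun x hx => ?_) hw0 ?_
    · exact (hd x hx).sub (differentiableAt_id.smul_const _)
    · have h6 : deriv (fun z => G z - z • deriv G w) x = deriv G x - deriv G w := by
        have h7 : HasDerivAt (fun z : ℂ => z • deriv G w) ((1 : ℂ) • deriv G w) x :=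
          (hasDerivAt_id x).smul_const _
        have h8 : HasDerivAt (fun z => G z - z • deriv G w) (deriv G x - (1 : ℂ) • deriv G w) x :=
          (hd x hx).hasDerivAt.sub h7
        rw [h8.deriv, one_smul]
      rw [h6]
      exact h1 x hx
    · rw [mem_ball, dist_eq_norm]
      exact hw
  have h8 : (w' - w) • deriv G w = (G w' - G w) -
      ((G w' - w' • deriv G w) - (G w - w • deriv G w)) := by
    rw [sub_smul]
    abel
  have h9 : ‖w' - w‖ * c ≤ ‖(w' - w) • deriv G w‖ := by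
    rw [norm_smul]
    exact mul_le_mul_of_nonneg_left (hG.lo w hw0) (norm_nonneg _)
  have h10 : ‖(w' - w) • deriv G w‖ ≤ ‖G w' - G w‖ + c / 2 * ‖w' - w‖ := by
    rw [h8]
    exact (norm_sub_le _ _).trans (add_le_add le_rfl h5)
  nlinarith

section charts

variable {E X : Type} [NormedAddCommGroup E] [NormedSpace ℂ E] [FiniteDimensional ℂ E]
  [MetricSpace X] [CompactSpace X] (A : Cha E X)

theorem dyn_tr {c C : ℝ} {g : ℂ → X} (hg : g ∈ A.KK c C) (w : ℂ) :
    (fun z => g (z + w)) ∈ A.KK c C := by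
  have e : ∀ i, A.loc i (fun z => g (z + w)) = fun z => A.loc i g (z + w) := fun i => rfl
  refine ⟨fun z => ⟨?_, fun i hi => ?_⟩, fun z i hi => ?_⟩
  · have h1 : ContinuousAt g (z + w) := (hg.1 (z + w)).1
    exact h1.comp (f := fun z => z + w) (by fun_prop)
  · rw [e]
    have h1 : AnalyticAt ℂ (A.loc i g) (z + w) := (hg.1 (z + w)).2 i hi
    exact h1.fun_comp (f := fun z : ℂ => z + w) (x := z) (by fun_prop)
  · rw [e, deriv_comp_add_const]
    exact hg.2 (z + w) i hi

theorem kk_dyn (c C : ℝ) (hc : 0 < c) (hC : 0 < C) :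
    ∃ r₁ > 0, ∀ r₁' > 0, r₁' ≤ r₁ → Dyn (A.KK c C) r₁' := by
  have hcs : CompleteSpace E := FiniteDimensional.complete ℂ E
  obtain ⟨lam, C₂, rb, hrb, hU⟩ := exists_uni A c C hc hC
  set r₀ : ℝ := min rb (c / 2 / (|C₂| + 1)) with hr₀
  have hC2 : 0 < |C₂| + 1 := by positivity
  have hr₀0 : 0 < r₀ := lt_min hrb (by positivity)
  have hr₀1 : r₀ * (|C₂| + 1) ≤ c / 2 := by
    rw [← le_div_iff₀ hC2]
    exact min_le_right _ _
  have U := hU r₀ hr₀0 (min_le_left _ _)
  refine ⟨r₀ / 2, by positivity, fun r₁' hr₁' hle => ⟨hr₁', fun g hg w => dyn_tr A hg w, ?_, ?_, ?_⟩⟩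
  · intro 𝒰 g hg
    obtain ⟨g', hg'⟩ := ultra_lim A 𝒰 g C (fun R => Filter.Eventually.of_forall fun n t _ =>
      ⟨(hg n).1 t, fun i hi => ((hg n).2 t i hi).2⟩)
    refine ⟨g', ⟨fun z => (hg' z).1, fun z i hi => ?_⟩, fun z => (hg' z).2.1⟩
    have h1 : ∀ᶠ n in (𝒰 : Filter ℕ), g n z ∈ A.W i :=
      (hg' z).2.1.eventually ((A.W_open i).mem_nhds hi)
    have h2 := (hg' z).2.2 i (A.W_sub i (subset_closure hi))
    constructor
    · exact ge_of_tendsto h2.norm (h1.mono fun n hn => ((hg n).2 z i hn).1)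
    · exact le_of_tendsto h2.norm (h1.mono fun n hn => ((hg n).2 z i hn).2)
  · intro ε hε
    obtain ⟨δ, hδ, h⟩ := equicont A C ε hε
    exact ⟨δ, hδ, fun g hg => h g hg.1 fun z i hi => (hg.2 z i hi).2⟩
  · intro η hη
    obtain ⟨ε, hε, h⟩ := near_chart A (c / 2 * η) (by positivity)
    refine ⟨ε, hε, fun g hg w w' hww hd => ?_⟩
    obtain ⟨i, hi⟩ := U.leb (g w)
    have hi2 : ball (g w) (lam / 2) ⊆ A.W i :=
      (ball_subset_ball (by linarith [U.lam_pos])).trans hi
    have hG := U.gc g hg i w hi2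
    have hW : g w ∈ A.W i := hi (mem_ball_self U.lam_pos)
    have h1 := (h i (g w) (subset_closure hW) (g w') hd).2
    have hn : ‖w' - w‖ < r₀ := by
      rw [norm_sub_rev]
      linarith
    have h2 := dyn_lower hr₀1 hG hn
    have h3 : c / 2 * ‖w' - w‖ < c / 2 * η := h2.trans_lt h1
    rw [norm_sub_rev]
    exact lt_of_mul_lt_mul_left h3 (by positivity)

end charts

end Pool.Agent.BR
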