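import Pool.Agent.Lib_helper82.BR.Mt
import Pool.Agent.Lib_helper64.SS.B.OSG
import Pool.Agent.Lib_helper64.SS.B.IN2

/-! FRM: the forms in the charts (MP_45e720_ag). -/

set_option autoImplicit false
set_option linter.unusedSectionVars false

open Filter Topology Metric Set Bundle
open scoped Manifold ContDiff Bundle

namespace Pool.Agent.BR

section manifold

variable {E X : Type} [NormedAddCommGroup E] [NormedSpace ℂ E] [FiniteDimensional ℂ E]
  [TopologicalSpace X] [ChartedSpace E X] [IsManifold 𝓘(ℂ, E) ω X]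

/-- the chart of the bundle of pairs over the chart at `y` -/
noncomputable def frm_chart (y : X) : OpenPartialHomeomorph (TangentPairs E X) (ModelProd E (E × E)) :=
  chartAt (ModelProd E (E × E)) (⟨y, ((0 : E), (0 : E))⟩ : TangentPairs E X)

theorem frm_at (p : TangentPairs E X) :
    chartAt (ModelProd E (E × E)) p = frm_chart p.proj := by
  unfold frm_chart
  rw [FiberBundle.chartedSpace_chartAt, FiberBundle.chartedSpace_chartAt]

theorem frm_target (y : X) (q : ModelProd E (E × E)) :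
    q ∈ (frm_chart (E := E) y).target ↔ q.1 ∈ (chartAt E y).target := by
  unfold frm_chart
  rw [FiberBundle.chartedSpace_chartAt, OpenPartialHomeomorph.trans_target]
  constructor
  · exact fun h => h.1.1
  · intro h
    have h1 := (chartAt E y).map_target h
    rw [← TangentBundle.trivializationAt_baseSet (I := 𝓘(ℂ, E))] at h1
    exact ⟨⟨h, mem_univ _⟩, ⟨h1, h1⟩, mem_univ _⟩

theorem frm_source (y : X) (p : TangentPairs E X) :
    p ∈ (frm_chart (E := E) y).source ↔ p.proj ∈ (chartAt E y).source := by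
  unfold frm_chart
  rw [FiberBundle.chartedSpace_chartAt, OpenPartialHomeomorph.trans_source]
  constructor
  · exact fun h => h.2.1
  · intro h
    have h1 := h
    rw [← TangentBundle.trivializationAt_baseSet (I := 𝓘(ℂ, E))] at h1
    exact ⟨⟨h1, h1⟩, ⟨h, mem_univ _⟩⟩

theorem frm_triv (y : X) {x : X} (hx : x ∈ (chartAt E y).source) (u : E) :
    (trivializationAt E (TangentSpace 𝓘(ℂ, E)) y).symm x u = tangentCoordChange 𝓘(ℂ, E) y x x u := by
  have hb : x ∈ (trivializationAt E (TangentSpace 𝓘(ℂ, E)) y).baseSet := by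
    rwa [TangentBundle.trivializationAt_baseSet]
  rw [← Trivialization.symmL_apply (R := ℂ) _ hb]
  have h := TangentBundle.symmL_trivializationAt_eq_core (I := 𝓘(ℂ, E)) (𝕜 := ℂ) hx
  have h2 := congrArg (fun L => L u) h
  exact h2

theorem frm_symm (y : X) {ξ : E} (hξ : ξ ∈ (chartAt E y).target) (u v : E) :
    (frm_chart (E := E) y).symm (ξ, (u, v)) =
      (⟨(chartAt E y).symm ξ, (tangentCoordChange 𝓘(ℂ, E) y ((chartAt E y).symm ξ)
        ((chartAt E y).symm ξ) u, tangentCoordChange 𝓘(ℂ, E) y ((chartAt E y).symm ξ)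
        ((chartAt E y).symm ξ) v)⟩ : TangentPairs E X) := by
  have h1 := (chartAt E y).map_target hξ
  rw [← frm_triv y h1, ← frm_triv y h1]
  unfold frm_chart
  rw [FiberBundle.chartedSpace_chartAt]
  rfl

theorem frm_apply (y x : X) (u v : E) :
    frm_chart (E := E) y (⟨x, (u, v)⟩ : TangentPairs E X) =
      (chartAt E y x, (tangentCoordChange 𝓘(ℂ, E) x y x u, tangentCoordChange 𝓘(ℂ, E) x y x v)) := by
  unfold frm_chart
  rw [FiberBundle.chartedSpace_chartAt]
  rfl

theorem frm_conv {F : Type} [NormedAddCommGroup F] [NormedSpace ℂ F] {f : ModelProd E (E × E) → F}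
    {p : ModelProd E (E × E)}
    (h : MDifferentiableAt (𝓘(ℂ, E).prod 𝓘(ℂ, E × E)) 𝓘(ℂ, F) f p) :
    DifferentiableAt ℂ (fun q : E × (E × E) => f q) p := by
  have h1 := (mdifferentiableAt_iff _ _).1 h |>.2
  simp only [writtenInExtChartAt, extChartAt, OpenPartialHomeomorph.extend, chartAt_self_eq,
    mfld_simps] at h1
  rw [Prod.map_id, range_id, differentiableWithinAt_univ] at h1
  exact h1

theorem frm_mdiff (y : X) {q : ModelProd E (E × E)} (hq : q.1 ∈ (chartAt E y).target) :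
    MDifferentiableAt (𝓘(ℂ, E).prod 𝓘(ℂ, E × E)) (𝓘(ℂ, E).prod 𝓘(ℂ, E × E))
      (frm_chart (E := E) y).symm q :=
  mdifferentiableAt_atlas_symm (chart_mem_atlas _ _) ((frm_target y q).2 hq)

theorem frm_diff {τ : TangentPairs E X → ℂ}
    (hτ : MDifferentiable (𝓘(ℂ, E).prod 𝓘(ℂ, E × E)) 𝓘(ℂ, ℂ) τ) (y : X)
    {q : ModelProd E (E × E)} (hq : q.1 ∈ (chartAt E y).target) :
    DifferentiableAt ℂ (fun q : E × (E × E) => τ ((frm_chart (E := E) y).symm q)) q := by
  have h1 := frm_mdiff (E := E) y (q := q) hq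
  have h2 := MDifferentiableAt.comp q (hτ ((frm_chart (E := E) y).symm q)) h1
  exact frm_conv h2

theorem frm_conv' {f : ModelProd E (E × E) → ModelProd E (E × E)}
    {p : ModelProd E (E × E)}
    (h : MDifferentiableAt (𝓘(ℂ, E).prod 𝓘(ℂ, E × E)) (𝓘(ℂ, E).prod 𝓘(ℂ, E × E)) f p) :
    DifferentiableAt ℂ (E := E × (E × E)) (F := E × (E × E)) f p := by
  have h1 := (mdifferentiableAt_iff _ _).1 h |>.2
  simp only [writtenInExtChartAt, extChartAt, OpenPartialHomeomorph.extend, chartAt_self_eq,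
    mfld_simps] at h1
  rw [Prod.map_id, range_id, differentiableWithinAt_univ] at h1
  exact h1

/-- the change of charts of the bundle of pairs -/
noncomputable def frm_psi (y x : X) (q : E × (E × E)) : E × (E × E) :=
  frm_chart (E := E) x ((frm_chart (E := E) y).symm q)

theorem frm_psi_diff (y x : X) {q : ModelProd E (E × E)} (hq : q.1 ∈ (chartAt E y).target)
    (hx : (chartAt E y).symm q.1 ∈ (chartAt E x).source) :
    DifferentiableAt ℂ (frm_psi (E := E) y x) q := by
  have h1 := frm_mdiff (E := E) y (q := q) hq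
  have h2 : (frm_chart (E := E) y).symm q ∈ (frm_chart (E := E) x).source := by
    rw [frm_source]
    obtain ⟨ξ, u, v⟩ := q
    rw [frm_symm y hq]
    exact hx
  have h3 : MDifferentiableAt (𝓘(ℂ, E).prod 𝓘(ℂ, E × E)) (𝓘(ℂ, E).prod 𝓘(ℂ, E × E))
      (frm_chart (E := E) x) ((frm_chart (E := E) y).symm q) :=
    mdifferentiableAt_atlas (chart_mem_atlas _ _) h2
  exact frm_conv' (MDifferentiableAt.comp q h3 h1)

theorem frm_psi_eq (y x : X) {q : E × (E × E)} (hq : q.1 ∈ (chartAt E y).target)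
    (hx : (chartAt E y).symm q.1 ∈ (chartAt E x).source) :
    frm_psi (E := E) y x q = (chartAt E x ((chartAt E y).symm q.1),
      (tangentCoordChange 𝓘(ℂ, E) y x ((chartAt E y).symm q.1) q.2.1,
       tangentCoordChange 𝓘(ℂ, E) y x ((chartAt E y).symm q.1) q.2.2)) := by
  obtain ⟨ξ, u, v⟩ := q
  have h1 := (chartAt E y).map_target hq
  unfold frm_psi
  rw [frm_symm y hq, frm_apply]
  have h2 : ∀ w : E, tangentCoordChange 𝓘(ℂ, E) ((chartAt E y).symm ξ) x ((chartAt E y).symm ξ)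
      (tangentCoordChange 𝓘(ℂ, E) y ((chartAt E y).symm ξ) ((chartAt E y).symm ξ) w) =
      tangentCoordChange 𝓘(ℂ, E) y x ((chartAt E y).symm ξ) w := by
    intro w
    refine tangentCoordChange_comp ?_
    simp only [extChartAt_source]
    exact ⟨⟨h1, mem_chart_source E _⟩, hx⟩
  rw [h2, h2]

theorem frm_mfderiv {τ : TangentPairs E X → ℂ}
    (hτ : MDifferentiable (𝓘(ℂ, E).prod 𝓘(ℂ, E × E)) 𝓘(ℂ, ℂ) τ) (p : TangentPairs E X)
    (w : E × (E × E)) :
    (mfderiv (𝓘(ℂ, E).prod 𝓘(ℂ, E × E)) 𝓘(ℂ, ℂ) τ p w : ℂ) =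
      fderiv ℂ (fun q : E × (E × E) => τ ((frm_chart (E := E) p.proj).symm q))
        (frm_chart (E := E) p.proj p) w := by
  have h := (hτ p).mfderiv
  simp only [writtenInExtChartAt, extChartAt, OpenPartialHomeomorph.extend, frm_at, mfld_simps] at h
  rw [Prod.map_id, range_id, fderivWithin_univ] at h
  rw [h]
  rfl

/-- chain rule for the change of charts -/
theorem frm_chain {τ : TangentPairs E X → ℂ}
    (hτ : MDifferentiable (𝓘(ℂ, E).prod 𝓘(ℂ, E × E)) 𝓘(ℂ, ℂ) τ) (y : X) {q : E × (E × E)}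
    (hq : q.1 ∈ (chartAt E y).target) (w : E × (E × E)) :
    fderiv ℂ (fun q : E × (E × E) => τ ((frm_chart (E := E) y).symm q)) q w =
      (mfderiv (𝓘(ℂ, E).prod 𝓘(ℂ, E × E)) 𝓘(ℂ, ℂ) τ ((frm_chart (E := E) y).symm q)
        (fderiv ℂ (frm_psi (E := E) y ((chartAt E y).symm q.1)) q w) : ℂ) := by
  set x := (chartAt E y).symm q.1 with hx
  have hxx : (chartAt E y).symm q.1 ∈ (chartAt E x).source := mem_chart_source E _
  have hproj : ((frm_chart (E := E) y).symm q).proj = x := by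
    obtain ⟨ξ, u, v⟩ := q
    rw [frm_symm y hq]
  rw [frm_mfderiv hτ, hproj]
  have h1 : DifferentiableAt ℂ (frm_psi (E := E) y x) q := frm_psi_diff y x hq hxx
  have hsrc : (frm_chart (E := E) y).symm q ∈ (frm_chart (E := E) x).source := by
    rw [frm_source, hproj]
    exact mem_chart_source E _
  have h2 : DifferentiableAt ℂ (fun q : E × (E × E) => τ ((frm_chart (E := E) x).symm q))
      (frm_psi (E := E) y x q) := by
    refine frm_diff hτ x ?_
    rw [← frm_target]
    exact (frm_chart (E := E) x).map_source hsrc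
  have h3 := (h2.hasFDerivAt.comp q h1.hasFDerivAt).fderiv
  have h4 : (fun q : E × (E × E) => τ ((frm_chart (E := E) y).symm q)) =ᶠ[𝓝 q]
      (fun q : E × (E × E) => τ ((frm_chart (E := E) x).symm q)) ∘ frm_psi (E := E) y x := by
    have h5 : ContinuousAt (frm_chart (E := E) y).symm (q : ModelProd E (E × E)) :=
      (frm_chart (E := E) y).continuousAt_symm ((frm_target y q).2 hq)
    have h6 := h5.preimage_mem_nhds ((frm_chart (E := E) x).open_source.mem_nhds hsrc)
    filter_upwards [h6] with q' hq'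
    have h7 : (frm_chart (E := E) y).symm q' ∈ (frm_chart (E := E) x).source := hq'
    simp only [Function.comp_apply, frm_psi]
    exact (congrArg τ ((frm_chart (E := E) x).left_inv h7)).symm
  rw [h4.fderiv_eq, h3]
  rfl

theorem frm_psi_fst (y x : X) {q : E × (E × E)} (hq : q.1 ∈ (chartAt E y).target)
    (hx : (chartAt E y).symm q.1 ∈ (chartAt E x).source) (w : E × (E × E)) :
    (fderiv ℂ (frm_psi (E := E) y x) q w).1 =
      tangentCoordChange 𝓘(ℂ, E) y x ((chartAt E y).symm q.1) w.1 := by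
  have h1 := (frm_psi_diff y x hq hx).hasFDerivAt
  have h2 : HasFDerivAt (fun q : E × (E × E) => (frm_psi (E := E) y x q).1)
      ((ContinuousLinearMap.fst ℂ E (E × E)).comp (fderiv ℂ (frm_psi (E := E) y x) q)) q :=
    (ContinuousLinearMap.fst ℂ E (E × E)).hasFDerivAt.comp q h1
  have hx1 : (chartAt E y).symm q.1 ∈ (chartAt E y).source := (chartAt E y).map_target hq
  have h3 : HasFDerivAt (fun ξ => chartAt E x ((chartAt E y).symm ξ))
      (fderiv ℂ (fun ξ => chartAt E x ((chartAt E y).symm ξ)) q.1) q.1 := by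
    have h4 := (SS.in2_trans hx1 hx).differentiableAt.hasFDerivAt
    rwa [(chartAt E y).right_inv hq] at h4
  have h5 : HasFDerivAt (fun q : E × (E × E) => chartAt E x ((chartAt E y).symm q.1))
      ((fderiv ℂ (fun ξ => chartAt E x ((chartAt E y).symm ξ)) q.1).comp
        (ContinuousLinearMap.fst ℂ E (E × E))) q :=
    HasFDerivAt.comp (g := fun ξ => chartAt E x ((chartAt E y).symm ξ)) q h3
      (ContinuousLinearMap.fst ℂ E (E × E)).hasFDerivAt
  have h6 : (fun q : E × (E × E) => (frm_psi (E := E) y x q).1) =ᶠ[𝓝 q]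
      (fun q : E × (E × E) => chartAt E x ((chartAt E y).symm q.1)) := by
    have h7 : ContinuousAt (fun q : E × (E × E) => q.1) q := continuous_fst.continuousAt
    have h8 := h7.preimage_mem_nhds ((chartAt E y).open_target.mem_nhds hq)
    have h9 : ContinuousAt (fun q : E × (E × E) => (chartAt E y).symm q.1) q :=
      ContinuousAt.comp (g := (chartAt E y).symm) ((chartAt E y).continuousAt_symm hq) h7
    have h10 := h9.preimage_mem_nhds ((chartAt E x).open_source.mem_nhds hx)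
    filter_upwards [h8, h10] with q' hq' hq''
    rw [frm_psi_eq y x hq' hq'']
  have h7 := (h5.congr_of_eventuallyEq h6).unique h2
  have h8 := congrArg (fun L => L w) h7
  simp only [ContinuousLinearMap.comp_apply, ContinuousLinearMap.coe_fst'] at h8
  rw [← h8]
  have h9 := SS.in2_tcc (E := E) (y := y) (y' := x) (x := (chartAt E y).symm q.1) w.1
  rw [(chartAt E y).right_inv hq] at h9
  exact h9

theorem frm_psi_snd (y x : X) {ξ u v : E} (hq : ξ ∈ (chartAt E y).target)
    (hx : (chartAt E y).symm ξ ∈ (chartAt E x).source) (u' v' : E) :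
    fderiv ℂ (frm_psi (E := E) y x) (ξ, (u, v)) (0, (u', v')) =
      (0, (tangentCoordChange 𝓘(ℂ, E) y x ((chartAt E y).symm ξ) u',
        tangentCoordChange 𝓘(ℂ, E) y x ((chartAt E y).symm ξ) v')) := by
  have h1 := (frm_psi_diff (E := E) y x (q := (ξ, (u, v))) hq hx).hasFDerivAt
  set D := tangentCoordChange 𝓘(ℂ, E) y x ((chartAt E y).symm ξ) with hD
  have h2 : HasFDerivAt (fun p : E × E => (ξ, p)) (ContinuousLinearMap.inr ℂ E (E × E)) (u, v) :=
    hasFDerivAt_prodMk_right ξ (u, v)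
  have h3 : HasFDerivAt (fun p : E × E => frm_psi (E := E) y x (ξ, p))
      ((fderiv ℂ (frm_psi (E := E) y x) (ξ, (u, v))).comp (ContinuousLinearMap.inr ℂ E (E × E)))
      (u, v) := HasFDerivAt.comp (g := frm_psi (E := E) y x) (u, v) h1 h2
  have h4 : (fun p : E × E => frm_psi (E := E) y x (ξ, p)) =
      fun p : E × E => (chartAt E x ((chartAt E y).symm ξ), (D p.1, D p.2)) := by
    funext p
    rw [frm_psi_eq y x (q := (ξ, p)) hq hx]
  have h5 : HasFDerivAt (fun p : E × E => (chartAt E x ((chartAt E y).symm ξ), (D p.1, D p.2)))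
      ((ContinuousLinearMap.inr ℂ E (E × E)).comp (D.prodMap D)) (u, v) := by
    have h6 : HasFDerivAt (fun p : E × E => (D p.1, D p.2)) (D.prodMap D) (u, v) :=
      (D.prodMap D).hasFDerivAt
    exact (hasFDerivAt_prodMk_right (chartAt E x ((chartAt E y).symm ξ)) (D u, D v)).comp (u, v) h6
  rw [h4] at h3
  have h6 := congrArg (fun L => L (u', v')) (h3.unique h5)
  exact h6

/-- the forms in the chart at `y` -/
noncomputable def frm_T {L : ℕ} (τ : Fin L → TangentPairs E X → ℂ) (y : X) (ξ u v : E) :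
    EuclideanSpace ℂ (Fin L) :=
  WithLp.toLp 2 (fun j => τ j ((frm_chart (E := E) y).symm (ξ, (u, v))))

theorem frm_T_diff {L : ℕ} {τ : Fin L → TangentPairs E X → ℂ}
    (hτ : ∀ j, MDifferentiable (𝓘(ℂ, E).prod 𝓘(ℂ, E × E)) 𝓘(ℂ, ℂ) (τ j)) (y : X)
    {q : E × (E × E)} (hq : q.1 ∈ (chartAt E y).target) :
    DifferentiableAt ℂ (fun q : E × (E × E) => frm_T τ y q.1 q.2.1 q.2.2) q := by
  rw [differentiableAt_euclidean]
  intro j
  exact frm_diff (hτ j) y hq

theorem frm_T_an {L : ℕ} {τ : Fin L → TangentPairs E X → ℂ}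
    (hτ : ∀ j, MDifferentiable (𝓘(ℂ, E).prod 𝓘(ℂ, E × E)) 𝓘(ℂ, ℂ) (τ j)) (y : X)
    {q : E × (E × E)} (hq : q.1 ∈ (chartAt E y).target) :
    AnalyticAt ℂ (fun q : E × (E × E) => frm_T τ y q.1 q.2.1 q.2.2) q := by
  have hU : IsOpen ((chartAt E y).target ×ˢ (univ : Set (E × E))) :=
    (chartAt E y).open_target.prod isOpen_univ
  refine SS.osgood hU (fun x hx => ?_) (fun x hx v => ?_) q ⟨hq, mem_univ _⟩
  · exact (frm_T_diff hτ y hx.1).continuousAt.continuousWithinAt
  · exact SS.in1_line (frm_T_diff hτ y hx.1) v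

theorem frm_T_fderiv {L : ℕ} {τ : Fin L → TangentPairs E X → ℂ}
    (hτ : ∀ j, MDifferentiable (𝓘(ℂ, E).prod 𝓘(ℂ, E × E)) 𝓘(ℂ, ℂ) (τ j)) (y : X)
    {q : E × (E × E)} (hq : q.1 ∈ (chartAt E y).target) (w : E × (E × E)) (j : Fin L) :
    (fderiv ℂ (fun q : E × (E × E) => frm_T τ y q.1 q.2.1 q.2.2) q w) j =
      fderiv ℂ (fun q : E × (E × E) => τ j ((frm_chart (E := E) y).symm q)) q w := by
  have h1 := (frm_T_diff hτ y hq).hasFDerivAt
  have h0 : HasFDerivAt (fun q : E × (E × E) => τ j ((frm_chart (E := E) y).symm q))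
      ((EuclideanSpace.proj j : EuclideanSpace ℂ (Fin L) →L[ℂ] ℂ).comp
        (fderiv ℂ (fun q : E × (E × E) => frm_T τ y q.1 q.2.1 q.2.2) q)) q :=
    (EuclideanSpace.proj j : EuclideanSpace ℂ (Fin L) →L[ℂ] ℂ).hasFDerivAt.comp q h1
  have h2 := h0.fderiv
  have h3 := congrArg (fun L => L w) h2
  exact h3.symm

theorem frm_tcc_inj {y x z : X} (hy : z ∈ (chartAt E y).source) (hx : z ∈ (chartAt E x).source)
    {w : E} (h : tangentCoordChange 𝓘(ℂ, E) y x z w = 0) : w = 0 := by
  have h1 : tangentCoordChange 𝓘(ℂ, E) x y z (tangentCoordChange 𝓘(ℂ, E) y x z w) =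
      tangentCoordChange 𝓘(ℂ, E) y y z w := by
    refine tangentCoordChange_comp ?_
    simp only [extChartAt_source]
    exact ⟨⟨hy, hx⟩, hy⟩
  rw [h, map_zero, tangentCoordChange_self] at h1
  · exact h1.symm
  · simp only [extChartAt_source]
    exact hy

theorem frm_li {D : E →L[ℂ] E} (hD : ∀ w, D w = 0 → w = 0) {u v : E}
    (h : LinearIndependent ℂ ![u, v]) : LinearIndependent ℂ ![D u, D v] := by
  rw [LinearIndependent.pair_iff] at h ⊢
  intro s t hst
  refine h s t (hD _ ?_)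
  rw [map_add, map_smul, map_smul]
  exact hst

theorem frm_span {D : E →L[ℂ] E} (hD : ∀ w, D w = 0 → w = 0) {u v w : E}
    (h : D w ∈ Submodule.span ℂ {D u, D v}) : w ∈ Submodule.span ℂ {u, v} := by
  rw [Submodule.mem_span_pair] at h ⊢
  obtain ⟨a, b, hab⟩ := h
  refine ⟨a, b, ?_⟩
  have h1 : D (a • u + b • v - w) = 0 := by
    rw [map_sub, map_add, map_smul, map_smul, hab, sub_self]
  exact sub_eq_zero.1 (hD _ h1)

theorem frm_tform {k L : ℕ} {τ : Fin L → TangentPairs E X → ℂ}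
    (hτ : ∀ i, IsPlaneForm E X k (τ i))
    (h : ∀ (x : X) (u v : E), LinearIndependent ℂ ![u, v] →
      (∃ i, τ i ⟨x, (u, v)⟩ ≠ 0) ∧
      ∀ (ξ' u' v' : E) (m : ℂ),
        (∀ i, (mfderiv (𝓘(ℂ, E).prod 𝓘(ℂ, E × E)) 𝓘(ℂ, ℂ) (τ i) ⟨x, (u, v)⟩ (ξ', (u', v')) : ℂ) =
          m * τ i ⟨x, (u, v)⟩) →
        ξ' = 0 ∧ u' ∈ Submodule.span ℂ {u, v} ∧ v' ∈ Submodule.span ℂ {u, v}) (y : X) :
    TForm (chartAt E y).target L k (frm_T τ y) := by
  have hdif := fun j => (hτ j).hol
  refine ⟨fun ξ hξ u v => frm_T_an hdif y (q := (ξ, (u, v))) hξ, ?_, ?_, ?_⟩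
  · intro ξ hξ a b c d u v
    ext j
    simp only [frm_T, PiLp.smul_apply, smul_eq_mul]
    rw [frm_symm y hξ, frm_symm y hξ, map_add, map_add, map_smul, map_smul, map_smul, map_smul]
    exact (hτ j).equi _ a b c d _ _
  · intro ξ hξ u v huv h0
    have hs : (chartAt E y).symm ξ ∈ (chartAt E y).source := (chartAt E y).map_target hξ
    have hD : ∀ w, tangentCoordChange 𝓘(ℂ, E) y ((chartAt E y).symm ξ)
        ((chartAt E y).symm ξ) w = 0 → w = 0 :=
      fun w hw => frm_tcc_inj hs (mem_chart_source E _) hw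
    obtain ⟨j, hj⟩ := (h ((chartAt E y).symm ξ) _ _ (frm_li hD huv)).1
    refine hj ?_
    have h1 := congrArg (fun T : EuclideanSpace ℂ (Fin L) => T j) h0
    simp only [frm_T] at h1
    rw [frm_symm y hξ] at h1
    exact h1
  · intro ξ hξ u v huv ξ' u' v' m hm
    have hs : (chartAt E y).symm ξ ∈ (chartAt E y).source := (chartAt E y).map_target hξ
    have hss := mem_chart_source E ((chartAt E y).symm ξ)
    have hD : ∀ w, tangentCoordChange 𝓘(ℂ, E) y ((chartAt E y).symm ξ)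
        ((chartAt E y).symm ξ) w = 0 → w = 0 :=
      fun w hw => frm_tcc_inj hs hss hw
    have h1 := (h ((chartAt E y).symm ξ) _ _ (frm_li hD huv)).2
    have h2 := frm_psi_fst (E := E) y ((chartAt E y).symm ξ) (q := (ξ, (u, v))) hξ hss
      (ξ', (u', v'))
    have h3 : ∀ j, (mfderiv (𝓘(ℂ, E).prod 𝓘(ℂ, E × E)) 𝓘(ℂ, ℂ) (τ j)
        ((frm_chart (E := E) y).symm (ξ, (u, v)))
        (fderiv ℂ (frm_psi (E := E) y ((chartAt E y).symm ξ)) (ξ, (u, v)) (ξ', (u', v'))) : ℂ) =
          m * τ j ((frm_chart (E := E) y).symm (ξ, (u, v))) := by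
      intro j
      rw [← frm_chain (hdif j) y (q := (ξ, (u, v))) hξ, ← frm_T_fderiv hdif y hξ, hm]
      rfl
    rw [frm_symm y hξ] at h3
    obtain ⟨h4, h5, h6⟩ := h1 (fderiv ℂ (frm_psi (E := E) y ((chartAt E y).symm ξ)) (ξ, (u, v))
        (ξ', (u', v'))).1
      (fderiv ℂ (frm_psi (E := E) y ((chartAt E y).symm ξ)) (ξ, (u, v)) (ξ', (u', v'))).2.1
      (fderiv ℂ (frm_psi (E := E) y ((chartAt E y).symm ξ)) (ξ, (u, v)) (ξ', (u', v'))).2.2 m h3
    have h7 : ξ' = 0 := hD _ (h2.symm.trans h4)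
    subst h7
    rw [frm_psi_snd (E := E) y ((chartAt E y).symm ξ) hξ hss] at h5 h6
    exact ⟨rfl, frm_span hD h5, frm_span hD h6⟩

theorem frm_compat {L : ℕ} (τ : Fin L → TangentPairs E X → ℂ) (y y' x : X)
    (hx : x ∈ (chartAt E y).source) (hx' : x ∈ (chartAt E y').source) (u v : E) :
    frm_T τ y (chartAt E y x) u v = frm_T τ y' (chartAt E y' x)
      (fderiv ℂ (fun ξ => chartAt E y' ((chartAt E y).symm ξ)) (chartAt E y x) u)
      (fderiv ℂ (fun ξ => chartAt E y' ((chartAt E y).symm ξ)) (chartAt E y x) v) := by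
  ext j
  simp only [frm_T]
  rw [frm_symm y ((chartAt E y).map_source hx), frm_symm y' ((chartAt E y').map_source hx')]
  rw [(chartAt E y).left_inv hx, (chartAt E y').left_inv hx', SS.in2_tcc, SS.in2_tcc]
  have h2 : ∀ w : E, tangentCoordChange 𝓘(ℂ, E) y' x x (tangentCoordChange 𝓘(ℂ, E) y y' x w) =
      tangentCoordChange 𝓘(ℂ, E) y x x w := by
    intro w
    refine tangentCoordChange_comp ?_
    simp only [extChartAt_source]
    exact ⟨⟨hx, hx'⟩, mem_chart_source E _⟩
  rw [h2, h2]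

end manifold

section main

variable {E X : Type} [NormedAddCommGroup E] [NormedSpace ℂ E] [FiniteDimensional ℂ E]
  [MetricSpace X] [CompactSpace X] [ChartedSpace E X] [IsManifold 𝓘(ℂ, E) ω X]

/-- FRM: the forms in the charts -/
theorem exists_frm (A : Cha E X) (hA : ∀ i, ∃ y, A.ch i = chartAt E y) (h : PlaneAmple E X) :
    ∃ (L k : ℕ) (_ : 0 < k), Nonempty (A.Frm L k) := by
  obtain ⟨k, L, τ, hk, hτ, hh⟩ := h
  choose y hy using hA
  refine ⟨L, k, hk, ⟨{ T := fun i => frm_T τ (y i), tf := fun i => ?_, compat := ?_ }⟩⟩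
  · rw [hy i]
    exact frm_tform hτ hh (y i)
  · intro i j x hi hj u v
    rw [hy i] at hi ⊢
    rw [hy j] at hj ⊢
    exact frm_compat τ (y i) (y j) x hi hj u v

end main

end Pool.Agent.BR
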