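import Pool.Agent.Lib_helper82.BR.Mt
import Pool.Agent.Lib_helper64.SS.B.IN2

/-! # BR, block SYM: symmetric differentials along Brody curves (MP_45e720_ag) -/

set_option autoImplicit false
set_option linter.unusedSectionVars false

open Filter Topology Metric Set
open scoped Manifold ContDiff

namespace Pool.Agent.BR

section manifold

variable {E X : Type} [NormedAddCommGroup E] [NormedSpace ℂ E] [FiniteDimensional ℂ E]
  [MetricSpace X] [CompactSpace X] [ChartedSpace E X] [IsManifold 𝓘(ℂ, E) ω X]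

/-- change of charts along a curve -/
theorem sym_chain {f : ℂ → X} {y y' : X} {z : ℂ} (hc : ContinuousAt f z)
    (hy : f z ∈ (chartAt E y).source) (hy' : f z ∈ (chartAt E y').source)
    (hd : DifferentiableAt ℂ (fun z => chartAt E y (f z)) z) :
    HasDerivAt (fun z => chartAt E y' (f z))
      (fderiv ℂ (fun ξ => chartAt E y' ((chartAt E y).symm ξ)) (chartAt E y (f z))
        (deriv (fun z => chartAt E y (f z)) z)) z := by
  have h1 : HasFDerivAt (fun ξ => chartAt E y' ((chartAt E y).symm ξ))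
      (fderiv ℂ (fun ξ => chartAt E y' ((chartAt E y).symm ξ)) (chartAt E y (f z)))
      (chartAt E y (f z)) := (SS.in2_trans hy hy').differentiableAt.hasFDerivAt
  have h2 := h1.comp_hasDerivAt z hd.hasDerivAt
  refine h2.congr_of_eventuallyEq ?_
  have h3 : ∀ᶠ z' in 𝓝 z, f z' ∈ (chartAt E y).source :=
    hc.eventually ((chartAt E y).open_source.mem_nhds hy)
  filter_upwards [h3] with z' hz'
  show chartAt E y' (f z') = chartAt E y' ((chartAt E y).symm (chartAt E y (f z')))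
  rw [(chartAt E y).left_inv hz']

theorem sym_mf {f : ℂ → X} {z : ℂ} (hc : ContinuousAt f z)
    (hd : DifferentiableAt ℂ (fun z' => chartAt E (f z) (f z')) z) :
    (mfderiv 𝓘(ℂ, ℂ) 𝓘(ℂ, E) f z (1 : ℂ) : E) = deriv (fun z' => chartAt E (f z) (f z')) z := by
  have h3 : writtenInExtChartAt 𝓘(ℂ, ℂ) 𝓘(ℂ, E) z f = fun z' => chartAt E (f z) (f z') := by
    funext r
    simp [writtenInExtChartAt, extChartAt]
  have hm : MDifferentiableAt 𝓘(ℂ, ℂ) 𝓘(ℂ, E) f z := by
    rw [mdifferentiableAt_iff]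
    refine ⟨hc, ?_⟩
    rw [h3]
    simpa [chartAt_self_eq] using hd.differentiableWithinAt (s := univ)
  have h4 : mfderiv 𝓘(ℂ, ℂ) 𝓘(ℂ, E) f z = fderiv ℂ (fun z' => chartAt E (f z) (f z')) z := by
    rw [mfderiv, if_pos hm, h3]
    simp [fderivWithin_univ]
  rw [h4]
  rfl

/-- a symmetric differential on the velocity, in a chart -/
theorem sym_vel {f : ℂ → X} {y : X} {z : ℂ} (hc : ContinuousAt f z)
    (hy : f z ∈ (chartAt E y).source)
    (hd : DifferentiableAt ℂ (fun z => chartAt E y (f z)) z)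
    {σ : TangentBundle 𝓘(ℂ, E) X → ℂ} {S : X → E → E → ℂ}
    (hS : ∀ y y' x, x ∈ (chartAt E y).source → x ∈ (chartAt E y').source → ∀ w,
        S y (chartAt E y x) w = S y' (chartAt E y' x)
          (fderiv ℂ (fun ξ => chartAt E y' ((chartAt E y).symm ξ)) (chartAt E y x) w))
    (hs : ∀ x w, S x (chartAt E x x) w = σ ⟨x, w⟩) :
    σ (velocity (E := E) f z) = S y (chartAt E y (f z)) (deriv (fun z => chartAt E y (f z)) z) := by
  have hx := mem_chart_source E (f z)
  have h1 := sym_chain hc hy hx hd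
  have h2 : DifferentiableAt ℂ (fun z' => chartAt E (f z) (f z')) z := h1.differentiableAt
  have h3 := sym_chain hc hx hy h2
  have h4 := hS (f z) y (f z) hx hy (deriv (fun z' => chartAt E (f z) (f z')) z)
  rw [← h3.deriv] at h4
  rw [← h4, hs]
  have h5 := sym_mf hc h2
  rw [velocity, ← h5]

/-- bounds for the chart expressions -/
theorem sym_bd (A : Cha E X) {y : A.ι → X} (hy : ∀ i, A.ch i = chartAt E (y i))
    {S : X → E → E → ℂ}
    (hS : ∀ y, ∀ ξ ∈ (chartAt E y).target, ∀ w, AnalyticAt ℂ (fun p : E × E => S y p.1 p.2) (ξ, w))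
    (R : ℝ) : ∃ B > 0, ∀ i, ∀ x ∈ A.W i, ∀ w : E, ‖w‖ ≤ R → ‖S (y i) (A.ch i x) w‖ ≤ B := by
  have : ProperSpace E := FiniteDimensional.proper ℂ E
  have h1 : ∀ i, ∃ B : ℝ, ∀ x ∈ A.W i, ∀ w : E, ‖w‖ ≤ R → ‖S (y i) (A.ch i x) w‖ ≤ B := by
    intro i
    have hK : IsCompact (A.ch i '' closure (A.W i)) :=
      (isClosed_closure.isCompact).image_of_continuousOn
        ((A.ch i).continuousOn.mono (A.W_sub i))
    have hK2 : IsCompact ((A.ch i '' closure (A.W i)) ×ˢ closedBall (0 : E) R) :=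
      hK.prod (isCompact_closedBall 0 R)
    have hc : ContinuousOn (fun p : E × E => S (y i) p.1 p.2)
        ((A.ch i '' closure (A.W i)) ×ˢ closedBall (0 : E) R) := by
      rintro ⟨ξ, w⟩ ⟨⟨x, hx, rfl⟩, _⟩
      refine (hS (y i) _ ?_ w).continuousAt.continuousWithinAt
      rw [← hy i]
      exact (A.ch i).map_source (A.W_sub i hx)
    obtain ⟨B, hB⟩ := hK2.exists_bound_of_continuousOn hc
    refine ⟨B, fun x hx w hw => hB (A.ch i x, w) ⟨⟨x, subset_closure hx, rfl⟩, ?_⟩⟩
    rwa [mem_closedBall_zero_iff]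
  choose B hB using h1
  have := A.fin
  obtain ⟨B', hB'⟩ := (Set.finite_range B).bddAbove
  refine ⟨max B' 1, lt_max_of_lt_right one_pos, fun i x hx w hw => ?_⟩
  exact (hB i x hx w hw).trans ((hB' (mem_range_self i)).trans (le_max_left _ _))

theorem sym_const (A : Cha E X) (hA : ∀ i, ∃ y, A.ch i = chartAt E y) (f : ℂ → X)
    (hf : ∀ t, A.HolAt f t) (C : ℝ) (hC : ∀ z i, f z ∈ A.W i → ‖deriv (A.loc i f) z‖ ≤ C)
    (m : ℕ) (hm : 0 < m) (σ : TangentBundle 𝓘(ℂ, E) X → ℂ) (hσ : SS.IsSymDiff E X m σ) :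
    (∀ z, σ (velocity (E := E) f z) = 0) ∨ ∃ c > 0, ∃ C' > 0, f ∈ A.KK c C' := by
  choose y hy using hA
  obtain ⟨S, S1, S2, S3, S4⟩ := SS.symDiff_chart hσ
  have hcont : Continuous f := continuous_iff_continuousAt.2 fun t => (hf t).1
  -- the chart expressions
  have hloc : ∀ i, A.loc i f = fun z => chartAt E (y i) (f z) := by
    intro i
    funext z
    rw [Cha.loc, hy i]
  have hsrc : ∀ {i z}, f z ∈ A.W i → f z ∈ (A.ch i).source := fun h => A.W_sub _ (subset_closure h)
  have hvel : ∀ i z, f z ∈ (A.ch i).source →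
      σ (velocity (E := E) f z) = S (y i) (A.loc i f z) (deriv (A.loc i f) z) := by
    intro i z hz
    have h1 := ((hf z).2 i hz).differentiableAt
    rw [hloc i] at h1 ⊢
    exact sym_vel (hf z).1 (by rw [← hy i]; exact hz) h1 S3 S4
  obtain ⟨B, hB0, hB⟩ := sym_bd A hy S1 (max C 1)
  -- holomorphic
  have hdiff : Differentiable ℂ fun z => σ (velocity (E := E) f z) := by
    intro z
    obtain ⟨i, hi⟩ := A.cover (f z)
    have h1 : ∀ᶠ z' in 𝓝 z, f z' ∈ (A.ch i).source :=
      hcont.continuousAt.eventually ((A.ch i).open_source.mem_nhds (hsrc hi))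
    have h2 : (fun z => σ (velocity (E := E) f z)) =ᶠ[𝓝 z]
        fun z => S (y i) (A.loc i f z) (deriv (A.loc i f) z) := by
      filter_upwards [h1] with z' hz'
      exact hvel i z' hz'
    have h3 : AnalyticAt ℂ (A.loc i f) z := (hf z).2 i (hsrc hi)
    have h4 : AnalyticAt ℂ (fun p : E × E => S (y i) p.1 p.2)
        ((fun z => (A.loc i f z, deriv (A.loc i f) z)) z) := by
      refine S1 (y i) _ ?_ _
      rw [← hy i]
      exact (A.ch i).map_source (hsrc hi)
    have h5 : AnalyticAt ℂ (fun z => S (y i) (A.loc i f z) (deriv (A.loc i f) z)) z :=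
      h4.comp (f := fun z => (A.loc i f z, deriv (A.loc i f) z)) (h3.prod h3.deriv)
    exact h5.differentiableAt.congr_of_eventuallyEq h2
  have hbd : Bornology.IsBounded (range fun z => σ (velocity (E := E) f z)) := by
    refine (isBounded_iff_forall_norm_le).2 ⟨B, ?_⟩
    rintro _ ⟨z, rfl⟩
    obtain ⟨i, hi⟩ := A.cover (f z)
    show ‖σ (velocity (E := E) f z)‖ ≤ B
    rw [hvel i z (hsrc hi)]
    exact hB i (f z) hi _ ((hC z i hi).trans (le_max_left _ _))
  have hcst : ∀ z, σ (velocity (E := E) f z) = σ (velocity (E := E) f 0) := fun z =>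
    hdiff.apply_eq_apply_of_bounded hbd z 0
  by_cases h0 : σ (velocity (E := E) f 0) = 0
  · exact Or.inl fun z => (hcst z).trans h0
  right
  set a := σ (velocity (E := E) f 0) with ha
  have ha0 : 0 < ‖a‖ := norm_pos_iff.2 h0
  refine ⟨min 1 (‖a‖ / B), lt_min one_pos (div_pos ha0 hB0), max C 1,
    lt_max_of_lt_right one_pos, hf, fun z i hz => ⟨?_, (hC z i hz).trans (le_max_left _ _)⟩⟩
  set w : E := deriv (A.loc i f) z with hw
  have h1 : a = S (y i) (A.ch i (f z)) w := (hcst z).symm.trans (hvel i z (hsrc hz))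
  have htar : A.ch i (f z) ∈ (chartAt E (y i)).target := by
    rw [← hy i]
    exact (A.ch i).map_source (hsrc hz)
  rcases le_or_gt 1 ‖w‖ with h2 | h2
  · exact (min_le_left _ _).trans h2
  refine (min_le_right _ _).trans ?_
  rw [div_le_iff₀ hB0]
  have hw0 : w ≠ 0 := by
    intro h3
    have h4 := S2 (y i) _ htar 0 0
    rw [smul_zero, zero_pow hm.ne', zero_mul] at h4
    rw [h3, h4] at h1
    exact h0 h1
  have hn0 : (‖w‖ : ℂ) ≠ 0 := by exact_mod_cast norm_ne_zero_iff.2 hw0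
  have h3 := S2 (y i) _ htar (‖w‖ : ℂ) ((‖w‖ : ℂ)⁻¹ • w)
  rw [smul_inv_smul₀ hn0, ← h1] at h3
  have h4 : ‖((‖w‖ : ℂ)⁻¹ • w)‖ ≤ max C 1 := by
    rw [norm_smul, norm_inv, Complex.norm_real, norm_norm,
      inv_mul_cancel₀ (norm_ne_zero_iff.2 hw0)]
    exact le_max_right _ _
  have h5 := hB i (f z) hz _ h4
  rw [h3, norm_mul, norm_pow, Complex.norm_real, norm_norm]
  refine mul_le_mul ?_ h5 (norm_nonneg _) (norm_nonneg _)
  calc ‖w‖ ^ m ≤ ‖w‖ ^ 1 := pow_le_pow_of_le_one (norm_nonneg _) h2.le hm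
    _ = ‖w‖ := pow_one _

end manifold

end Pool.Agent.BR
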