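import Pool.Agent.Lib_helper82.BR.Mt
import Pool.Agent.Lib_helper64.SS.B.HOL

/-! Block VEL (helper2): velocities in a compact set (MP_45e720_ag). -/

set_option autoImplicit false
set_option linter.unusedSectionVars false

open Filter Topology Metric Set
open scoped Manifold ContDiff

namespace Pool.Agent.BR

section manifold

variable {E X : Type} [NormedAddCommGroup E] [NormedSpace ℂ E] [FiniteDimensional ℂ E]
  [MetricSpace X] [CompactSpace X] [ChartedSpace E X] [IsManifold 𝓘(ℂ, E) ω X]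

theorem vel_chart (y : X) (p : TangentBundle 𝓘(ℂ, E) X) :
    chartAt (ModelProd E E) (⟨y, 0⟩ : TangentBundle 𝓘(ℂ, E) X) p =
      (chartAt E y p.1, tangentCoordChange 𝓘(ℂ, E) p.1 y p.1 p.2) := rfl

theorem vel_coord (y : X) (f : ℂ → X) (z : ℂ) (hf : MDifferentiableAt 𝓘(ℂ, ℂ) 𝓘(ℂ, E) f z)
    (hz : f z ∈ (chartAt E y).source) : deriv (fun w => chartAt E y (f w)) z =
      (chartAt (ModelProd E E) (⟨y, 0⟩ : TangentBundle 𝓘(ℂ, E) X) (velocity (E := E) f z)).2 := by
  have : IsManifold 𝓘(ℂ, E) 1 X := IsManifold.of_le (n := ω) le_top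
  rw [vel_chart]
  have h1 : MDifferentiableAt 𝓘(ℂ, E) 𝓘(ℂ, E) (chartAt E y) (f z) :=
    mdifferentiableAt_atlas (I := 𝓘(ℂ, E)) (chart_mem_atlas E y) hz
  have h2 := mfderiv_comp z h1 hf
  have h3 := mfderiv_chartAt_eq_tangentCoordChange (I := 𝓘(ℂ, E)) hz
  rw [h3] at h2
  have h4 : (chartAt E y ∘ f) = fun w => chartAt E y (f w) := rfl
  rw [h4, mfderiv_eq_fderiv] at h2
  have h5 := congrArg (fun L : ℂ →L[ℂ] E => L 1) h2
  simp only [fderiv_apply_one_eq_deriv] at h5
  exact h5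

theorem vel_inj (y : X) (p : TangentBundle 𝓘(ℂ, E) X) (hp : p.1 ∈ (chartAt E y).source)
    (h : (chartAt (ModelProd E E) (⟨y, 0⟩ : TangentBundle 𝓘(ℂ, E) X) p).2 = (0 : E)) :
    (p.2 : E) = 0 := by
  have : IsManifold 𝓘(ℂ, E) 1 X := IsManifold.of_le (n := ω) le_top
  rw [vel_chart] at h
  have h2 : tangentCoordChange 𝓘(ℂ, E) p.1 y p.1 (show E from p.2) = 0 := h
  have h1 : tangentCoordChange 𝓘(ℂ, E) y p.1 p.1
      (tangentCoordChange 𝓘(ℂ, E) p.1 y p.1 (show E from p.2)) = (show E from p.2) := by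
    rw [tangentCoordChange_comp, tangentCoordChange_self]
    · simp only [extChartAt_source]
      exact mem_chart_source E p.1
    · simp only [extChartAt_source]
      exact ⟨⟨mem_chart_source E p.1, hp⟩, mem_chart_source E p.1⟩
  rw [h2, map_zero] at h1
  exact h1.symm

theorem vel_cont (y : X) : ContinuousOn
    (fun p : TangentBundle 𝓘(ℂ, E) X =>
      ‖((chartAt (ModelProd E E) (⟨y, 0⟩ : TangentBundle 𝓘(ℂ, E) X) p).2 : E)‖)
    {p | p.1 ∈ (chartAt E y).source} := by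
  have h := (chartAt (ModelProd E E) (⟨y, 0⟩ : TangentBundle 𝓘(ℂ, E) X)).continuousOn_toFun
  have h2 : {p : TangentBundle 𝓘(ℂ, E) X | p.1 ∈ (chartAt E y).source} ⊆
      (chartAt (ModelProd E E) (⟨y, 0⟩ : TangentBundle 𝓘(ℂ, E) X)).source := by
    intro p hp
    rw [TangentBundle.mem_chart_source_iff]
    exact hp
  exact (continuous_norm.comp continuous_snd).comp_continuousOn (h.mono h2)

theorem vel_compact (A : Cha E X) (i : A.ι) {K : Set (TangentBundle 𝓘(ℂ, E) X)}
    (hK : IsCompact K) : IsCompact (K ∩ {p | p.1 ∈ closure (A.W i)}) := by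
  have hc : Continuous (fun p : TangentBundle 𝓘(ℂ, E) X => p.1) :=
    FiberBundle.continuous_proj E (TangentSpace 𝓘(ℂ, E) : X → Type)
  exact hK.inter_right (isClosed_closure.preimage hc)

theorem vel_hol (A : Cha E X) (hA : ∀ i, ∃ y, A.ch i = chartAt E y) (f : ℂ → X)
    (h : MDifferentiable 𝓘(ℂ, ℂ) 𝓘(ℂ, E) f) (t : ℂ) : A.HolAt f t := by
  have : IsManifold 𝓘(ℂ, E) 1 X := IsManifold.of_le (n := ω) le_top
  refine ⟨(h t).continuousAt, fun i hi => ?_⟩
  obtain ⟨y, hy⟩ := hA i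
  have hFc : Continuous f := h.continuous
  have hU : IsOpen (f ⁻¹' (A.ch i).source) := (A.ch i).open_source.preimage hFc
  refine SS.hol_analytic hU ?_ hi
  intro s hs
  have hs' : f s ∈ (chartAt E y).source := by rw [← hy]; exact hs
  have h1 : MDifferentiableAt 𝓘(ℂ, E) 𝓘(ℂ, E) (chartAt E y) (f s) :=
    mdifferentiableAt_atlas (I := 𝓘(ℂ, E)) (chart_mem_atlas E y) hs'
  have h2 : MDifferentiableAt 𝓘(ℂ, ℂ) 𝓘(ℂ, E) (chartAt E y ∘ f) s := h1.comp s (h s)
  rw [mdifferentiableAt_iff_differentiableAt] at h2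
  have h3 : A.loc i f = chartAt E y ∘ f := by
    funext r
    rw [Cha.loc, hy]
    rfl
  rw [h3]
  exact h2

theorem vel_sub (A : Cha E X) (hA : ∀ i, ∃ y, A.ch i = chartAt E y) (f : ℂ → X)
    (hf : MDifferentiable 𝓘(ℂ, ℂ) 𝓘(ℂ, E) f) (K : Set (TangentBundle 𝓘(ℂ, E) X))
    (hK : IsCompact K) (hv : ∀ z, velocity (E := E) f z ∈ K) :
    ∃ C, ∀ z i, f z ∈ A.W i → ‖deriv (A.loc i f) z‖ ≤ C := by
  have key : ∀ i, ∃ C : ℝ, ∀ z, f z ∈ A.W i → ‖deriv (A.loc i f) z‖ ≤ C := by
    intro i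
    obtain ⟨y, hy⟩ := hA i
    have hsub : K ∩ {p : TangentBundle 𝓘(ℂ, E) X | p.1 ∈ closure (A.W i)} ⊆
        {p | p.1 ∈ (chartAt E y).source} := by
      intro p hp
      have := A.W_sub i hp.2
      rw [hy] at this
      exact this
    obtain ⟨C, hC⟩ := (vel_compact A i hK).exists_bound_of_continuousOn ((vel_cont y).mono hsub)
    refine ⟨C, fun z hz => ?_⟩
    have hz' : f z ∈ (chartAt E y).source := by
      have := A.W_sub i (subset_closure hz)
      rw [hy] at this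
      exact this
    have h1 := vel_coord y f z (hf z) hz'
    have h2 : A.loc i f = fun w => chartAt E y (f w) := by
      funext r
      rw [Cha.loc, hy]
    rw [h2, h1]
    have h3 := hC (velocity (E := E) f z) ⟨hv z, subset_closure hz⟩
    rw [norm_norm] at h3
    exact h3
  choose C hC using key
  have := A.fin
  obtain ⟨M, hM⟩ := Finite.exists_le C
  exact ⟨M, fun z i hz => (hC i z hz).trans (hM i)⟩

/-- VEL: velocities in a compact set -/
theorem brody_bound (A : Cha E X) (hA : ∀ i, ∃ y, A.ch i = chartAt E y) (f : ℂ → X)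
    (hf : IsBrodyCurve (E := E) f) :
    ∃ C, ∀ z i, f z ∈ A.W i → ‖deriv (A.loc i f) z‖ ≤ C := by
  obtain ⟨h1, K, hK, hv⟩ := hf
  exact vel_sub A hA f h1 K hK hv

theorem immersed_bound (A : Cha E X) (hA : ∀ i, ∃ y, A.ch i = chartAt E y) (f : ℂ → X)
    (hf : IsImmersedBrodyCurve (E := E) f) : ∃ c > 0, ∃ C > 0, f ∈ A.KK c C := by
  obtain ⟨h1, K, hK, hne, hv⟩ := hf
  obtain ⟨C, hC⟩ := vel_sub A hA f h1 K hK hv
  have key : ∀ i, ∃ c : ℝ, 0 < c ∧ ∀ z, f z ∈ A.W i → c ≤ ‖deriv (A.loc i f) z‖ := by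
    intro i
    obtain ⟨y, hy⟩ := hA i
    have hsub : K ∩ {p : TangentBundle 𝓘(ℂ, E) X | p.1 ∈ closure (A.W i)} ⊆
        {p | p.1 ∈ (chartAt E y).source} := by
      intro p hp
      have := A.W_sub i hp.2
      rw [hy] at this
      exact this
    have hrep : ∀ z, f z ∈ A.W i → ‖deriv (A.loc i f) z‖ =
        ‖((chartAt (ModelProd E E) (⟨y, 0⟩ : TangentBundle 𝓘(ℂ, E) X)
          (velocity (E := E) f z)).2 : E)‖ := by
      intro z hz
      have hz' : f z ∈ (chartAt E y).source := by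
        have := A.W_sub i (subset_closure hz)
        rw [hy] at this
        exact this
      have h1 := vel_coord y f z (h1 z) hz'
      have h2 : A.loc i f = fun w => chartAt E y (f w) := by
        funext r
        rw [Cha.loc, hy]
      rw [h2, h1]
    by_cases hne' : (K ∩ {p : TangentBundle 𝓘(ℂ, E) X | p.1 ∈ closure (A.W i)}).Nonempty
    · obtain ⟨p, hp, hmin⟩ := (vel_compact A i hK).exists_isMinOn hne' ((vel_cont y).mono hsub)
      refine ⟨‖((chartAt (ModelProd E E) (⟨y, 0⟩ : TangentBundle 𝓘(ℂ, E) X) p).2 : E)‖, ?_,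
        fun z hz => ?_⟩
      · rw [norm_pos_iff]
        intro h0
        exact hne p hp.1 (vel_inj y p (hsub hp) h0)
      · rw [hrep z hz]
        exact hmin ⟨hv z, subset_closure hz⟩
    · refine ⟨1, one_pos, fun z hz => ?_⟩
      exact absurd ⟨_, hv z, subset_closure hz⟩ hne'
  choose c hc hcb using key
  have := A.fin
  obtain ⟨M, hM⟩ := Finite.exists_le (fun i => 1 / c i)
  refine ⟨1 / max M 1, by positivity, max C 1, by positivity, fun z => vel_hol A hA f h1 z,
    fun z i hz => ⟨?_, (hC z i hz).trans (le_max_left _ _)⟩⟩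
  refine le_trans ?_ (hcb i z hz)
  have h3 : 1 / c i ≤ max M 1 := (hM i).trans (le_max_left _ _)
  rw [div_le_iff₀ (hc i)] at h3
  rw [div_le_iff₀ (by positivity)]
  linarith

end manifold

end Pool.Agent.BR
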