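import Pool.Agent.Lib_helper82.BR.Mt
import Pool.Agent.Lib_helper82.BR.B.MCH
import Pool.Agent.Lib_helper26.BR.Inv

/-! BR, block MAT (helper34): existence of local matches (MP_45e720_ag) -/

set_option autoImplicit false

open Filter Topology Metric Set
open scoped Manifold ContDiff

namespace Pool.Agent.BR

/-- monotonicity in the radius -/
theorem mat_mono {E : Type} [NormedAddCommGroup E] [NormedSpace ℂ E] {c C₃ ρ₀ ρ₀' r₀ : ℝ}
    {G H : ℂ → E} {z₀ w₀ : ℂ} {l : E →L[ℂ] ℂ} {t : ℂ → ℂ} (h : LO c C₃ ρ₀' r₀ G H z₀ w₀ l t)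
    (hρ : ρ₀ ≤ ρ₀') : LO c C₃ ρ₀ r₀ G H z₀ w₀ l t where
  l_le := h.l_le
  t_an := fun z hz => h.t_an z (ball_subset_ball hρ hz)
  t_mem := fun z hz => h.t_mem z (ball_subset_ball hρ hz)
  t_der := fun z hz => h.t_der z (ball_subset_ball hρ hz)
  eq := fun z hz => h.eq z (ball_subset_ball hρ hz)
  uniq := fun z hz => h.uniq z (ball_subset_ball hρ hz)
  low := fun z hz => h.low z (ball_subset_ball hρ hz)

/-- a function with small jumps stays in a ball -/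
theorem mat_chain {s : ℂ → ℂ} {z₀ : ℂ} {ρ r r₁ r₀ : ℝ} (hr : 0 < r) (hr₀ : 0 < r₀)
    (hr₁ : r₁ ≤ r₀ / 4)
    (hs : ∀ z ∈ ball z₀ ρ, ∀ z' ∈ ball z₀ ρ, ‖z - z'‖ ≤ r → ‖s z - s z'‖ ≤ r₁)
    (hb : ∀ z ∈ ball z₀ ρ, ‖s z - s z₀‖ < r₀ → ‖s z - s z₀‖ ≤ r₀ / 2) :
    ∀ z ∈ ball z₀ ρ, ‖s z - s z₀‖ ≤ r₀ / 2 := by
  intro z hz
  obtain ⟨n, hn⟩ := exists_nat_ge (‖z - z₀‖ / r)
  have hn' : ‖z - z₀‖ ≤ (n + 1 : ℕ) * r := by
    rw [div_le_iff₀ hr] at hn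
    push_cast
    nlinarith
  have hn0 : (0 : ℝ) < ((n + 1 : ℕ) : ℝ) := by positivity
  have hnc : (((n + 1 : ℕ) : ℝ) : ℂ) ≠ 0 := by exact_mod_cast hn0.ne'
  have hmem : ∀ j : ℕ, j ≤ n + 1 →
      z₀ + (((j : ℝ) / ((n + 1 : ℕ) : ℝ) : ℝ) : ℂ) * (z - z₀) ∈ ball z₀ ρ := by
    intro j hj
    rw [mem_ball_iff_norm, add_sub_cancel_left, norm_mul, Complex.norm_real,
      Real.norm_of_nonneg (by positivity)]
    rw [mem_ball_iff_norm] at hz
    have h1 : (j : ℝ) / ((n + 1 : ℕ) : ℝ) ≤ 1 := by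
      rw [div_le_one hn0]; exact_mod_cast hj
    calc (j : ℝ) / ((n + 1 : ℕ) : ℝ) * ‖z - z₀‖ ≤ 1 * ‖z - z₀‖ := by gcongr
      _ < ρ := by rw [one_mul]; exact hz
  have key : ∀ j : ℕ, j ≤ n + 1 →
      ‖s (z₀ + (((j : ℝ) / ((n + 1 : ℕ) : ℝ) : ℝ) : ℂ) * (z - z₀)) - s z₀‖ ≤ r₀ / 2 := by
    intro j
    induction j with
    | zero =>
      intro _
      simp only [Nat.cast_zero, zero_div, Complex.ofReal_zero, zero_mul, add_zero, sub_self,
        norm_zero]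
      linarith
    | succ j ih =>
      intro hj
      have h1 := ih (by omega)
      apply hb _ (hmem _ hj)
      have h2 := hs _ (hmem (j + 1) hj) _ (hmem j (by omega)) (by
        have e1 : z₀ + ((((j + 1 : ℕ) : ℝ) / ((n + 1 : ℕ) : ℝ) : ℝ) : ℂ) * (z - z₀) -
            (z₀ + (((j : ℝ) / ((n + 1 : ℕ) : ℝ) : ℝ) : ℂ) * (z - z₀)) =
            ((1 / ((n + 1 : ℕ) : ℝ) : ℝ) : ℂ) * (z - z₀) := by
          push_cast
          field_simp
          ring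
        rw [e1, norm_mul, Complex.norm_real, Real.norm_of_nonneg (by positivity),
          div_mul_eq_mul_div, one_mul, div_le_iff₀ hn0, mul_comm]
        exact hn')
      have h3 := norm_add_le
        (s (z₀ + ((((j + 1 : ℕ) : ℝ) / ((n + 1 : ℕ) : ℝ) : ℝ) : ℂ) * (z - z₀)) -
          s (z₀ + (((j : ℝ) / ((n + 1 : ℕ) : ℝ) : ℝ) : ℂ) * (z - z₀)))
        (s (z₀ + (((j : ℝ) / ((n + 1 : ℕ) : ℝ) : ℝ) : ℂ) * (z - z₀)) - s z₀)
      rw [sub_add_sub_cancel] at h3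
      linarith
  have := key (n + 1) le_rfl
  rw [div_self hn0.ne', Complex.ofReal_one, one_mul, add_sub_cancel] at this
  exact this

theorem exists_match {E X : Type} [NormedAddCommGroup E] [NormedSpace ℂ E]
    [FiniteDimensional ℂ E] [MetricSpace X] [CompactSpace X] (A : Cha E X) (c C C₂ : ℝ)
    (hc : 0 < c) :
    ∃ rb > 0, ∃ C₃ > 0, ∀ lam r₀ : ℝ, r₀ ≤ rb → A.Uni c C lam r₀ C₂ →
      ∃ ρ₀ > 0, ρ₀ ≤ r₀ ∧ ∃ R₁ > 0, ∀ ρ > 0, ρ ≤ ρ₀ → ∀ δ > 0, ∃ ε₀ > 0,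
        ∀ ε r r₁ : ℝ, ε ≤ ε₀ → 0 < r → 0 < r₁ → r₁ ≤ R₁ → ∀ g ∈ A.KK c C, ∀ h ∈ A.KK c C,
          ∀ (s : ℂ → ℂ) (z₀ : ℂ), CM ε r r₁ g h s (ball z₀ ρ) → ∀ i, ball (g z₀) lam ⊆ A.W i →
            ∃ l t, Mt A c C₃ lam r₀ ρ₀ ρ δ g h s z₀ i l t := by
  have : CompleteSpace E := FiniteDimensional.complete ℂ E
  by_cases hcase : c ≤ C ∧ 0 ≤ C₂
  swap
  · refine ⟨1, one_pos, 1, one_pos, fun lam r₀ _ hU => ⟨r₀, hU.r₀_pos, le_rfl, 1, one_pos,
      fun ρ _ _ δ _ => ⟨1, one_pos, ?_⟩⟩⟩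
    intro ε r r₁ _ _ _ _ g hg h _ s z₀ _ i hi
    exfalso
    apply hcase
    have hG := hU.gc g hg i z₀ ((ball_subset_ball (by linarith [hU.lam_pos])).trans hi)
    have hz : z₀ ∈ ball z₀ r₀ := mem_ball_self hU.r₀_pos
    exact ⟨(hG.lo z₀ hz).trans (hG.up z₀ hz), (norm_nonneg _).trans (hG.acc z₀ hz)⟩
  obtain ⟨hcC, hC₂⟩ := hcase
  have hC : 0 < C := hc.trans_le hcC
  obtain ⟨C₃, hC₃, rb, hrb, hLO⟩ := exists_LO hc hcC hC₂
  refine ⟨min rb (c / (4 * (C₂ + 1))), by positivity, C₃, hC₃, ?_⟩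
  intro lam r₀ hr₀b hU
  have hr₀ := hU.r₀_pos
  have hlam := hU.lam_pos
  have hlowr : C₂ * (2 * r₀) ≤ c / 2 := by
    have h1 : r₀ ≤ c / (4 * (C₂ + 1)) := hr₀b.trans (min_le_right _ _)
    rw [le_div_iff₀ (by positivity)] at h1
    nlinarith
  obtain ⟨ρm, hρm, ρL, hρL, hρmr, hρLr, hLO⟩ := hLO r₀ hr₀ (hr₀b.trans (min_le_left _ _))
  have hcC8 : 0 < c * r₀ / (8 * C) := by positivity
  refine ⟨min (min ρL ρm) (c * r₀ / (8 * C)), by positivity,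
    ((min_le_left _ _).trans (min_le_left _ _)).trans hρLr.le, r₀ / 4, by positivity, ?_⟩
  intro ρ hρ hρ₀ δ hδ
  have hρL' : ρ ≤ ρL := hρ₀.trans ((min_le_left _ _).trans (min_le_left _ _))
  have hρm' : ρ ≤ ρm := hρ₀.trans ((min_le_left _ _).trans (min_le_right _ _))
  have hρC : C * ρ ≤ c * r₀ / 8 := by
    have h1 : ρ ≤ c * r₀ / (8 * C) := hρ₀.trans (min_le_right _ _)
    calc C * ρ ≤ C * (c * r₀ / (8 * C)) := by gcongr
      _ = c * r₀ / 8 := by field_simp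
  have hρr : ρ < r₀ := lt_of_le_of_lt hρL' hρLr
  obtain ⟨εL, hεL, hLO⟩ := hLO (ρ / 2) (by positivity) (by linarith)
  obtain ⟨ε', hε'⟩ : ∃ ε', ε' = min εL (min (δ / (C₃ + C * C₃ + 1)) (c * r₀ / 16)) := ⟨_, rfl⟩
  have hε'0 : 0 < ε' := by rw [hε']; positivity
  have hε'1 : ε' ≤ εL := by rw [hε']; exact min_le_left _ _
  have hε'2 : ε' * (C₃ + C * C₃ + 1) ≤ δ := by
    rw [← le_div_iff₀ (by positivity), hε']
    exact (min_le_right _ _).trans (min_le_left _ _)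
  have hε'3 : ε' ≤ c * r₀ / 16 := by
    rw [hε']; exact (min_le_right _ _).trans (min_le_right _ _)
  obtain ⟨δ', hδ', hnear⟩ := near_chart A ε' hε'0
  refine ⟨min (δ' / 2) (lam / 4), by positivity, ?_⟩
  intro ε r r₁ hε hr hr₁ hr₁R g hg h hh s z₀ hCM i hi
  obtain ⟨hCM1, hCM2⟩ := hCM
  have hz₀ : z₀ ∈ ball z₀ ρ := mem_ball_self hρ
  have hεδ : ε < δ' := by
    have := hε.trans (min_le_left _ _)
    linarith
  have hεlam : ε ≤ lam / 4 := hε.trans (min_le_right _ _)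
  have hbg : ball (g z₀) (lam / 2) ⊆ A.W i := (ball_subset_ball (by linarith)).trans hi
  have hbh : ball (h (s z₀)) (lam / 2) ⊆ A.W i := by
    refine Subset.trans ?_ hi
    intro x hx
    rw [mem_ball] at hx ⊢
    have h1 := hCM1 z₀ hz₀
    have h2 := dist_triangle x (h (s z₀)) (g z₀)
    rw [dist_comm (h (s z₀)) (g z₀)] at h2
    linarith
  have hG := hU.gc g hg i z₀ hbg
  have hH := hU.gc h hh i (s z₀) hbh
  -- near in the chart
  have hnr : ∀ z ∈ ball z₀ ρ, ‖A.loc i h (s z) - A.loc i g z‖ ≤ ε' := by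
    intro z hz
    have hzW : g z ∈ A.W i := by
      apply hi
      rw [mem_ball, dist_comm]
      have h1 := hU.stay g hg z₀ z (by
        rw [mem_ball_iff_norm] at hz
        rw [norm_sub_rev]
        linarith)
      linarith
    have h1 := hnear i (g z) (subset_closure hzW) (h (s z)) (lt_of_le_of_lt (hCM1 z hz) hεδ)
    exact h1.2.le
  have hballr : ∀ z ∈ ball z₀ ρ, z ∈ ball z₀ r₀ := fun z hz => ball_subset_ball hρr.le hz
  have hz₀r : z₀ ∈ ball z₀ r₀ := mem_ball_self hr₀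
  have hw₀r : s z₀ ∈ ball (s z₀) r₀ := mem_ball_self hr₀
  -- the chain
  have hch := mat_chain (s := s) (z₀ := z₀) (ρ := ρ) hr hr₀ hr₁R
    (fun z hz z' hz' hzz => hCM2 z hz z' hz' hzz) (by
      intro z hz hlt
      have h1 : s z ∈ ball (s z₀) r₀ := by rw [mem_ball_iff_norm]; exact hlt
      have h2 := hH.low hC₂ hlowr h1 hw₀r
      have h3 := hnr z hz
      have h4 := hnr z₀ hz₀
      have h5 := hG.lip (hballr z hz) hz₀r
      have h6 : A.loc i h (s z) - A.loc i h (s z₀) = (A.loc i h (s z) - A.loc i g z) +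
          (A.loc i g z - A.loc i g z₀) - (A.loc i h (s z₀) - A.loc i g z₀) := by abel
      have h7 : ‖A.loc i h (s z) - A.loc i h (s z₀)‖ ≤ ε' + C * ‖z - z₀‖ + ε' := by
        rw [h6]
        refine (norm_sub_le _ _).trans ?_
        have := norm_add_le (A.loc i h (s z) - A.loc i g z) (A.loc i g z - A.loc i g z₀)
        linarith
      have h8 : C * ‖z - z₀‖ ≤ c * r₀ / 8 := by
        refine le_trans ?_ hρC
        apply mul_le_mul_of_nonneg_left _ hC.le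
        rw [mem_ball_iff_norm] at hz
        exact hz.le
      have h9 : c / 2 * ‖s z - s z₀‖ ≤ c / 2 * (r₀ / 2) := by
        have : c / 2 * (r₀ / 2) = c * r₀ / 4 := by ring
        linarith
      exact le_of_mul_le_mul_left h9 (by positivity))
  have hsr : ∀ z ∈ ball z₀ ρ, s z ∈ ball (s z₀) r₀ := by
    intro z hz
    rw [mem_ball_iff_norm]
    have := hch z hz
    linarith
  -- the second point
  have hz₁n : ‖(z₀ + ((ρ / 2 : ℝ) : ℂ)) - z₀‖ = ρ / 2 := by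
    rw [add_sub_cancel_left, Complex.norm_real, Real.norm_of_nonneg (by positivity)]
  have hz₁ : z₀ + ((ρ / 2 : ℝ) : ℂ) ∈ ball z₀ ρ := by
    rw [mem_ball_iff_norm, hz₁n]; linarith
  obtain ⟨l, t, hlt⟩ := hLO (A.loc i g) (A.loc i h) z₀ (s z₀) (z₀ + ((ρ / 2 : ℝ) : ℂ))
    (s (z₀ + ((ρ / 2 : ℝ) : ℂ))) hG hH ((hnr z₀ hz₀).trans hε'1) hz₁n (hsr _ hz₁)
    ((hnr _ hz₁).trans hε'1)
  have hts : ∀ z ∈ ball z₀ ρ, ‖t z - s z‖ ≤ C₃ * ε' := by
    intro z hz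
    refine (hlt.uniq z (ball_subset_ball hρL' hz) (s z) (hsr z hz)).trans ?_
    exact mul_le_mul_of_nonneg_left (hnr z hz) hC₃.le
  have hCC : 0 ≤ C * C₃ * ε' := by positivity
  have hCε : 0 ≤ C₃ * ε' := by positivity
  refine ⟨l, t, hi, hbh, mat_mono hlt ((min_le_left _ _).trans (min_le_left _ _)), ?_, ?_⟩
  · intro z hz
    refine (hts z hz).trans ?_
    nlinarith
  · intro z hz
    have h1 := hH.lip (hlt.t_mem z (ball_subset_ball hρL' hz)) (hsr z hz)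
    have h2 := hnr z hz
    have h3 : A.loc i h (t z) - A.loc i g z = (A.loc i h (t z) - A.loc i h (s z)) +
        (A.loc i h (s z) - A.loc i g z) := by abel
    rw [h3]
    refine (norm_add_le _ _).trans ?_
    have h4 : C * ‖t z - s z‖ ≤ C * (C₃ * ε') := mul_le_mul_of_nonneg_left (hts z hz) hC.le
    nlinarith

end Pool.Agent.BR
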