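import Pool.Agent.Lib_helper82.BR.Mt

-- block TRA (helper81)

set_option autoImplicit false
set_option linter.unusedSectionVars false

open Filter Topology Metric Set
open scoped Manifold ContDiff

namespace Pool.Agent.BR

variable {E X : Type} [NormedAddCommGroup E] [NormedSpace ℂ E] [FiniteDimensional ℂ E]
  [MetricSpace X] [CompactSpace X] (A : Cha E X)

theorem tra_mono {M M' : ℝ} (h : M ≤ M') {ψ : E → E} {ξ : E} {D : E →L[ℂ] E}
    (hT : Tra M ψ ξ D) : Tra M' ψ ξ D where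
  d := hT.d
  up u := (hT.up u).trans (mul_le_mul_of_nonneg_right h (norm_nonneg _))
  lo u := (hT.lo u).trans (mul_le_mul_of_nonneg_right h (norm_nonneg _))
  quad η hη := by
    refine (hT.quad η ?_).trans (mul_le_mul_of_nonneg_right h (by positivity))
    exact (mul_le_mul_of_nonneg_left h (norm_nonneg η)).trans hη

/-- the quadratic bound of an analytic function -/
theorem tra_quad {ψ : E → E} {ξ₀ : E} (hψ : AnalyticAt ℂ ψ ξ₀) : ∃ r > 0, ∃ B ≥ 0,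
    ∀ ξ ∈ ball ξ₀ r, HasFDerivAt ψ (fderiv ℂ ψ ξ) ξ ∧ ‖fderiv ℂ ψ ξ‖ ≤ B ∧ ∀ η : E, ‖η‖ < r →
      ‖ψ (ξ + η) - ψ ξ - fderiv ℂ ψ ξ η‖ ≤ B * ‖η‖ ^ 2 := by
  -- analyticity and bounds on a ball
  have h1 : ∀ᶠ ξ in 𝓝 ξ₀, AnalyticAt ℂ ψ ξ := hψ.eventually_analyticAt
  have h2 : ContinuousAt (fun ξ => ‖fderiv ℂ ψ ξ‖) ξ₀ := hψ.fderiv.continuousAt.norm
  have h3 : ContinuousAt (fun ξ => ‖fderiv ℂ (fderiv ℂ ψ) ξ‖) ξ₀ :=
    hψ.fderiv.fderiv.continuousAt.norm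
  obtain ⟨B, hB⟩ : ∃ B : ℝ, B = max ‖fderiv ℂ ψ ξ₀‖ ‖fderiv ℂ (fderiv ℂ ψ) ξ₀‖ + 1 := ⟨_, rfl⟩
  have h4 : ∀ᶠ ξ in 𝓝 ξ₀, ‖fderiv ℂ ψ ξ‖ < B := by
    apply h2.eventually (gt_mem_nhds _)
    rw [hB]
    linarith [le_max_left ‖fderiv ℂ ψ ξ₀‖ ‖fderiv ℂ (fderiv ℂ ψ) ξ₀‖]
  have h5 : ∀ᶠ ξ in 𝓝 ξ₀, ‖fderiv ℂ (fderiv ℂ ψ) ξ‖ < B := by
    apply h3.eventually (gt_mem_nhds _)
    rw [hB]
    linarith [le_max_right ‖fderiv ℂ ψ ξ₀‖ ‖fderiv ℂ (fderiv ℂ ψ) ξ₀‖]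
  obtain ⟨r, hr, hball⟩ := Metric.nhds_basis_ball.mem_iff.mp (h1.and (h4.and h5))
  have hB0 : 0 ≤ B := by
    rw [hB]
    have : 0 ≤ max ‖fderiv ℂ ψ ξ₀‖ ‖fderiv ℂ (fderiv ℂ ψ) ξ₀‖ :=
      (norm_nonneg _).trans (le_max_left _ _)
    linarith
  refine ⟨r / 2, by linarith, B, hB0, fun ξ hξ => ?_⟩
  rw [mem_ball_iff_norm] at hξ
  have hξr : ξ ∈ ball ξ₀ r := by rw [mem_ball_iff_norm]; linarith
  obtain ⟨a1, a2, a3⟩ := hball hξr
  refine ⟨a1.differentiableAt.hasFDerivAt, a2.le, fun η hη => ?_⟩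
  -- the closed ball of radius `‖η‖` around `ξ`
  have hsub : closedBall ξ ‖η‖ ⊆ ball ξ₀ r := by
    intro u hu
    rw [mem_closedBall_iff_norm] at hu
    rw [mem_ball_iff_norm]
    calc ‖u - ξ₀‖ = ‖(u - ξ) + (ξ - ξ₀)‖ := by congr 1; abel
      _ ≤ ‖u - ξ‖ + ‖ξ - ξ₀‖ := norm_add_le _ _
      _ < r := by linarith
  have hlip : ∀ u ∈ closedBall ξ ‖η‖, ‖fderiv ℂ ψ u - fderiv ℂ ψ ξ‖ ≤ B * ‖η‖ := by
    intro u hu
    have h6 : ‖fderiv ℂ ψ u - fderiv ℂ ψ ξ‖ ≤ B * ‖u - ξ‖ :=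
      Convex.norm_image_sub_le_of_norm_fderiv_le (𝕜 := ℂ) (f := fderiv ℂ ψ) (C := B)
        (fun x hx => (hball (hsub hx)).1.fderiv.differentiableAt)
        (fun x hx => (hball (hsub hx)).2.2.le) (convex_closedBall ξ ‖η‖)
        (mem_closedBall_self (norm_nonneg _)) hu
    rw [mem_closedBall_iff_norm] at hu
    exact h6.trans (mul_le_mul_of_nonneg_left hu hB0)
  have hmv := Convex.norm_image_sub_le_of_norm_hasFDerivWithin_le (𝕜 := ℂ)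
    (f := fun u => ψ u - fderiv ℂ ψ ξ u) (f' := fun u => fderiv ℂ ψ u - fderiv ℂ ψ ξ)
    (s := closedBall ξ ‖η‖) (C := B * ‖η‖) (x := ξ) (y := ξ + η)
    (fun u hu => ((hball (hsub hu)).1.differentiableAt.hasFDerivAt.sub
      (fderiv ℂ ψ ξ).hasFDerivAt).hasFDerivWithinAt)
    hlip (convex_closedBall ξ ‖η‖) (mem_closedBall_self (norm_nonneg _))
    (by rw [mem_closedBall_iff_norm]; simp)
  have e1 : ψ (ξ + η) - fderiv ℂ ψ ξ (ξ + η) - (ψ ξ - fderiv ℂ ψ ξ ξ) =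
      ψ (ξ + η) - ψ ξ - fderiv ℂ ψ ξ η := by
    rw [map_add]; abel
  have e2 : ξ + η - ξ = η := by abel
  rw [e1, e2] at hmv
  refine hmv.trans (le_of_eq ?_)
  ring

/-- the local form -/
theorem tra_local (i j : A.ι) (x₀ : X) (hi : x₀ ∈ (A.ch i).source) (hj : x₀ ∈ (A.ch j).source) :
    ∃ M > 0, ∀ᶠ x in 𝓝 x₀, Tra M (fun ξ => A.ch j ((A.ch i).symm ξ)) (A.ch i x)
      (fderiv ℂ (fun ξ => A.ch j ((A.ch i).symm ξ)) (A.ch i x)) := by
  obtain ⟨ψ, hψ⟩ : ∃ ψ : E → E, ψ = fun ξ => A.ch j ((A.ch i).symm ξ) := ⟨_, rfl⟩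
  obtain ⟨φ, hφ⟩ : ∃ φ : E → E, φ = fun ξ => A.ch i ((A.ch j).symm ξ) := ⟨_, rfl⟩
  have hψa : AnalyticAt ℂ ψ (A.ch i x₀) := by rw [hψ]; exact A.trans i j x₀ hi hj
  have hφa : AnalyticAt ℂ φ (A.ch j x₀) := by rw [hφ]; exact A.trans j i x₀ hj hi
  obtain ⟨r, hr, B, hB, h1⟩ := tra_quad hψa
  obtain ⟨r', hr', B', hB', h2⟩ := tra_quad hφa
  rw [← hψ]
  refine ⟨max (max B B') (2 / r) + 1, ?_, ?_⟩
  · have : 0 ≤ max (max B B') (2 / r) := hB.trans ((le_max_left _ _).trans (le_max_left _ _))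
    exact add_pos_of_nonneg_of_pos this one_pos
  have hM1 : B ≤ max (max B B') (2 / r) + 1 :=
    ((le_max_left B B').trans (le_max_left _ _)).trans (le_add_of_nonneg_right zero_le_one)
  have hM2 : B' ≤ max (max B B') (2 / r) + 1 :=
    ((le_max_right B B').trans (le_max_left _ _)).trans (le_add_of_nonneg_right zero_le_one)
  have hM3 : 2 / r ≤ max (max B B') (2 / r) + 1 := (le_max_right _ _).trans (le_add_of_nonneg_right zero_le_one)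
  obtain ⟨M, hM⟩ : ∃ M, M = max (max B B') (2 / r) + 1 := ⟨_, rfl⟩
  rw [← hM] at hM1 hM2 hM3 ⊢
  have hM0 : 0 < M := lt_of_lt_of_le (by positivity) hM3
  have e1 : ∀ᶠ x in 𝓝 x₀, A.ch i x ∈ ball (A.ch i x₀) r :=
    ((A.ch i).continuousAt hi).eventually (ball_mem_nhds _ hr)
  have e2 : ∀ᶠ x in 𝓝 x₀, A.ch j x ∈ ball (A.ch j x₀) r' :=
    ((A.ch j).continuousAt hj).eventually (ball_mem_nhds _ hr')
  filter_upwards [e1, e2, (A.ch i).open_source.eventually_mem hi,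
    (A.ch j).open_source.eventually_mem hj] with x hx1 hx2 hxi hxj
  obtain ⟨b1, b2, b3⟩ := h1 _ hx1
  obtain ⟨c1, c2, -⟩ := h2 _ hx2
  refine ⟨b1, fun u => ?_, fun u => ?_, fun η hη => ?_⟩
  · exact ((fderiv ℂ ψ (A.ch i x)).le_opNorm u).trans
      (mul_le_mul_of_nonneg_right (b2.trans hM1) (norm_nonneg _))
  · -- `φ ∘ ψ = id` near `A.ch i x`
    have hpsi : ψ (A.ch i x) = A.ch j x := by
      rw [hψ]; simp only; rw [(A.ch i).left_inv hxi]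
    rw [← hpsi] at c1
    have hcomp := c1.comp (A.ch i x) b1
    have hid : HasFDerivAt (φ ∘ ψ) (ContinuousLinearMap.id ℂ E) (A.ch i x) := by
      refine (hasFDerivAt_id (A.ch i x)).congr_of_eventuallyEq ?_
      have f1 : ∀ᶠ ξ in 𝓝 (A.ch i x), ξ ∈ (A.ch i).target :=
        (A.ch i).open_target.eventually_mem ((A.ch i).map_source hxi)
      have f2 : ∀ᶠ ξ in 𝓝 (A.ch i x), (A.ch i).symm ξ ∈ (A.ch j).source := by
        have f3 := (A.ch i).continuousAt_symm ((A.ch i).map_source hxi)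
        apply f3.eventually_mem
        rw [(A.ch i).left_inv hxi]
        exact (A.ch j).open_source.mem_nhds hxj
      filter_upwards [f1, f2] with ξ g1 g2
      rw [hφ, hψ]
      simp only [Function.comp, id]
      rw [(A.ch j).left_inv g2, (A.ch i).right_inv g1]
    have huniq := hcomp.unique hid
    have hu : u = fderiv ℂ φ (ψ (A.ch i x)) (fderiv ℂ ψ (A.ch i x) u) := by
      have := congrArg (fun D : E →L[ℂ] E => D u) huniq
      simpa using this.symm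
    rw [hpsi] at hu
    calc ‖u‖ = ‖fderiv ℂ φ (A.ch j x) (fderiv ℂ ψ (A.ch i x) u)‖ := by rw [← hu]
      _ ≤ ‖fderiv ℂ φ (A.ch j x)‖ * ‖fderiv ℂ ψ (A.ch i x) u‖ :=
          (fderiv ℂ φ (A.ch j x)).le_opNorm _
      _ ≤ M * ‖fderiv ℂ ψ (A.ch i x) u‖ :=
          mul_le_mul_of_nonneg_right (c2.trans hM2) (norm_nonneg _)
  · have hη2 : ‖η‖ < r := by
      have g1 : ‖η‖ * (2 / r) ≤ 1 :=
        (mul_le_mul_of_nonneg_left hM3 (norm_nonneg _)).trans hη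
      rw [mul_div_assoc', div_le_one hr] at g1
      linarith [norm_nonneg η]
    exact (b3 η hη2).trans (mul_le_mul_of_nonneg_right hM1 (by positivity))

/-- TRA: uniform bounds for the changes of charts -/
theorem exists_tra : ∃ M > 0, ∀ i j, ∀ x ∈ closure (A.W i), x ∈ closure (A.W j) →
    Tra M (fun ξ => A.ch j ((A.ch i).symm ξ)) (A.ch i x)
      (fderiv ℂ (fun ξ => A.ch j ((A.ch i).symm ξ)) (A.ch i x)) := by
  have hfin : Finite A.ι := A.fin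
  have key : ∀ p : A.ι × A.ι, ∃ M > 0, ∀ x ∈ closure (A.W p.1) ∩ closure (A.W p.2),
      Tra M (fun ξ => A.ch p.2 ((A.ch p.1).symm ξ)) (A.ch p.1 x)
        (fderiv ℂ (fun ξ => A.ch p.2 ((A.ch p.1).symm ξ)) (A.ch p.1 x)) := by
    rintro ⟨i, j⟩
    have hK : IsCompact (closure (A.W i) ∩ closure (A.W j)) :=
      (isClosed_closure.inter isClosed_closure).isCompact
    refine hK.induction_on (p := fun s => ∃ M > 0, ∀ x ∈ s,
      Tra M (fun ξ => A.ch j ((A.ch i).symm ξ)) (A.ch i x)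
        (fderiv ℂ (fun ξ => A.ch j ((A.ch i).symm ξ)) (A.ch i x)))
      ⟨1, one_pos, fun x hx => absurd hx (notMem_empty _)⟩
      (fun s t hst ⟨M, hM, h⟩ => ⟨M, hM, fun x hx => h x (hst hx)⟩)
      (fun s t ⟨M, hM, h⟩ ⟨M', hM', h'⟩ => ⟨max M M', lt_max_of_lt_left hM, fun x hx => by
        rcases hx with hx | hx
        · exact tra_mono (le_max_left _ _) (h x hx)
        · exact tra_mono (le_max_right _ _) (h' x hx)⟩)
      (fun x hx => ?_)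
    obtain ⟨M, hM, h⟩ := tra_local A i j x (A.W_sub i hx.1) (A.W_sub j hx.2)
    exact ⟨_, mem_nhdsWithin_of_mem_nhds h, M, hM, fun y hy => hy⟩
  choose Mf hMf hT using key
  obtain ⟨M, hM⟩ := Finite.exists_le Mf
  refine ⟨max M 1, lt_max_of_lt_right one_pos, fun i j x hxi hxj => ?_⟩
  exact tra_mono ((hM (i, j)).trans (le_max_left _ _)) (hT (i, j) x ⟨hxi, hxj⟩)

end Pool.Agent.BR
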