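import Pool.Agent.Lib_helper82.BR.Mt
import Pool.Agent.Lib_helper82.BR.B.MCH
import Pool.Agent.Lib_helper82.BR.B.TRA
import Pool.Agent.Lib_helper26.BR.TV

/-! # BR, block CMP: comparison of two local matches (MP_45e720_ag) -/

set_option autoImplicit false
set_option linter.unusedSectionVars false

open Filter Topology Metric Set
open scoped Manifold ContDiff

namespace Pool.Agent.BR

section pure

variable {E : Type} [NormedAddCommGroup E] [NormedSpace ℂ E] [FiniteDimensional ℂ E]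
  {O K₀ : Set E} {L k : ℕ} {T : E → E → E → EuclideanSpace ℂ (Fin L)}

theorem cmp_gc {c C C₂ C₂' : ℝ} (h2 : C₂ ≤ C₂') {G : ℂ → E} {z₀ : ℂ} {r₀ : ℝ}
    (h : GC c C C₂ G z₀ r₀) : GC c C C₂' G z₀ r₀ :=
  ⟨h.an, h.lo, h.up, fun z hz => (h.acc z hz).trans h2⟩

theorem cmp_lo {c C₃ C₃' ρ₀ r₀ : ℝ} (h3 : C₃ ≤ C₃') {G H : ℂ → E} {z₀ w₀ : ℂ} {l : E →L[ℂ] ℂ}
    {t : ℂ → ℂ} (h : LO c C₃ ρ₀ r₀ G H z₀ w₀ l t) : LO c C₃' ρ₀ r₀ G H z₀ w₀ l t :=
  ⟨h.l_le, h.t_an, h.t_mem, fun z hz => (h.t_der z hz).trans h3, h.eq,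
    fun z hz w hw => (h.uniq z hz w hw).trans (mul_le_mul_of_nonneg_right h3 (norm_nonneg _)),
    h.low⟩

theorem cmp_tra {M M' : ℝ} (hM : M ≤ M') {ψ : E → E} {ξ : E} {D : E →L[ℂ] E}
    (h : Tra M ψ ξ D) : Tra M' ψ ξ D :=
  ⟨h.d, fun u => (h.up u).trans (mul_le_mul_of_nonneg_right hM (norm_nonneg _)),
    fun u => (h.lo u).trans (mul_le_mul_of_nonneg_right hM (norm_nonneg _)),
    fun η hη => (h.quad η ((mul_le_mul_of_nonneg_left hM (norm_nonneg _)).trans hη)).trans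
      (mul_le_mul_of_nonneg_right hM (by positivity))⟩

theorem cmp_transv {c C : ℝ} (hc : 0 < c) (hC : 0 < C) {l : E →L[ℂ] ℂ} (hl : ‖l‖ ≤ 1)
    {η v : E} (h0 : l η = 0) (hv : c / 2 ≤ ‖l v‖) (hvC : ‖v‖ ≤ C) (a : ℂ) :
    c / (c + 2 * C) * ‖η‖ ≤ ‖η - a • v‖ := by
  have h1 : ‖a‖ * (c / 2) ≤ ‖η - a • v‖ := by
    have h2 : ‖l (η - a • v)‖ ≤ ‖η - a • v‖ := by
      refine (l.le_opNorm _).trans ?_
      calc ‖l‖ * ‖η - a • v‖ ≤ 1 * ‖η - a • v‖ := mul_le_mul_of_nonneg_right hl (norm_nonneg _)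
        _ = _ := one_mul _
    refine le_trans ?_ h2
    rw [map_sub, h0, zero_sub, norm_neg, map_smul, norm_smul]
    exact mul_le_mul_of_nonneg_left hv (norm_nonneg _)
  have h3 : ‖η‖ ≤ ‖η - a • v‖ + ‖a‖ * C := by
    have h4 : η = (η - a • v) + a • v := by abel
    calc ‖η‖ = ‖(η - a • v) + a • v‖ := by rw [← h4]
      _ ≤ ‖η - a • v‖ + ‖a • v‖ := norm_add_le _ _
      _ ≤ _ := by
        rw [norm_smul]
        gcongr
  rw [div_mul_eq_mul_div, div_le_iff₀ (by positivity)]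
  nlinarith [norm_nonneg a, norm_nonneg (η - a • v), mul_le_mul_of_nonneg_left h1 hC.le]

end pure

section mtch

variable {E X : Type} [NormedAddCommGroup E] [NormedSpace ℂ E] [FiniteDimensional ℂ E]
  [MetricSpace X] [CompactSpace X] {A : Cha E X}

theorem mt_compare {c C lam r₀ C₂ : ℝ} (hU : A.Uni c C lam r₀ C₂) {L k : ℕ} (F : A.Frm L k)
    (hk : 0 < k) {C₃ ρ₀ ρ : ℝ} (hρ : 0 < ρ) (hρ₀ : ρ ≤ ρ₀ / 4) (hr₀ : ρ₀ ≤ r₀) (e : ℝ) (he : 0 < e) :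
    ∃ δ > 0, ∀ g ∈ A.KK c C, ∀ h ∈ A.KK c C, ∀ (s : ℂ → ℂ) (z₀ z₁ : ℂ) (i j : A.ι)
      (l l' : E →L[ℂ] ℂ) (t t' : ℂ → ℂ), ‖z₁ - z₀‖ ≤ ρ / 2 →
        Mt A c C₃ lam r₀ ρ₀ ρ δ g h s z₀ i l t → Mt A c C₃ lam r₀ ρ₀ ρ δ g h s z₁ j l' t' →
          ‖TV (F.T i) (A.loc i g) (A.loc i h) t z₁‖ ≤
            (1 + e) * ‖TV (F.T j) (A.loc j g) (A.loc j h) t' z₁‖ := by
  have hc := hU.c_pos
  have hC := hU.C_pos
  have hr := hU.r₀_pos
  have hlam := hU.lam_pos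
  have hρ₀p : 0 < ρ₀ := by linarith
  obtain ⟨M₀, hM₀, htra₀⟩ := exists_tra A
  obtain ⟨C₃', hC₃'⟩ : ∃ C₃' : ℝ, C₃' = max C₃ 1 := ⟨_, rfl⟩
  have hC₃p : 0 < C₃' := by rw [hC₃']; exact lt_of_lt_of_le one_pos (le_max_right _ _)
  have hC₃le : C₃ ≤ C₃' := by rw [hC₃']; exact le_max_left _ _
  obtain ⟨ρ', hρ'⟩ : ∃ ρ' : ℝ, ρ' = min (ρ / 2) (r₀ / (4 * C₃')) := ⟨_, rfl⟩
  have hρ'p : 0 < ρ' := by rw [hρ']; exact lt_min (by linarith) (by positivity)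
  have hρ'1 : ρ' ≤ ρ / 2 := by rw [hρ']; exact min_le_left _ _
  have hρ'2 : C₃' * ρ' ≤ r₀ / 4 := by
    have : ρ' ≤ r₀ / (4 * C₃') := by rw [hρ']; exact min_le_right _ _
    calc C₃' * ρ' ≤ C₃' * (r₀ / (4 * C₃')) := mul_le_mul_of_nonneg_left this hC₃p.le
      _ = r₀ / 4 := by field_simp
  -- the pure comparison in each chart
  have hpure : ∀ j : A.ι, ∃ ε > 0, ∀ (G H : ℂ → E) (z₀ w₀ : ℂ) (l : E →L[ℂ] ℂ) (t t' : ℂ → ℂ),
      GC c C (max C₂ 0) G z₀ r₀ → GC c C (max C₂ 0) H w₀ r₀ → LO c C₃' ρ₀ r₀ G H z₀ w₀ l t →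
      G z₀ ∈ A.ch j '' closure (A.W j) →
      (∀ z ∈ ball z₀ ρ', AnalyticAt ℂ t' z ∧ t' z ∈ ball w₀ r₀ ∧ ‖H (t' z) - G z‖ ≤ ε) →
      ∀ (ψ : E → E) (ξ η v : E) (D : E →L[ℂ] E), Tra (max M₀ 1) ψ ξ D → ψ ξ = G z₀ →
      ψ (ξ + η) = H (t' z₀) → D v = deriv G z₀ → ‖η‖ ≤ ε →
      (∀ a : ℂ, c / (c + 2 * C) * ‖η‖ ≤ ‖η - a • v‖) →
      ‖F.T j (G z₀) (D η) (D v)‖ ≤ (1 + e) * ‖TV (F.T j) G H t z₀‖ ∧
        ‖TV (F.T j) G H t z₀‖ ≤ (1 + e) * ‖F.T j (G z₀) (D η) (D v)‖ := by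
    intro j
    have hK : IsCompact (A.ch j '' closure (A.W j)) :=
      isClosed_closure.isCompact.image_of_continuousOn
        ((A.ch j).continuousOn.mono (A.W_sub j))
    have hKO : A.ch j '' closure (A.W j) ⊆ (A.ch j).target := by
      rintro _ ⟨x, hx, rfl⟩
      exact (A.ch j).map_source (A.W_sub j hx)
    exact compare_pr (F.tf j) hK hKO hc hC (le_max_right _ _) hC₃p hρ₀p hr₀ hρ'p
      (le_max_right _ _) (by positivity) he
  choose εj hεj hpj using hpure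
  obtain ⟨ε, hε, hεle⟩ : ∃ ε > 0, ∀ j, ε ≤ εj j := by
    have := A.fin
    rcases isEmpty_or_nonempty A.ι with hemp | hne
    · exact ⟨1, one_pos, fun j => (hemp.false j).elim⟩
    · obtain ⟨j₀, hj₀⟩ := Finite.exists_min εj
      exact ⟨εj j₀, hεj j₀, hj₀⟩
  obtain ⟨δ₁, hδ₁, hnc⟩ := near_chart A ε hε
  obtain ⟨ε₂, hε₂, hnm⟩ := near_metric A δ₁ hδ₁
  obtain ⟨δ, hδdef⟩ : ∃ δ : ℝ, δ = min (min (ε₂ / 2) ε) (r₀ / 12) := ⟨_, rfl⟩
  have hδ : 0 < δ := by rw [hδdef]; exact lt_min (lt_min (by linarith) hε) (by linarith)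
  have hδ1 : δ < ε₂ := by
    have : δ ≤ ε₂ / 2 := by rw [hδdef]; exact (min_le_left _ _).trans (min_le_left _ _)
    linarith
  have hδ2 : δ ≤ ε := by rw [hδdef]; exact (min_le_left _ _).trans (min_le_right _ _)
  have hδ3 : δ ≤ r₀ / 12 := by rw [hδdef]; exact min_le_right _ _
  refine ⟨δ, hδ, ?_⟩
  intro g hg h hh s z₀ z₁ i j l l' t t' hz M1 M2
  -- membership
  have hb : ∀ z ∈ ball z₁ ρ', z ∈ ball z₀ ρ := by
    intro z hz'
    rw [mem_ball, dist_eq_norm] at hz' ⊢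
    calc ‖z - z₀‖ = ‖(z - z₁) + (z₁ - z₀)‖ := by ring_nf
      _ ≤ ‖z - z₁‖ + ‖z₁ - z₀‖ := norm_add_le _ _
      _ < ρ := by linarith
  have hb0 : ∀ z ∈ ball z₀ ρ, z ∈ ball z₀ ρ₀ := fun z hz' => ball_subset_ball (by linarith) hz'
  have hgi : ∀ z ∈ ball z₀ ρ, g z ∈ A.W i := by
    intro z hz'
    apply M1.bg
    rw [mem_ball]
    rw [mem_ball, dist_eq_norm] at hz'
    have := hU.stay g hg z z₀ (by linarith)
    linarith
  have hhi : ∀ z ∈ ball z₀ ρ, h (t z) ∈ A.W i := by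
    intro z hz'
    apply M1.bh
    rw [mem_ball]
    have h1 := M1.lo.t_mem z (hb0 z hz')
    rw [mem_ball, dist_eq_norm] at h1
    have := hU.stay h hh (t z) (s z₀) (by linarith)
    linarith
  have hgj : ∀ z ∈ ball z₁ ρ', g z ∈ A.W j := by
    intro z hz'
    apply M2.bg
    rw [mem_ball]
    rw [mem_ball, dist_eq_norm] at hz'
    have := hU.stay g hg z z₁ (by linarith)
    linarith
  have hz₁ : z₁ ∈ ball z₁ ρ' := mem_ball_self hρ'p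
  have hz₁0 : z₁ ∈ ball z₀ ρ := hb z₁ hz₁
  have hz₁00 : z₁ ∈ ball z₀ ρ₀ := hb0 _ hz₁0
  -- distances
  have hdist : ∀ z ∈ ball z₀ ρ, dist (g z) (h (t z)) < δ₁ := by
    intro z hz'
    apply hnm i _ (subset_closure (hgi z hz')) _ (subset_closure (hhi z hz'))
    exact lt_of_le_of_lt (M1.small z hz') hδ1
  have hsmallj : ∀ z ∈ ball z₁ ρ', ‖A.loc j h (t z) - A.loc j g z‖ ≤ εj j := by
    intro z hz'
    have h1 := (hnc j _ (subset_closure (hgj z hz')) (h (t z)) (hdist z (hb z hz'))).2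
    exact h1.le.trans (hεle j)
  have ht'lip : ∀ z ∈ ball z₁ ρ', ‖t' z - t' z₁‖ ≤ C₃' * ‖z - z₁‖ := by
    intro z hz'
    have hzb : z ∈ ball z₁ ρ₀ := ball_subset_ball (by linarith) hz'
    exact (convex_ball z₁ ρ₀).norm_image_sub_le_of_norm_deriv_le
      (fun w hw => (M2.lo.t_an w hw).differentiableAt)
      (fun w hw => (M2.lo.t_der w hw).trans hC₃le) (mem_ball_self hρ₀p) hzb
  have htmem : ∀ z ∈ ball z₁ ρ', t z ∈ ball (s z₁) r₀ := by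
    intro z hz'
    have h1 := M1.ts z (hb z hz')
    have hzρ : z ∈ ball z₁ ρ := ball_subset_ball (by linarith) hz'
    have h2 := M2.ts z hzρ
    have h3 := ht'lip z hz'
    have h4 := M2.ts z₁ (mem_ball_self hρ)
    rw [mem_ball, dist_eq_norm] at hz' ⊢
    have h5 : C₃' * ‖z - z₁‖ ≤ r₀ / 4 :=
      (mul_le_mul_of_nonneg_left hz'.le hC₃p.le).trans hρ'2
    have h6 : t z - s z₁ = (t z - s z) + -(t' z - s z) + (t' z - t' z₁) + (t' z₁ - s z₁) := by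
      ring
    rw [h6]
    have h7 := norm_add_le ((t z - s z) + -(t' z - s z) + (t' z - t' z₁)) (t' z₁ - s z₁)
    have h8 := norm_add_le ((t z - s z) + -(t' z - s z)) (t' z - t' z₁)
    have h9 := norm_add_le (t z - s z) (-(t' z - s z))
    rw [norm_neg] at h9
    linarith
  -- the change of charts at `g z₁`
  have hxi : g z₁ ∈ (A.ch i).source := A.W_sub i (subset_closure (hgi z₁ hz₁0))
  have hxj : g z₁ ∈ (A.ch j).source := A.W_sub j (subset_closure (hgj z₁ hz₁))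
  have hyi : h (t z₁) ∈ (A.ch i).source := A.W_sub i (subset_closure (hhi z₁ hz₁0))
  have hT := cmp_tra (le_max_left M₀ 1)
    (htra₀ i j (g z₁) (subset_closure (hgi z₁ hz₁0)) (subset_closure (hgj z₁ hz₁)))
  have hψ1 : (fun ξ => A.ch j ((A.ch i).symm ξ)) (A.ch i (g z₁)) = A.loc j g z₁ := by
    simp only [Cha.loc]
    rw [(A.ch i).left_inv hxi]
  have hψ2 : (fun ξ => A.ch j ((A.ch i).symm ξ))
      (A.ch i (g z₁) + (A.loc i h (t z₁) - A.loc i g z₁)) = A.loc j h (t z₁) := by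
    simp only [Cha.loc]
    rw [add_sub_cancel, (A.ch i).left_inv hyi]
  have hder : fderiv ℂ (fun ξ => A.ch j ((A.ch i).symm ξ)) (A.ch i (g z₁))
      (deriv (A.loc i g) z₁) = deriv (A.loc j g) z₁ := by
    have hhol := hg.1 z₁
    have hev : A.loc j g =ᶠ[𝓝 z₁] (fun ξ => A.ch j ((A.ch i).symm ξ)) ∘ (A.loc i g) := by
      have := hhol.1.eventually ((A.ch i).open_source.mem_nhds hxi)
      filter_upwards [this] with z hz'
      simp only [Cha.loc, Function.comp_apply]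
      rw [(A.ch i).left_inv hz']
    have h1 : HasDerivAt (A.loc i g) (deriv (A.loc i g) z₁) z₁ :=
      (hhol.2 i hxi).differentiableAt.hasDerivAt
    have h2 := (HasFDerivAt.comp_hasDerivAt z₁ (l := fun ξ => A.ch j ((A.ch i).symm ξ))
      (l' := fderiv ℂ (fun ξ => A.ch j ((A.ch i).symm ξ)) (A.ch i (g z₁)))
      (f := A.loc i g) hT.d h1)
    have h3 := h2.congr_of_eventuallyEq hev
    exact h3.deriv.symm
  have hGC1 := hU.gc g hg i z₀ ((ball_subset_ball (by linarith)).trans M1.bg)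
  have htr : ∀ a : ℂ, c / (c + 2 * C) * ‖A.loc i h (t z₁) - A.loc i g z₁‖ ≤
      ‖A.loc i h (t z₁) - A.loc i g z₁ - a • deriv (A.loc i g) z₁‖ := by
    apply cmp_transv hc hC M1.lo.l_le
    · rw [map_sub, M1.lo.eq z₁ hz₁00, sub_self]
    · exact M1.lo.low z₁ hz₁00
    · exact hGC1.up z₁ (ball_subset_ball hr₀ hz₁00)
  have hGC := hU.gc g hg j z₁ ((ball_subset_ball (by linarith)).trans M2.bg)
  have hGCh := hU.gc h hh j (s z₁) M2.bh
  have hfin := (hpj j (A.loc j g) (A.loc j h) z₁ (s z₁) l' t' t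
    (cmp_gc (le_max_left _ _) hGC) (cmp_gc (le_max_left _ _) hGCh) (cmp_lo hC₃le M2.lo)
    ⟨g z₁, subset_closure (hgj z₁ hz₁), rfl⟩
    (fun z hz' => ⟨M1.lo.t_an z (hb0 z (hb z hz')), htmem z hz', hsmallj z hz'⟩)
    (fun ξ => A.ch j ((A.ch i).symm ξ)) (A.ch i (g z₁))
    (A.loc i h (t z₁) - A.loc i g z₁) (deriv (A.loc i g) z₁) _ hT hψ1 hψ2 hder
    ((M1.small z₁ hz₁0).trans (hδ2.trans (hεle j))) htr).1
  have hcompat := F.compat i j (g z₁) hxi hxj (A.loc i h (t z₁) - A.loc i g z₁)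
    (deriv (A.loc i g) z₁)
  have : TV (F.T i) (A.loc i g) (A.loc i h) t z₁ = F.T i (A.ch i (g z₁))
    (A.loc i h (t z₁) - A.loc i g z₁) (deriv (A.loc i g) z₁) := rfl
  rw [this, hcompat]
  exact hfin

end mtch

end Pool.Agent.BR
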