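import Pool.Agent.Lib_helper82.BR.Mt
import Pool.Agent.Lib_helper26.BR.Forms
import Pool.Agent.Lib_helper26.BR.TV

/-! # BR, block STR: the displacement vector of a match (MP_45e720_ag) -/

set_option autoImplicit false
set_option linter.unusedSectionVars false

open Filter Topology Metric Set
open scoped Manifold ContDiff

namespace Pool.Agent.BR

theorem str_min {ι : Type} [Finite ι] (f : ι → ℝ) (hf : ∀ i, 0 < f i) :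
    ∃ κ > 0, ∀ i, κ ≤ f i := by
  rcases isEmpty_or_nonempty ι with h | h
  · exact ⟨1, one_pos, fun i => (h.false i).elim⟩
  · obtain ⟨i₀, hi₀⟩ := Finite.exists_min f
    exact ⟨f i₀, hf i₀, hi₀⟩

section mtch

variable {E X : Type} [NormedAddCommGroup E] [NormedSpace ℂ E] [FiniteDimensional ℂ E]
  [MetricSpace X] [CompactSpace X] {A : Cha E X}

theorem str_K (A : Cha E X) (i : A.ι) : IsCompact (A.ch i '' closure (A.W i)) ∧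
    A.ch i '' closure (A.W i) ⊆ (A.ch i).target := by
  refine ⟨(isClosed_closure.isCompact).image_of_continuousOn
    ((A.ch i).continuousOn.mono (A.W_sub i)), ?_⟩
  rintro _ ⟨x, hx, rfl⟩
  exact (A.ch i).map_source (A.W_sub i hx)

theorem str_g {c C lam r₀ C₂ : ℝ} (hU : A.Uni c C lam r₀ C₂) {ρ₀ : ℝ} (hr₀ : ρ₀ ≤ r₀)
    {g : ℂ → X} (hg : g ∈ A.KK c C) {z₀ z : ℂ} {i : A.ι} (hb : ball (g z₀) lam ⊆ A.W i)
    (hz : z ∈ ball z₀ ρ₀) : g z ∈ A.W i := by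
  have h1 : ‖z - z₀‖ < 2 * r₀ := by
    rw [mem_ball, dist_eq_norm] at hz
    have := hU.r₀_pos
    linarith
  have h2 := hU.stay g hg z z₀ h1
  refine hb ?_
  rw [mem_ball]
  have := hU.lam_pos
  linarith

theorem str_h {c C lam r₀ C₂ : ℝ} (hU : A.Uni c C lam r₀ C₂)
    {h : ℂ → X} (hh : h ∈ A.KK c C) {w₀ w : ℂ} {i : A.ι} (hb : ball (h w₀) (lam / 2) ⊆ A.W i)
    (hw : w ∈ ball w₀ r₀) : h w ∈ A.W i := by
  have h1 : ‖w - w₀‖ < 2 * r₀ := by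
    rw [mem_ball, dist_eq_norm] at hw
    have := hU.r₀_pos
    linarith
  have h2 := hU.stay h hh w w₀ h1
  refine hb ?_
  rw [mem_ball]
  have := hU.lam_pos
  linarith

theorem str_gcg {c C lam r₀ C₂ : ℝ} (hU : A.Uni c C lam r₀ C₂) {g : ℂ → X} (hg : g ∈ A.KK c C)
    {z₀ : ℂ} {i : A.ι} (hb : ball (g z₀) lam ⊆ A.W i) : GC c C C₂ (A.loc i g) z₀ r₀ := by
  refine hU.gc g hg i z₀ ((ball_subset_ball ?_).trans hb)
  have := hU.lam_pos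
  linarith

theorem str_tv {c C lam r₀ C₂ : ℝ} (hU : A.Uni c C lam r₀ C₂) {L k : ℕ} (F : A.Frm L k)
    {C₃ ρ₀ ρ δ : ℝ} (hr₀ : ρ₀ ≤ r₀) {g h : ℂ → X} (hg : g ∈ A.KK c C) (hh : h ∈ A.KK c C)
    {s : ℂ → ℂ} {z₀ : ℂ} {i : A.ι} {l : E →L[ℂ] ℂ} {t : ℂ → ℂ}
    (hM : Mt A c C₃ lam r₀ ρ₀ ρ δ g h s z₀ i l t) {z : ℂ} (hz : z ∈ ball z₀ ρ₀) :
    AnalyticAt ℂ (TV (F.T i) (A.loc i g) (A.loc i h) t) z ∧
      HasDerivAt (TV (F.T i) (A.loc i g) (A.loc i h) t)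
      (fderiv ℂ (fun p : E × E × E => F.T i p.1 p.2.1 p.2.2) (A.loc i g z,
        A.loc i h (t z) - A.loc i g z, deriv (A.loc i g) z)
        (deriv (A.loc i g) z, deriv (fun z => A.loc i h (t z) - A.loc i g z) z,
          deriv (deriv (A.loc i g)) z)) z := by
  refine tv_an (F.tf i) hr₀ (str_gcg hU hg hM.bg) (hU.gc h hh i (s z₀) hM.bh) hM.lo hz ?_
  exact (A.ch i).map_source (A.W_sub i (subset_closure (str_g hU hr₀ hg hM.bg hz)))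

theorem mt_an {c C lam r₀ C₂ : ℝ} (hU : A.Uni c C lam r₀ C₂) {L k : ℕ} (F : A.Frm L k)
    {C₃ ρ₀ ρ δ : ℝ} (hr₀ : ρ₀ ≤ r₀) {g h : ℂ → X} (hg : g ∈ A.KK c C) (hh : h ∈ A.KK c C)
    {s : ℂ → ℂ} {z₀ : ℂ} {i : A.ι} {l : E →L[ℂ] ℂ} {t : ℂ → ℂ}
    (hM : Mt A c C₃ lam r₀ ρ₀ ρ δ g h s z₀ i l t) :
    ∀ z ∈ ball z₀ ρ₀, AnalyticAt ℂ (TV (F.T i) (A.loc i g) (A.loc i h) t) z :=
  fun _ hz => (str_tv hU F hr₀ hg hh hM hz).1

theorem mt_strict {c C lam r₀ C₂ : ℝ} (hU : A.Uni c C lam r₀ C₂) {L k : ℕ} (F : A.Frm L k)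
    (hk : 0 < k) {C₃ ρ₀ ρ : ℝ} (hρ : 0 < ρ) (hρ₀ : ρ ≤ ρ₀ / 4) (hr₀ : ρ₀ ≤ r₀) :
    ∃ κ > 0, ∀ δ : ℝ, ∀ g ∈ A.KK c C, ∀ h ∈ A.KK c C, ∀ (s : ℂ → ℂ) (z₀ : ℂ) (i : A.ι)
      (l : E →L[ℂ] ℂ) (t : ℂ → ℂ), Mt A c C₃ lam r₀ ρ₀ ρ δ g h s z₀ i l t → ∀ m : ℂ,
        κ * ‖TV (F.T i) (A.loc i g) (A.loc i h) t z₀‖ ≤
          ‖deriv (TV (F.T i) (A.loc i g) (A.loc i h) t) z₀ -
            m • TV (F.T i) (A.loc i g) (A.loc i h) t z₀‖ := by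
  have hc := hU.c_pos
  have hC := hU.C_pos
  have := A.fin
  choose κ hκ0 hκ using fun i : A.ι => imm_unif_pr (F.tf i) (A.ch i).open_target hk (str_K A i).1
    (str_K A i).2 (c := c) (C := C) (C₂ := C₂) (c₀ := c / (c + 2 * C)) hc (by positivity)
  obtain ⟨κ', hκ', hle⟩ := str_min κ hκ0
  refine ⟨κ', hκ', fun δ g hg h hh s z₀ i l t hM m => ?_⟩
  have hρ0 : 0 < ρ₀ := by linarith
  have hz : z₀ ∈ ball z₀ ρ₀ := mem_ball_self hρ0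
  have hz' : z₀ ∈ ball z₀ r₀ := mem_ball_self hU.r₀_pos
  have hG := str_gcg hU hg hM.bg
  have hmem : A.loc i g z₀ ∈ A.ch i '' closure (A.W i) :=
    ⟨g z₀, subset_closure (str_g hU hr₀ hg hM.bg hz), rfl⟩
  rw [(str_tv hU F hr₀ hg hh hM hz).2.deriv]
  refine (mul_le_mul_of_nonneg_right (hle i) (norm_nonneg _)).trans ?_
  exact hκ i (A.loc i g z₀) hmem (A.loc i h (t z₀) - A.loc i g z₀) (deriv (A.loc i g) z₀) _ _
    (hG.lo z₀ hz') (hG.up z₀ hz') (hG.acc z₀ hz') (fun a => hM.lo.transv hc hC hG hr₀ hz a) m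

/-- ZER: zeros of the displacement vector -/
theorem mt_zero {c C lam r₀ C₂ : ℝ} (hU : A.Uni c C lam r₀ C₂) {L k : ℕ} (F : A.Frm L k)
    (hk : 0 < k) {C₃ ρ₀ ρ δ : ℝ} (hr₀ : ρ₀ ≤ r₀) {g h : ℂ → X} (hg : g ∈ A.KK c C)
    (hh : h ∈ A.KK c C) {s : ℂ → ℂ} {z₀ : ℂ} {i : A.ι} {l : E →L[ℂ] ℂ} {t : ℂ → ℂ}
    (hM : Mt A c C₃ lam r₀ ρ₀ ρ δ g h s z₀ i l t) {z : ℂ} (hz : z ∈ ball z₀ ρ₀)
    (h0 : TV (F.T i) (A.loc i g) (A.loc i h) t z = 0) : h (t z) = g z := by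
  have hc := hU.c_pos
  have hC := hU.C_pos
  have hz' : z ∈ ball z₀ r₀ := ball_subset_ball hr₀ hz
  have hG := str_gcg hU hg hM.bg
  have hgW := str_g hU hr₀ hg hM.bg hz
  have hhW := str_h hU hh hM.bh (hM.lo.t_mem z hz)
  have h1 : A.loc i h (t z) - A.loc i g z = 0 :=
    tv_zero_pr (F.tf i) ((A.ch i).map_source (A.W_sub i (subset_closure hgW)))
      (c := c) (c₀ := c / (c + 2 * C)) hc (by positivity) (hG.lo z hz')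
      (fun a => hM.lo.transv hc hC hG hr₀ hz a) h0
  exact (A.ch i).injOn (A.W_sub i (subset_closure hhW)) (A.W_sub i (subset_closure hgW))
    (sub_eq_zero.1 h1)

/-- BDT: bound of the displacement vector -/
theorem mt_bound {c C lam r₀ C₂ : ℝ} (hU : A.Uni c C lam r₀ C₂) {L k : ℕ} (F : A.Frm L k)
    {C₃ ρ₀ ρ : ℝ} (hρ : 0 < ρ) (hρ₀ : ρ ≤ ρ₀ / 4) (hr₀ : ρ₀ ≤ r₀) :
    ∃ B : ℝ, ∀ δ : ℝ, δ ≤ 1 → ∀ g ∈ A.KK c C, ∀ h ∈ A.KK c C, ∀ (s : ℂ → ℂ) (z₀ : ℂ) (i : A.ι)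
      (l : E →L[ℂ] ℂ) (t : ℂ → ℂ), Mt A c C₃ lam r₀ ρ₀ ρ δ g h s z₀ i l t →
        ‖TV (F.T i) (A.loc i g) (A.loc i h) t z₀‖ ≤ B := by
  have := A.fin
  choose B hB using fun i : A.ι => tv_upper_pr (F.tf i) (str_K A i).1 (str_K A i).2
    (C := max 1 C)
  obtain ⟨B', hB'⟩ := (Set.finite_range B).bddAbove
  refine ⟨B', fun δ hδ g hg h hh s z₀ i l t hM => ?_⟩
  have hρ0 : 0 < ρ₀ := by linarith
  have hz : z₀ ∈ ball z₀ ρ₀ := mem_ball_self hρ0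
  have hz' : z₀ ∈ ball z₀ r₀ := mem_ball_self hU.r₀_pos
  have hG := str_gcg hU hg hM.bg
  have hmem : A.loc i g z₀ ∈ A.ch i '' closure (A.W i) :=
    ⟨g z₀, subset_closure (str_g hU hr₀ hg hM.bg hz), rfl⟩
  refine (hB i (A.loc i g z₀) hmem (A.loc i h (t z₀) - A.loc i g z₀) (deriv (A.loc i g) z₀)
    ?_ ?_).trans (hB' (mem_range_self i))
  · exact ((hM.small z₀ (mem_ball_self hρ)).trans hδ).trans (le_max_left _ _)
  · exact (hG.up z₀ hz').trans (le_max_right _ _)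

end mtch

end Pool.Agent.BR
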