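import Pool.Agent.Lib_helper82.BR.Mt
import Pool.Agent.Lib_helper82.BR.B.HOL
import Pool.Agent.Lib_helper82.BR.B.LIM

/-! Block HSC (helper90): Brody curves of constant speed on manifolds of nonpositive curvature
(MP_45e720_ag). -/

set_option autoImplicit false
set_option linter.unusedSectionVars false

open Filter Topology Metric Set
open scoped Manifold ContDiff

namespace Pool.Agent.BR

/-- a continuous function which is at most `S` and has average at least `S` on a circle -/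
theorem hsc_circle {v : ℂ → ℝ} (hv : Continuous v) {S : ℝ} (hle : ∀ z, v z ≤ S)
    (h : ∀ r : ℝ, 0 < r → S ≤ Real.circleAverage v 0 r) (h0 : v 0 = S) (z : ℂ) : v z = S := by
  rcases eq_or_ne z 0 with rfl | hz
  · exact h0
  have hr : 0 < ‖z‖ := norm_pos_iff.2 hz
  by_contra hne
  have hlt : v z < S := lt_of_le_of_ne (hle z) hne
  have h1 := h ‖z‖ hr
  rw [Real.circleAverage_def] at h1
  have hpi : (0 : ℝ) < 2 * Real.pi := by positivity
  have hcont : Continuous (fun θ : ℝ => S - v (circleMap 0 ‖z‖ θ)) :=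
    continuous_const.sub (hv.comp (continuous_circleMap 0 ‖z‖))
  have hcont2 : Continuous (fun θ : ℝ => v (circleMap 0 ‖z‖ θ)) :=
    hv.comp (continuous_circleMap 0 ‖z‖)
  obtain ⟨θ, hθ, hθz⟩ : ∃ θ ∈ Icc (0 : ℝ) (2 * Real.pi), circleMap 0 ‖z‖ θ = z := by
    have h2 : z ∈ circleMap 0 ‖z‖ '' Ioc 0 (2 * Real.pi) := by
      rw [image_circleMap_Ioc, mem_sphere_zero_iff_norm, abs_of_pos hr]
    obtain ⟨θ, hθ, h3⟩ := h2
    exact ⟨θ, Ioc_subset_Icc_self hθ, h3⟩
  have h2 : 0 < ∫ θ in (0 : ℝ)..(2 * Real.pi), (S - v (circleMap 0 ‖z‖ θ)) := by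
    refine intervalIntegral.integral_pos hpi hcont.continuousOn (fun θ _ => ?_) ⟨θ, hθ, ?_⟩
    · exact sub_nonneg.2 (hle _)
    · rw [hθz]
      exact sub_pos.2 hlt
  rw [intervalIntegral.integral_sub (by simp) (hcont2.intervalIntegrable _ _),
    intervalIntegral.integral_const] at h2
  rw [smul_eq_mul] at h1 h2
  rw [inv_mul_eq_div, le_div_iff₀ hpi] at h1
  nlinarith

section manifold

variable {E X : Type} [NormedAddCommGroup E] [NormedSpace ℂ E] [FiniteDimensional ℂ E]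
  [MetricSpace X] [CompactSpace X] [ChartedSpace E X] [IsManifold 𝓘(ℂ, E) ω X]

theorem hsc_chart (y : X) (p : TangentBundle 𝓘(ℂ, E) X) :
    chartAt (ModelProd E E) (⟨y, 0⟩ : TangentBundle 𝓘(ℂ, E) X) p =
      (chartAt E y p.1, tangentCoordChange 𝓘(ℂ, E) p.1 y p.1 p.2) := rfl

theorem hsc_coord (y : X) (f : ℂ → X) (z : ℂ) (hf : MDifferentiableAt 𝓘(ℂ, ℂ) 𝓘(ℂ, E) f z)
    (hz : f z ∈ (chartAt E y).source) : deriv (fun w => chartAt E y (f w)) z =
      (chartAt (ModelProd E E) (⟨y, 0⟩ : TangentBundle 𝓘(ℂ, E) X) (velocity (E := E) f z)).2 := by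
  have : IsManifold 𝓘(ℂ, E) 1 X := IsManifold.of_le (n := ω) le_top
  rw [hsc_chart]
  have h1 : MDifferentiableAt 𝓘(ℂ, E) 𝓘(ℂ, E) (chartAt E y) (f z) :=
    mdifferentiableAt_atlas (I := 𝓘(ℂ, E)) (chart_mem_atlas E y) hz
  have h2 := mfderiv_comp z h1 hf
  have h3 := mfderiv_chartAt_eq_tangentCoordChange (I := 𝓘(ℂ, E)) hz
  rw [h3] at h2
  have h4 : (chartAt E y ∘ f) = fun w => chartAt E y (f w) := rfl
  rw [h4, mfderiv_eq_fderiv] at h2
  have h5 := congrArg (fun L : ℂ →L[ℂ] E => L 1) h2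
  simp only [fderiv_apply_one_eq_deriv] at h5
  exact h5

/-- the metric in the chart `y` -/
noncomputable def hsc_n (N : TangentBundle 𝓘(ℂ, E) X → ℝ) (y : X) (ξ w : E) : ℝ :=
  N ((chartAt (ModelProd E E) (⟨y, 0⟩ : TangentBundle 𝓘(ℂ, E) X)).symm (ξ, w))

theorem hsc_src (y : X) (p : TangentBundle 𝓘(ℂ, E) X) :
    p ∈ (chartAt (ModelProd E E) (⟨y, 0⟩ : TangentBundle 𝓘(ℂ, E) X)).source ↔
      p.1 ∈ (chartAt E y).source :=
  TangentBundle.mem_chart_source_iff _ _

theorem hsc_tgt (y : X) (ξ w : E) (hξ : ξ ∈ (chartAt E y).target) :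
    ((ξ, w) : ModelProd E E) ∈
      (chartAt (ModelProd E E) (⟨y, 0⟩ : TangentBundle 𝓘(ℂ, E) X)).target := by
  rw [TangentBundle.mem_chart_target_iff]
  exact hξ

theorem hsc_n_cont {N : TangentBundle 𝓘(ℂ, E) X → ℝ} (hN : Continuous N) (y : X) :
    ContinuousOn (fun q : E × E => hsc_n N y q.1 q.2) ((chartAt E y).target ×ˢ univ) := by
  have h := (chartAt (ModelProd E E) (⟨y, 0⟩ : TangentBundle 𝓘(ℂ, E) X)).continuousOn_symm
  refine hN.comp_continuousOn (h.mono ?_)
  rintro ⟨ξ, w⟩ ⟨hξ, -⟩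
  exact hsc_tgt y ξ w hξ

theorem hsc_n_smul {N : TangentBundle 𝓘(ℂ, E) X → ℝ}
    (hN : ∀ (x : X) (a : ℂ) (v : E), N ⟨x, a • v⟩ = ‖a‖ * N ⟨x, v⟩) (y : X) {ξ : E}
    (hξ : ξ ∈ (chartAt E y).target) (a : ℂ) (w : E) :
    hsc_n N y ξ (a • w) = ‖a‖ * hsc_n N y ξ w := by
  set Φ := chartAt (ModelProd E E) (⟨y, 0⟩ : TangentBundle 𝓘(ℂ, E) X) with hΦ
  have key : ∀ p : TangentBundle 𝓘(ℂ, E) X, Φ p = (ξ, w) → p ∈ Φ.source →
      hsc_n N y ξ (a • w) = ‖a‖ * hsc_n N y ξ w := by
    rintro ⟨x, v⟩ h2 h1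
    have h3 : Φ.symm (ξ, w) = (⟨x, v⟩ : TangentBundle 𝓘(ℂ, E) X) := by
      rw [← h2]
      exact Φ.left_inv h1
    have h4 : Φ (⟨x, (a • (show E from v) : E)⟩ : TangentBundle 𝓘(ℂ, E) X) = (ξ, a • w) := by
      rw [hΦ, hsc_chart] at h2 ⊢
      have e1 : chartAt E y x = ξ := congrArg Prod.fst h2
      have e2 : tangentCoordChange 𝓘(ℂ, E) x y x (show E from v) = w := congrArg Prod.snd h2
      refine Prod.ext e1 ?_
      show tangentCoordChange 𝓘(ℂ, E) x y x (a • (show E from v)) = a • w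
      rw [map_smul, e2]
    have h5 : (⟨x, (a • (show E from v) : E)⟩ : TangentBundle 𝓘(ℂ, E) X) ∈ Φ.source := by
      rw [hΦ, hsc_src] at h1 ⊢
      exact h1
    have h6 : Φ.symm (ξ, a • w) =
        (⟨x, (a • (show E from v) : E)⟩ : TangentBundle 𝓘(ℂ, E) X) := by
      rw [← h4]
      exact Φ.left_inv h5
    unfold hsc_n
    rw [← hΦ, h3, h6]
    exact hN x a v
  exact key _ (Φ.right_inv (hsc_tgt y ξ w hξ)) (Φ.map_target (hsc_tgt y ξ w hξ))

/-- the speed in the chart `y` -/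
theorem hsc_speed (N : TangentBundle 𝓘(ℂ, E) X → ℝ) (y : X) (f : ℂ → X) (z : ℂ)
    (hf : MDifferentiableAt 𝓘(ℂ, ℂ) 𝓘(ℂ, E) f z) (hz : f z ∈ (chartAt E y).source) :
    N (velocity (E := E) f z) =
      hsc_n N y (chartAt E y (f z)) (deriv (fun w => chartAt E y (f w)) z) := by
  set Φ := chartAt (ModelProd E E) (⟨y, 0⟩ : TangentBundle 𝓘(ℂ, E) X) with hΦ
  have h1 : velocity (E := E) f z ∈ Φ.source := by
    rw [hΦ, hsc_src]
    exact hz
  have h2 : Φ (velocity (E := E) f z) =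
      (chartAt E y (f z), deriv (fun w => chartAt E y (f w)) z) := by
    refine Prod.ext rfl ?_
    exact (hsc_coord y f z hf hz).symm
  unfold hsc_n
  rw [← hΦ, ← h2, Φ.left_inv h1]

/-- the metric is bounded on the cores -/
theorem hsc_bd (A : Cha E X) {y : A.ι → X} (hy : ∀ i, A.ch i = chartAt E (y i))
    {N : TangentBundle 𝓘(ℂ, E) X → ℝ} (hN : Continuous N) (R : ℝ) :
    ∃ B > 0, ∀ i, ∀ x ∈ A.W i, ∀ w : E, ‖w‖ ≤ R → hsc_n N (y i) (A.ch i x) w ≤ B := by
  have : ProperSpace E := FiniteDimensional.proper ℂ E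
  have h1 : ∀ i, ∃ B : ℝ, ∀ x ∈ A.W i, ∀ w : E, ‖w‖ ≤ R → hsc_n N (y i) (A.ch i x) w ≤ B := by
    intro i
    have hK : IsCompact (A.ch i '' closure (A.W i)) :=
      (isClosed_closure.isCompact).image_of_continuousOn
        ((A.ch i).continuousOn.mono (A.W_sub i))
    have hK2 : IsCompact ((A.ch i '' closure (A.W i)) ×ˢ closedBall (0 : E) R) :=
      hK.prod (isCompact_closedBall 0 R)
    have hsub : ((A.ch i '' closure (A.W i)) ×ˢ closedBall (0 : E) R) ⊆
        ((chartAt E (y i)).target ×ˢ univ) := by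
      rintro ⟨ξ, w⟩ ⟨⟨x, hx, rfl⟩, _⟩
      refine ⟨?_, mem_univ _⟩
      rw [← hy i]
      exact (A.ch i).map_source (A.W_sub i hx)
    obtain ⟨B, hB⟩ := hK2.exists_bound_of_continuousOn ((hsc_n_cont hN (y i)).mono hsub)
    refine ⟨B, fun x hx w hw => ?_⟩
    have h2 := hB (A.ch i x, w) ⟨⟨x, subset_closure hx, rfl⟩, by rwa [mem_closedBall_zero_iff]⟩
    exact (le_abs_self _).trans h2
  choose B hB using h1
  have := A.fin
  obtain ⟨B', hB'⟩ := (Set.finite_range B).bddAbove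
  refine ⟨max B' 1, lt_max_of_lt_right one_pos, fun i x hx w hw => ?_⟩
  exact (hB i x hx w hw).trans ((hB' (mem_range_self i)).trans (le_max_left _ _))

theorem hsc_hol_tr (A : Cha E X) {f : ℂ → X} (hf : ∀ t, A.HolAt f t) (a t : ℂ) :
    A.HolAt (fun z => f (z + a)) t := by
  refine ⟨?_, fun i hi => ?_⟩
  · have h1 : ContinuousAt (fun z : ℂ => z + a) t := by fun_prop
    exact ContinuousAt.comp (g := f) (hf (t + a)).1 h1
  · have h1 := (hf (t + a)).2 i hi
    have h2 : AnalyticAt ℂ (fun z : ℂ => z + a) t := by fun_prop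
    exact h1.comp (f := fun z : ℂ => z + a) h2

theorem hsc_deriv_tr (A : Cha E X) (f : ℂ → X) (i : A.ι) (a t : ℂ) :
    deriv (A.loc i (fun z => f (z + a))) t = deriv (A.loc i f) (t + a) := by
  have h : A.loc i (fun z => f (z + a)) = fun z => A.loc i f (z + a) := rfl
  rw [h, deriv_comp_add_const]

/-- a curve whose chart derivatives vanish is constant -/
theorem hsc_const (A : Cha E X) {f : ℂ → X} (hf : ∀ t, A.HolAt f t)
    (h0 : ∀ z i, f z ∈ (A.ch i).source → deriv (A.loc i f) z = 0) (z z' : ℂ) : f z = f z' := by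
  have hcont : Continuous f := continuous_iff_continuousAt.2 fun t => (hf t).1
  have hloc : IsLocallyConstant f := by
    rw [IsLocallyConstant.iff_eventually_eq]
    intro z
    obtain ⟨i, hi⟩ := A.cover (f z)
    have hi' : f z ∈ (A.ch i).source := A.W_sub i (subset_closure hi)
    have hopen : IsOpen (f ⁻¹' (A.ch i).source) := (A.ch i).open_source.preimage hcont
    obtain ⟨r, hr, hball⟩ := Metric.isOpen_iff.1 hopen z hi'
    have hmem : ball z r ∈ 𝓝 z := ball_mem_nhds z hr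
    filter_upwards [hmem] with w hw
    have h1 : A.loc i f w = A.loc i f z := by
      refine isOpen_ball.is_const_of_deriv_eq_zero (convex_ball z r).isPreconnected ?_ ?_ hw
        (mem_ball_self hr)
      · intro t ht
        exact ((hf t).2 i (hball ht)).differentiableAt.differentiableWithinAt
      · intro t ht
        exact h0 t i (hball ht)
    exact (A.ch i).injOn (hball hw) hi' h1
  exact hloc.apply_eq_of_preconnectedSpace z z'

/-- HSC: on a manifold of nonpositive curvature there is a Brody curve of constant speed -/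
theorem exists_immersed (A : Cha E X) (hA : ∀ i, ∃ y, A.ch i = chartAt E y)
    (hN : NonposCurved E X) (f : ℂ → X) (hf : ∀ t, A.HolAt f t) (C : ℝ)
    (hC : ∀ z i, f z ∈ A.W i → ‖deriv (A.loc i f) z‖ ≤ C) (hne : ∃ z z', f z ≠ f z') :
    ∃ g : ℂ → X, (∃ z z', g z ≠ g z') ∧ ∃ c > 0, ∃ C' > 0, g ∈ A.KK c C' := by
  have hA' := hA
  choose y hy using hA
  obtain ⟨N, hF, hsub⟩ := hN
  have hsrc : ∀ {h : ℂ → X} {i z}, h z ∈ A.W i → h z ∈ (A.ch i).source :=
    fun h => A.W_sub _ (subset_closure h)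
  -- the speed in the charts
  have hvel : ∀ h : ℂ → X, (∀ t, A.HolAt h t) → ∀ i z, h z ∈ (A.ch i).source →
      N (velocity (E := E) h z) = hsc_n N (y i) (A.ch i (h z)) (deriv (A.loc i h) z) := by
    intro h hh i z hz
    have hm : MDifferentiable 𝓘(ℂ, ℂ) 𝓘(ℂ, E) h := (holAt_iff A hA' h).2 hh
    have hloc : A.loc i h = fun z => chartAt E (y i) (h z) := by
      funext z
      rw [Cha.loc, hy i]
    rw [hloc, hy i]
    exact hsc_speed N (y i) h z (hm z) (by rw [← hy i]; exact hz)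
  have hvcont : ∀ h : ℂ → X, (∀ t, A.HolAt h t) →
      Continuous (fun z => N (velocity (E := E) h z)) := by
    intro h hh
    have hcont : Continuous h := continuous_iff_continuousAt.2 fun t => (hh t).1
    rw [continuous_iff_continuousAt]
    intro z
    obtain ⟨i, hi⟩ := A.cover (h z)
    have h1 : ∀ᶠ z' in 𝓝 z, h z' ∈ (A.ch i).source :=
      hcont.continuousAt.eventually ((A.ch i).open_source.mem_nhds (hsrc hi))
    have h2 : (fun z => N (velocity (E := E) h z)) =ᶠ[𝓝 z]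
        fun z => hsc_n N (y i) (A.loc i h z) (deriv (A.loc i h) z) := by
      filter_upwards [h1] with z' hz'
      exact hvel h hh i z' hz'
    have h3 : AnalyticAt ℂ (A.loc i h) z := (hh z).2 i (hsrc hi)
    have h4 : ContinuousAt (fun q : E × E => hsc_n N (y i) q.1 q.2)
        ((fun z => (A.loc i h z, deriv (A.loc i h) z)) z) := by
      refine (hsc_n_cont hF.cont (y i)).continuousAt ?_
      refine ((chartAt E (y i)).open_target.prod isOpen_univ).mem_nhds ⟨?_, mem_univ _⟩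
      rw [← hy i]
      exact (A.ch i).map_source (hsrc hi)
    refine ContinuousAt.congr ?_ h2.symm
    exact ContinuousAt.comp (g := fun q : E × E => hsc_n N (y i) q.1 q.2)
      (f := fun z => (A.loc i h z, deriv (A.loc i h) z)) h4
      (h3.continuousAt.prodMk h3.deriv.continuousAt)
  obtain ⟨B, hB0, hB⟩ := hsc_bd A hy hF.cont (max C 1)
  -- the supremum of the speed of `f`
  have hbdd : BddAbove (range fun z => N (velocity (E := E) f z)) := by
    refine ⟨B, ?_⟩
    rintro _ ⟨z, rfl⟩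
    obtain ⟨i, hi⟩ := A.cover (f z)
    show N (velocity (E := E) f z) ≤ B
    rw [hvel f hf i z (hsrc hi)]
    exact hB i (f z) hi _ ((hC z i hi).trans (le_max_left _ _))
  set S : ℝ := sSup (range fun z => N (velocity (E := E) f z)) with hS
  have hle : ∀ z, N (velocity (E := E) f z) ≤ S := fun z => le_csSup hbdd ⟨z, rfl⟩
  have hN0 : ∀ (x : X) (v : E), 0 ≤ N ⟨x, v⟩ := by
    intro x v
    rcases eq_or_ne v 0 with rfl | hv
    · have := hF.homog x 0 0
      rw [smul_zero, norm_zero, zero_mul] at this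
      exact this.ge
    · exact (hF.pos x v hv).le
  have hS0 : 0 < S := by
    by_contra hcon
    rw [not_lt] at hcon
    obtain ⟨z, z', hzz⟩ := hne
    refine hzz (hsc_const A hf (fun z i hz => ?_) z z')
    have h1 : (mfderiv 𝓘(ℂ, ℂ) 𝓘(ℂ, E) f z (1 : ℂ) : E) = 0 := by
      by_contra h2
      exact absurd (hF.pos (f z) _ h2) (not_lt.2 ((hle z).trans hcon))
    have hm : MDifferentiable 𝓘(ℂ, ℂ) 𝓘(ℂ, E) f := (holAt_iff A hA' f).2 hf
    have hloc : A.loc i f = fun z => chartAt E (y i) (f z) := by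
      funext z
      rw [Cha.loc, hy i]
    rw [hloc, hsc_coord (y i) f z (hm z) (by rw [← hy i]; exact hz), hsc_chart]
    show tangentCoordChange 𝓘(ℂ, E) (f z) (y i) (f z)
      (mfderiv 𝓘(ℂ, ℂ) 𝓘(ℂ, E) f z (1 : ℂ) : E) = 0
    rw [h1]
    exact (tangentCoordChange 𝓘(ℂ, E) (f z) (y i) (f z)).map_zero
  have hseq : ∀ n : ℕ, ∃ z, S - 1 / ((n : ℝ) + 1) < N (velocity (E := E) f z) := by
    intro n
    have h1 : S - 1 / ((n : ℝ) + 1) < S := by
      have : 0 < 1 / ((n : ℝ) + 1) := by positivity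
      linarith
    obtain ⟨_, ⟨z, rfl⟩, hz⟩ := exists_lt_of_lt_csSup (range_nonempty _) h1
    exact ⟨z, hz⟩
  choose a ha using hseq
  -- the limit
  set U : Ultrafilter ℕ := hyperfilter ℕ with hU
  have hUtop : (U : Filter ℕ) ≤ atTop := Nat.hyperfilter_le_atTop
  obtain ⟨g, hg⟩ := ultra_lim A U (fun n z => f (z + a n)) C (fun R =>
    Eventually.of_forall fun n t _ => ⟨hsc_hol_tr A hf (a n) t, fun i hi => by
      rw [hsc_deriv_tr]
      exact hC (t + a n) i hi⟩)
  have hgh : ∀ t, A.HolAt g t := fun t => (hg t).1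
  have hspeed : ∀ t, Tendsto (fun n => N (velocity (E := E) f (t + a n))) U
      (𝓝 (N (velocity (E := E) g t))) := by
    intro t
    obtain ⟨i, hi⟩ := A.cover (g t)
    rw [hvel g hgh i t (hsrc hi)]
    have h1 : ∀ᶠ n in (U : Filter ℕ), f (t + a n) ∈ (A.ch i).source :=
      (hg t).2.1.eventually ((A.ch i).open_source.mem_nhds (hsrc hi))
    have h2 : (fun n => N (velocity (E := E) f (t + a n))) =ᶠ[(U : Filter ℕ)]
        fun n => hsc_n N (y i) (A.ch i (f (t + a n))) (deriv (A.loc i f) (t + a n)) := by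
      filter_upwards [h1] with n hn
      exact hvel f hf i (t + a n) hn
    refine Tendsto.congr' h2.symm ?_
    have h3 : Tendsto (fun n => deriv (A.loc i f) (t + a n)) U (𝓝 (deriv (A.loc i g) t)) := by
      have h4 := (hg t).2.2 i (hsrc hi)
      refine h4.congr fun n => ?_
      exact hsc_deriv_tr A f i (a n) t
    have h5 : Tendsto (fun n => A.ch i (f (t + a n))) U (𝓝 (A.ch i (g t))) :=
      ((A.ch i).continuousAt (hsrc hi)).tendsto.comp (hg t).2.1
    have h6 : ContinuousAt (fun q : E × E => hsc_n N (y i) q.1 q.2)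
        (A.ch i (g t), deriv (A.loc i g) t) := by
      refine (hsc_n_cont hF.cont (y i)).continuousAt ?_
      refine ((chartAt E (y i)).open_target.prod isOpen_univ).mem_nhds ⟨?_, mem_univ _⟩
      rw [← hy i]
      exact (A.ch i).map_source (hsrc hi)
    exact h6.tendsto.comp (h5.prodMk_nhds h3)
  have hgle : ∀ t, N (velocity (E := E) g t) ≤ S := fun t =>
    le_of_tendsto (hspeed t) (Eventually.of_forall fun n => hle _)
  have hg0 : N (velocity (E := E) g 0) = S := by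
    refine le_antisymm (hgle 0) ?_
    have h1 : Tendsto (fun n : ℕ => S - 1 / ((n : ℝ) + 1)) U (𝓝 S) := by
      have h2 : Tendsto (fun n : ℕ => S - 1 / ((n : ℝ) + 1)) atTop (𝓝 (S - 0)) :=
        tendsto_const_nhds.sub tendsto_one_div_add_atTop_nhds_zero_nat
      rw [sub_zero] at h2
      exact h2.mono_left hUtop
    refine le_of_tendsto_of_tendsto' h1 (hspeed 0) fun n => ?_
    rw [zero_add]
    exact (ha n).le
  have hgm : MDifferentiable 𝓘(ℂ, ℂ) 𝓘(ℂ, E) g := (holAt_iff A hA' g).2 hgh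
  have hgS : ∀ t, N (velocity (E := E) g t) = S := fun t =>
    hsc_circle (hvcont g hgh) hgle (fun r hr => by
      rw [← hg0]
      exact hsub g hgm 0 r hr) hg0 t
  -- the bounds of the derivative
  have hgC : ∀ z i, g z ∈ A.W i → ‖deriv (A.loc i g) z‖ ≤ C := by
    intro z i hi
    have h1 := ((hg z).2.2 i (hsrc hi)).norm
    refine le_of_tendsto h1 ?_
    have h2 : ∀ᶠ n in (U : Filter ℕ), f (z + a n) ∈ A.W i :=
      (hg z).2.1.eventually ((A.W_open i).mem_nhds hi)
    filter_upwards [h2] with n hn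
    rw [hsc_deriv_tr]
    exact hC _ i hn
  obtain ⟨B₁, hB₁0, hB₁⟩ := hsc_bd A hy hF.cont 1
  have hKK : g ∈ A.KK (S / B₁) (max C 1) := by
    refine ⟨hgh, fun z i hz => ⟨?_, (hgC z i hz).trans (le_max_left _ _)⟩⟩
    have h1 := hgS z
    rw [hvel g hgh i z (hsrc hz)] at h1
    set w : E := deriv (A.loc i g) z with hw
    have htar : A.ch i (g z) ∈ (chartAt E (y i)).target := by
      rw [← hy i]
      exact (A.ch i).map_source (hsrc hz)
    have hw0 : w ≠ 0 := by
      intro h3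
      have h4 := hsc_n_smul hF.homog (y i) htar 0 0
      rw [smul_zero, norm_zero, zero_mul] at h4
      rw [h3, h4] at h1
      exact hS0.ne h1
    have hn0 : (‖w‖ : ℂ) ≠ 0 := by exact_mod_cast norm_ne_zero_iff.2 hw0
    have h3 := hsc_n_smul hF.homog (y i) htar (‖w‖ : ℂ) ((‖w‖ : ℂ)⁻¹ • w)
    rw [smul_inv_smul₀ hn0, h1, Complex.norm_real, norm_norm] at h3
    have h4 : ‖((‖w‖ : ℂ)⁻¹ • w)‖ ≤ 1 := by
      rw [norm_smul, norm_inv, Complex.norm_real, norm_norm,
        inv_mul_cancel₀ (norm_ne_zero_iff.2 hw0)]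
    have h5 := hB₁ i (g z) hz _ h4
    rw [div_le_iff₀ hB₁0, h3]
    exact mul_le_mul_of_nonneg_left h5 (norm_nonneg _)
  have hc0 : 0 < S / B₁ := div_pos hS0 hB₁0
  refine ⟨g, ?_, S / B₁, hc0, max C 1, lt_max_of_lt_right one_pos, hKK⟩
  by_contra hcon
  push Not at hcon
  obtain ⟨i, hi⟩ := A.cover (g 0)
  have h1 := (hKK.2 0 i hi).1
  have h2 : A.loc i g = fun _ => A.ch i (g 0) := by
    funext z
    rw [Cha.loc, hcon z 0]
  rw [h2, deriv_const, norm_zero] at h1
  exact absurd h1 (not_le.2 hc0)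

end manifold

end Pool.Agent.BR
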